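import Pool.Agent.Lib.MP_b5021c_nt.W.H1.Ca

/-!
# MP_b5021c_nt, all `θ`, K odd: (O1-i), the one-variable part (PaperO1, section 2)
-/

namespace Pool.Agent.B5.Nr.Sch

open Polynomial Metric
open Pool.Agent.B5.Nr.Car (Cara)

theorem aeval_real_cast (P : ℤ[X]) (x : ℝ) :
    aeval (x : ℂ) P = ((aeval x P : ℝ) : ℂ) := by
  have h : (x : ℂ) = algebraMap ℝ ℂ x := rfl
  rw [h, aeval_algebraMap_apply]
  rfl

/-- `c > 0` on `[0, 1)`. -/
theorem LocA.cpos {q f c : ℤ[X]} {a : ℝ} {n : ℕ} (h : LocA q f c a n) {x : ℝ} (hx0 : 0 ≤ x)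
    (hx : x < 1) : 0 < (aeval x c : ℝ) := by
  have hne : ∀ t : ℝ, 0 ≤ t → t < 1 → (aeval t c : ℝ) ≠ 0 := by
    intro t ht0 ht1 h0
    have h1 := h.cz t (by rw [Complex.norm_real, Real.norm_eq_abs, abs_of_nonneg ht0]; exact ht1)
    rw [aeval_real_cast, h0] at h1
    exact h1 rfl
  have h0 : (aeval (0 : ℝ) c : ℝ) = 1 := by
    rw [← coeff_zero_eq_aeval_zero', h.c0]; simp
  by_contra hcon
  push Not at hcon
  have hc : ContinuousOn (fun t : ℝ => (aeval t c : ℝ)) (Set.Icc 0 x) :=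
    (Polynomial.continuous_aeval c).continuousOn
  have hmem : (0 : ℝ) ∈ Set.Icc (aeval x c : ℝ) (aeval (0 : ℝ) c) := by
    rw [h0]; exact ⟨hcon, zero_le_one⟩
  obtain ⟨t, ht, ht0⟩ := intermediate_value_Icc' hx0 hc hmem
  exact hne t ht.1 (ht.2.trans_lt hx) ht0

/-- The value of `C_A` at a real point. -/
theorem LocA.valr {q f c : ℤ[X]} {a : ℝ} {n : ℕ} (h : LocA q f c a n) {x : ℝ} (hx0 : 0 < x)
    (hx : x < 1) : CA f c n x =
      ((n + 2 * (1 - aeval x f / aeval x c) / x - 2 * x : ℝ) : ℂ) := by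
  rw [h.val (by rw [Complex.norm_real, Real.norm_eq_abs, abs_of_pos hx0]; exact hx)
    (by exact_mod_cast hx0.ne'), aeval_real_cast, aeval_real_cast]
  push_cast
  ring

theorem LocA.qr {q f c : ℤ[X]} {a : ℝ} {n : ℕ} (h : LocA q f c a n) (x : ℝ) :
    (aeval x q : ℝ) = aeval x f - n * x * aeval x c := by
  rw [h.eq]
  simp

theorem Loc.qpos {Q f : ℤ[X]} {a : ℝ} (h : Loc Q f a) {x : ℝ} (hx0 : 0 ≤ x) (hx : x < a) :
    0 < (aeval x Q : ℝ) := by
  obtain ⟨s, hs, hsp, s0, s1, s2, hneg⟩ := h.sp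
  have e2 : (aeval x Q : ℝ) = (x - a) * s.eval x := by
    have h1 : (aeval x Q : ℝ) = (Q.map (Int.castRingHom ℝ)).eval x := by
      rw [eval_map]; rfl
    rw [h1, hs, eval_mul]; simp
  rw [e2]
  exact mul_pos_of_neg_of_neg (by linarith) (hneg x hx0 (by linarith [h.a1]))

/-- (1) of PaperO1. -/
theorem LocA.e1 {q f c : ℤ[X]} {a : ℝ} {n : ℕ} (h : LocA q f c a n) {x : ℝ} (hx0 : 0 < x)
    (hx : x < a) : n * x < aeval x f / aeval x c := by
  have h1 := h.loc.qpos hx0.le hx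
  have hc := h.cpos hx0.le (hx.trans h.loc.a1)
  rw [h.qr] at h1
  rw [lt_div_iff₀ hc]
  linarith

/-- (2) of PaperO1. -/
theorem LocA.e2 {q f c : ℤ[X]} {a : ℝ} {n : ℕ} (h : LocA q f c a n) {p : ℝ} (hp0 : 0 < p)
    (hp1 : p < 1) (hB : (aeval p q : ℝ) + p * aeval p f ≤ 0) :
    (1 + p) * (aeval p f / aeval p c) ≤ n * p := by
  have hc := h.cpos hp0.le hp1
  rw [h.qr] at hB
  rw [← mul_div_assoc, div_le_iff₀ hc]
  linarith

/-- `x_1 < x_2`. -/
theorem x12 {J p : ℝ} (hJ : 0 < J) (hp0 : 0 < p) (hp : p ^ 2 + J * p = 1) :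
    1 / (J + 1) < p ∧ p < 1 := by
  constructor
  · rw [div_lt_iff₀ (by linarith)]
    by_contra hcon
    push Not at hcon
    nlinarith
  · by_contra hcon
    push Not at hcon
    nlinarith

/-- `x_2 < 1/2`. -/
theorem x2h {J p : ℝ} (hJ : 2 ≤ J) (hp0 : 0 < p) (hp : p ^ 2 + J * p = 1) : p < 1 / 2 := by
  by_contra hcon
  push Not at hcon
  nlinarith

/-- The final inequality of the case `T_0 ≥ j + 4`. -/
theorem fin_ge {J p al be c0 : ℝ} (hJ : 1 ≤ J) (hp0 : 0 < p) (hp : p ^ 2 + J * p = 1)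
    (hal : al ≤ J + 2 - 2 * (1 / (J + 1))) (hbe : J + 2 - 2 * p ≤ be) (hc0 : J + 4 ≤ c0)
    (h : be * ((1 - p ^ 2) * (1 / (J + 1))) ≤
      al * ((1 - (1 / (J + 1)) ^ 2) * p) - c0 * ((p - 1 / (J + 1)) * (1 - 1 / (J + 1) * p))) :
    False := by
  have hJ1 : 0 < J + 1 := by linarith
  obtain ⟨hxp, hp1⟩ := x12 (by linarith : 0 < J) hp0 hp
  have e1 : 1 - p ^ 2 = J * p := by linarith
  have e2 : (p - 1 / (J + 1)) * (1 - 1 / (J + 1) * p) =
      (p * (2 * J ^ 2 + 3 * J + 2) - 2 * (J + 1)) / (J + 1) ^ 2 := by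
    have h1 : (p - 1 / (J + 1)) * (1 - 1 / (J + 1) * p) =
        ((p * (J + 1) - 1) * (J + 1 - p)) / (J + 1) ^ 2 := by
      field_simp
    rw [h1]
    congr 1
    linear_combination (-(J + 1)) * hp
  have e3 : (1 - (1 / (J + 1)) ^ 2) * p = J * (J + 2) * p / (J + 1) ^ 2 := by
    field_simp; ring
  rw [e1, e2, e3] at h
  have hpos2 : 0 ≤ (p * (2 * J ^ 2 + 3 * J + 2) - 2 * (J + 1)) := by
    have h2 : 0 < (p - 1 / (J + 1)) * (1 - 1 / (J + 1) * p) := by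
      apply mul_pos (by linarith)
      have : 1 / (J + 1) * p < 1 := by
        have h3 : 1 / (J + 1) < 1 := by linarith
        nlinarith [show 0 < 1 / (J + 1) by positivity]
      linarith
    rw [e2] at h2
    by_contra hcon
    push Not at hcon
    have := div_neg_of_neg_of_pos hcon (by positivity : 0 < (J + 1) ^ 2)
    linarith
  -- multiply by `(J+1)^3`
  have h1 : be * (J * p) * (J + 1) ^ 2 ≤
      al * (J * (J + 2) * p) * (J + 1) - c0 * (p * (2 * J ^ 2 + 3 * J + 2) - 2 * (J + 1)) *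
        (J + 1) := by
    have h2 := mul_le_mul_of_nonneg_right h (by positivity : 0 ≤ (J + 1) ^ 3)
    have l1 : be * (J * p * (1 / (J + 1))) * (J + 1) ^ 3 = be * (J * p) * (J + 1) ^ 2 := by
      field_simp
    have l2 : (al * (J * (J + 2) * p / (J + 1) ^ 2) -
        c0 * ((p * (2 * J ^ 2 + 3 * J + 2) - 2 * (J + 1)) / (J + 1) ^ 2)) * (J + 1) ^ 3 =
        al * (J * (J + 2) * p) * (J + 1) - c0 * (p * (2 * J ^ 2 + 3 * J + 2) - 2 * (J + 1)) *
        (J + 1) := by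
      field_simp
    rw [l1, l2] at h2
    exact h2
  have h2 : (J + 2 - 2 * p) * (J * p) * (J + 1) ^ 2 ≤ be * (J * p) * (J + 1) ^ 2 :=
    mul_le_mul_of_nonneg_right (mul_le_mul_of_nonneg_right hbe (by positivity)) (by positivity)
  have h3 : al * (J * (J + 2) * p) * (J + 1) ≤ J * (J + 3) * (J * (J + 2) * p) := by
    have h4 : al * (J + 1) ≤ J * (J + 3) := by
      have := mul_le_mul_of_nonneg_right hal hJ1.le
      have h5 : (J + 2 - 2 * (1 / (J + 1))) * (J + 1) = J * (J + 3) := by field_simp; ring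
      linarith
    calc al * (J * (J + 2) * p) * (J + 1) = (al * (J + 1)) * (J * (J + 2) * p) := by ring
      _ ≤ _ := mul_le_mul_of_nonneg_right h4 (by positivity)
  have h4 : (J + 4) * (p * (2 * J ^ 2 + 3 * J + 2) - 2 * (J + 1)) * (J + 1) ≤
      c0 * (p * (2 * J ^ 2 + 3 * J + 2) - 2 * (J + 1)) * (J + 1) :=
    mul_le_mul_of_nonneg_right (mul_le_mul_of_nonneg_right hc0 hpos2) hJ1.le
  -- `E ≤ 0`
  have h5 : (J + 2 - 2 * p) * (J * p) * (J + 1) ^ 2 - J * (J + 3) * (J * (J + 2) * p) +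
      (J + 4) * (p * (2 * J ^ 2 + 3 * J + 2) - 2 * (J + 1)) * (J + 1) =
      2 * (J + 2) * ((2 * J ^ 3 + 4 * J ^ 2 + 5 * J + 2) * p - 2 * (J + 1) ^ 2) := by
    linear_combination (-2 * J * (J + 1) ^ 2) * hp
  have h6 : (2 * J ^ 3 + 4 * J ^ 2 + 5 * J + 2) * p - 2 * (J + 1) ^ 2 ≤ 0 := by
    have h7 : 2 * (J + 2) * ((2 * J ^ 3 + 4 * J ^ 2 + 5 * J + 2) * p - 2 * (J + 1) ^ 2) ≤ 0 := by
      rw [← h5]; linarith
    by_contra hcon
    push Not at hcon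
    have := mul_pos (by linarith : 0 < 2 * (J + 2)) hcon
    linarith
  obtain ⟨B, hB⟩ : ∃ B : ℝ, B = 2 * J ^ 3 + 4 * J ^ 2 + 5 * J + 2 := ⟨_, rfl⟩
  obtain ⟨A, hA⟩ : ∃ A : ℝ, A = 2 * (J + 1) ^ 2 := ⟨_, rfl⟩
  rw [← hB, ← hA] at h6
  have hB0 : 0 < B := by rw [hB]; positivity
  have hA0 : 0 < A := by rw [hA]; positivity
  have h7 : B * p ≤ A := by linarith
  have h8 : B ^ 2 = (B * p) ^ 2 + J * (B * p) * B := by
    linear_combination (-(B ^ 2)) * hp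
  have h9 : (B * p) ^ 2 ≤ A ^ 2 := pow_le_pow_left₀ (by positivity) h7 2
  have h10 : J * (B * p) * B ≤ J * A * B :=
    mul_le_mul_of_nonneg_right (mul_le_mul_of_nonneg_left h7 (by linarith)) hB0.le
  have h11 : B ^ 2 - (A ^ 2 + J * A * B) = 2 * J ^ 4 - J ^ 2 := by
    rw [hA, hB]; ring
  have h12 : 0 < 2 * J ^ 4 - J ^ 2 := by
    have : 2 * J ^ 4 - J ^ 2 = J ^ 2 * (2 * J ^ 2 - 1) := by ring
    rw [this]
    exact mul_pos (by positivity) (by nlinarith)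
  linarith

/-- **OI_EXT**: `T_0 = j - 2 g_1` is `j` or `j + 2`. -/
theorem LocA.ext {q f c : ℤ[X]} {a p : ℝ} {j : ℕ} (h : LocA q f c a j) (hj : 1 ≤ j)
    (hp0 : 0 < p) (hp : p ^ 2 + j * p = 1) (hth : 1 < ((j : ℝ) + 1) * a)
    (hB : (aeval p q : ℝ) + p * aeval p f ≤ 0) :
    f.coeff 1 - c.coeff 1 = 0 ∨ f.coeff 1 - c.coeff 1 = -1 := by
  obtain ⟨J, hJ⟩ : ∃ J : ℝ, J = j := ⟨_, rfl⟩
  have hJ1 : 1 ≤ J := by rw [hJ]; exact_mod_cast hj
  rw [← hJ] at hp hth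
  obtain ⟨hxp, hp1⟩ := x12 (by linarith : 0 < J) hp0 hp
  have hx0 : 0 < 1 / (J + 1) := by positivity
  have hxa : 1 / (J + 1) < a := by
    rw [div_lt_iff₀ (by linarith)]; linarith
  have hcar := h.cara
  -- the value at `p`
  have v2 := h.valr hp0 hp1
  have w2 := h.e2 hp0 hp1 hB
  obtain ⟨be, hbe⟩ : ∃ be : ℝ, be = j + 2 * (1 - aeval p f / aeval p c) / p - 2 * p := ⟨_, rfl⟩
  rw [← hbe] at v2
  have hbe2 : J + 2 - 2 * p ≤ be := by
    rw [hbe, ← hJ]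
    have h1 : aeval p f / aeval p c ≤ 1 - p := by
      have h2 : (1 + p) * (aeval p f / aeval p c) ≤ (1 + p) * (1 - p) := by
        rw [← hJ] at w2
        linarith
      exact le_of_mul_le_mul_left h2 (by linarith)
    have h2 : 2 * p / p ≤ 2 * (1 - aeval p f / aeval p c) / p :=
      div_le_div_of_nonneg_right (by linarith) hp0.le
    have h3 : 2 * p / p = 2 := by field_simp
    linarith
  -- the value at `x_1`
  have v1 := h.valr hx0 (hxp.trans hp1)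
  have w1 := h.e1 hx0 hxa
  obtain ⟨x, hx⟩ : ∃ x : ℝ, x = 1 / (J + 1) := ⟨_, rfl⟩
  rw [← hx] at v1 w1 hx0 hxp hxa
  obtain ⟨al, hal⟩ : ∃ al : ℝ, al = j + 2 * (1 - aeval x f / aeval x c) / x - 2 * x := ⟨_, rfl⟩
  rw [← hal] at v1
  have hal2 : al ≤ J + 2 - 2 * x := by
    rw [hal, ← hJ]
    rw [← hJ] at w1
    have h1 : 2 * (1 - aeval x f / aeval x c) / x ≤ 2 * (1 - J * x) / x :=
      div_le_div_of_nonneg_right (by linarith) hx0.le
    have h3 : 2 * (1 - J * x) / x = 2 := by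
      rw [hx]; field_simp; ring
    linarith
  -- the value at `0`
  have v0 := h.val0
  obtain ⟨g1, hg1⟩ : ∃ g1 : ℤ, g1 = f.coeff 1 - c.coeff 1 := ⟨_, rfl⟩
  rw [← hg1] at v0 ⊢
  have v0' : CA f c j 0 = ((J - 2 * g1 : ℝ) : ℂ) := by
    rw [v0, hJ]; push_cast; ring
  by_contra hcon
  have hcases : 1 ≤ g1 ∨ g1 ≤ -2 := by omega
  rcases hcases with hc1 | hc1
  · -- `T_0 ≤ j - 2`
    have hc1' : (1 : ℝ) ≤ g1 := by exact_mod_cast hc1
    have h1 := hcar.up (x := 0) (y := p) le_rfl hp0.le hp1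
    rw [v2] at h1
    simp only [Complex.ofReal_zero] at h1
    rw [v0', Complex.ofReal_re, Complex.ofReal_re] at h1
    have h2 : (J + 2 - 2 * p) * (1 - p) ≤ be * (1 - p) :=
      mul_le_mul_of_nonneg_right hbe2 (by linarith)
    have h3 : (J - 2 * g1) * (1 + p) ≤ (J - 2) * (1 + p) :=
      mul_le_mul_of_nonneg_right (by linarith) (by linarith)
    nlinarith [sq_nonneg (p - 1 / 4)]
  · -- `T_0 ≥ j + 4`
    have hc1' : (g1 : ℝ) ≤ -2 := by exact_mod_cast hc1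
    have h1 := hcar.three hx0 hxp hp1 v0' (by linarith) v1 v2
    rw [hx] at h1 hal2
    exact fin_ge hJ1 hp0 hp hal2 hbe2 (by linarith) h1

/-- **OI_T0J**: `f = c (1 + g_2 z²)` is impossible. -/
theorem LocA.t0j {q f c : ℤ[X]} {a p : ℝ} {j : ℕ} (h : LocA q f c a j) (hj : 1 ≤ j)
    (hp0 : 0 < p) (hp : p ^ 2 + j * p = 1) (hth : 1 < ((j : ℝ) + 1) * a)
    (hB : (aeval p q : ℝ) + p * aeval p f ≤ 0) (g2 : ℤ) (hf : f = c * (1 + C g2 * X ^ 2)) :
    False := by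
  obtain ⟨J, hJ⟩ : ∃ J : ℝ, J = j := ⟨_, rfl⟩
  have hJ1 : 1 ≤ J := by rw [hJ]; exact_mod_cast hj
  rw [← hJ] at hp hth
  obtain ⟨hxp, hp1⟩ := x12 (by linarith : 0 < J) hp0 hp
  have hx0 : 0 < 1 / (J + 1) := by positivity
  have hxa : 1 / (J + 1) < a := by
    rw [div_lt_iff₀ (by linarith)]; linarith
  have hval : ∀ t : ℝ, 0 < t → t < 1 → aeval t f / aeval t c = 1 + g2 * t ^ 2 := by
    intro t ht0 ht1
    have hc := h.cpos ht0.le ht1
    have h1 : (aeval t f : ℝ) = aeval t c * (1 + g2 * t ^ 2) := by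
      rw [hf]; simp
    rw [h1]
    field_simp
  have w2 := h.e2 hp0 hp1 hB
  have w1 := h.e1 hx0 hxa
  rw [hval _ hp0 hp1, ← hJ] at w2
  rw [hval _ hx0 (hxp.trans hp1), ← hJ] at w1
  -- `g2 ≤ -1/p < -j`
  have h1 : g2 * p ^ 2 ≤ -p := by
    have h2 : (1 + p) * (1 + g2 * p ^ 2) ≤ (1 + p) * (1 - p) := by linarith
    have := le_of_mul_le_mul_left h2 (by linarith)
    linarith
  have h2 : g2 * p ≤ -1 := by
    have h3 : p * (g2 * p) ≤ p * (-1) := by linarith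
    exact le_of_mul_le_mul_left h3 hp0
  have h3 : (g2 : ℝ) < -J := by
    by_contra hcon
    push Not at hcon
    have h4 : -J * p ≤ g2 * p := mul_le_mul_of_nonneg_right hcon hp0.le
    nlinarith
  have h4 : -(J + 1) < (g2 : ℝ) := by
    by_contra hcon
    push Not at hcon
    have h5 : g2 * (1 / (J + 1)) ^ 2 ≤ -(J + 1) * (1 / (J + 1)) ^ 2 :=
      mul_le_mul_of_nonneg_right hcon (by positivity)
    have h6 : -(J + 1) * (1 / (J + 1)) ^ 2 = -(1 / (J + 1)) := by field_simp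
    have h7 : J * (1 / (J + 1)) = 1 - 1 / (J + 1) := by field_simp; ring
    linarith
  rw [hJ] at h3 h4
  have h5 : (g2 : ℤ) < -(j : ℤ) := by exact_mod_cast h3
  have h6 : -((j : ℤ) + 1) < g2 := by exact_mod_cast h4
  omega

end Pool.Agent.B5.Nr.Sch
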