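import Mathlib

/-!
# MP_b5021c_nt, all `θ`: functions with nonnegative real part (two and three points)
-/

namespace Pool.Agent.B5.Nr.Car

open Metric Complex

/-- Harnack's inequality at the centre (positive real part). -/
theorem har_pos (C : ℂ → ℂ) (a : ℂ) (hC : DifferentiableOn ℂ C (ball 0 1))
    (hp : ∀ z : ℂ, ‖z‖ < 1 → 0 < (C z).re) (ha : ‖a‖ < 1) :
    (1 - ‖a‖) / (1 + ‖a‖) * (C 0).re ≤ (C a).re := by
  have hc0 : 0 < (C 0).re := hp 0 (by simp)
  have hden : ∀ z : ℂ, ‖z‖ < 1 → C z + (starRingEnd ℂ) (C 0) ≠ 0 := by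
    intro z hz h
    have h1 := congrArg Complex.re h
    simp only [Complex.add_re, Complex.conj_re, Complex.zero_re] at h1
    linarith [hp z hz]
  set k : ℂ → ℂ := fun z => (C z - C 0) / (C z + (starRingEnd ℂ) (C 0)) with hk
  have hkd : DifferentiableOn ℂ k (ball 0 1) := by
    apply DifferentiableOn.div (hC.sub_const _) (hC.add_const _)
    intro z hz
    exact hden z (by simpa using hz)
  have hsq : ∀ z : ℂ, ‖C z - C 0‖ ^ 2 = ((C z).re - (C 0).re) ^ 2 +
      ((C z).im - (C 0).im) ^ 2 ∧ ‖C z + (starRingEnd ℂ) (C 0)‖ ^ 2 =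
      ((C z).re + (C 0).re) ^ 2 + ((C z).im - (C 0).im) ^ 2 := by
    intro z
    constructor
    · rw [Complex.sq_norm, Complex.normSq_apply]
      simp only [Complex.sub_re, Complex.sub_im]
      ring
    · rw [Complex.sq_norm, Complex.normSq_apply]
      simp only [Complex.add_re, Complex.add_im, Complex.conj_re, Complex.conj_im]
      ring
  have hmaps : Set.MapsTo k (ball 0 1) (ball 0 1) := by
    intro z hz
    have hz' : ‖z‖ < 1 := by simpa using hz
    have h1 := hden z hz'
    have h2 : 0 < ‖C z + (starRingEnd ℂ) (C 0)‖ := norm_pos_iff.mpr h1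
    rw [mem_ball_zero_iff, hk, norm_div, div_lt_one h2]
    apply lt_of_pow_lt_pow_left₀ 2 h2.le
    rw [(hsq z).1, (hsq z).2]
    have := mul_pos (hp z hz') hc0
    nlinarith
  have hk0 : k 0 = 0 := by simp [hk]
  have hS := Complex.norm_le_norm_of_mapsTo_ball hkd (hmaps.mono_right ball_subset_closedBall) hk0 ha
  have h1 := hden a ha
  have h2 : 0 < ‖C a + (starRingEnd ℂ) (C 0)‖ := norm_pos_iff.mpr h1
  rw [hk, norm_div, div_le_iff₀ h2] at hS
  have h3 : ‖C a - C 0‖ ^ 2 ≤ ‖a‖ ^ 2 * ‖C a + (starRingEnd ℂ) (C 0)‖ ^ 2 := by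
    rw [← mul_pow]
    exact pow_le_pow_left₀ (norm_nonneg _) hS 2
  rw [(hsq a).1, (hsq a).2] at h3
  have ht0 := norm_nonneg a
  have hua := hp a ha
  have h4 : ((C 0).re - (C a).re) ^ 2 ≤ (‖a‖ * ((C a).re + (C 0).re)) ^ 2 := by
    have h5 : 0 ≤ (1 - ‖a‖ ^ 2) * ((C a).im - (C 0).im) ^ 2 :=
      mul_nonneg (by nlinarith) (sq_nonneg _)
    nlinarith
  have h6 : (C 0).re - (C a).re ≤ ‖a‖ * ((C a).re + (C 0).re) :=
    le_of_sq_le_sq h4 (by positivity)
  rw [div_mul_eq_mul_div, div_le_iff₀ (by linarith)]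
  nlinarith

/-- A function with nonnegative real part in the disc. -/
structure Cara (C : ℂ → ℂ) : Prop where
  d : DifferentiableOn ℂ C (ball 0 1)
  re : ∀ z : ℂ, ‖z‖ < 1 → 0 ≤ (C z).re

/-- Harnack's inequality at the centre. -/
theorem Cara.har {C : ℂ → ℂ} (h : Cara C) {a : ℂ} (ha : ‖a‖ < 1) :
    (1 - ‖a‖) / (1 + ‖a‖) * (C 0).re ≤ (C a).re := by
  apply le_of_forall_pos_le_add
  intro ε hε
  have h := har_pos (fun z => C z + (ε : ℂ)) a (h.d.add_const _) (fun z hz => by
    simp only [Complex.add_re, Complex.ofReal_re]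
    linarith [h.re z hz]) ha
  simp only [Complex.add_re, Complex.ofReal_re] at h
  have h1 : 0 ≤ (1 - ‖a‖) / (1 + ‖a‖) * ε := by
    apply mul_nonneg (div_nonneg (by linarith) (by linarith [norm_nonneg a])) hε.le
  rw [mul_add] at h
  linarith

/-- The automorphism `w ↦ (w + x) / (1 + x w)`. -/
theorem mob_lt {x : ℝ} (hx : |x| < 1) {w : ℂ} (hw : ‖w‖ < 1) :
    1 + (x : ℂ) * w ≠ 0 ∧ ‖(w + x) / (1 + x * w)‖ < 1 := by
  have h1 : 1 + (x : ℂ) * w ≠ 0 := by
    intro h
    have h2 : ‖(x : ℂ) * w‖ = 1 := by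
      have : (x : ℂ) * w = -1 := by linear_combination h
      rw [this, norm_neg, norm_one]
    rw [norm_mul, Complex.norm_real, Real.norm_eq_abs] at h2
    nlinarith [abs_nonneg x, norm_nonneg w]
  refine ⟨h1, ?_⟩
  have h2 : 0 < ‖1 + (x : ℂ) * w‖ := norm_pos_iff.mpr h1
  rw [norm_div, div_lt_one h2]
  apply lt_of_pow_lt_pow_left₀ 2 h2.le
  rw [Complex.sq_norm, Complex.sq_norm, Complex.normSq_apply, Complex.normSq_apply]
  simp only [Complex.add_re, Complex.add_im, Complex.mul_re, Complex.mul_im, Complex.ofReal_re,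
    Complex.ofReal_im, Complex.one_re, Complex.one_im]
  have h3 : w.re * w.re + w.im * w.im < 1 := by
    rw [← Complex.normSq_apply, Complex.normSq_eq_norm_sq]
    exact (sq_lt_one_iff₀ (norm_nonneg _)).mpr hw
  have h4 : x ^ 2 < 1 := by
    rw [← sq_abs]; exact (sq_lt_one_iff₀ (abs_nonneg x)).mpr hx
  nlinarith [mul_pos (sub_pos.mpr h3) (sub_pos.mpr h4)]

theorem mob_diff {x : ℝ} (hx : |x| < 1) :
    DifferentiableOn ℂ (fun w : ℂ => (w + x) / (1 + x * w)) (ball 0 1) := by
  apply DifferentiableOn.div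
  · fun_prop
  · fun_prop
  · intro w hw
    exact (mob_lt hx (by simpa using hw)).1

/-- Algebra. -/
theorem alg1 {x y D : ℝ} (hD : D = 1 - x * y) (h : D ≠ 0) (hx : x ^ 2 < 1) :
    ((y - x) / D + x) / (1 + x * ((y - x) / D)) = y := by
  have e1 : (y - x) / D + x = y * (1 - x ^ 2) / D := by
    field_simp; rw [hD]; ring
  have e2 : 1 + x * ((y - x) / D) = (1 - x ^ 2) / D := by
    field_simp; rw [hD]; ring
  have h1 : (1 - x ^ 2) ≠ 0 := by linarith
  rw [e1, e2]
  field_simp

theorem alg2 {x y D : ℝ} (hD : D = 1 - x * y) (h : D ≠ 0) (h6 : (1 - x) * (1 + y) ≠ 0) :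
    (1 - (y - x) / D) / (1 + (y - x) / D) = ((1 + x) * (1 - y)) / ((1 - x) * (1 + y)) := by
  have h4 : 1 - (y - x) / D = ((1 + x) * (1 - y)) / D := by
    field_simp; rw [hD]; ring
  have h5 : 1 + (y - x) / D = ((1 - x) * (1 + y)) / D := by
    field_simp; rw [hD]; ring
  rw [h4, h5, div_div_div_cancel_right₀ h]

theorem alg3 {A B u v : ℝ} (hA : A ≠ 0) (hB : B ≠ 0) :
    v / B - u / A = (v * A - u * B) / (A * B) := by
  field_simp

theorem alg4 {A B D u v w : ℝ} (hA : A ≠ 0) (hB : B ≠ 0) (hD : D ≠ 0) :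
    w / D * (1 - u / A * (v / B)) = (w * (A * B - u * v)) / (D * (A * B)) := by
  field_simp

/-- Harnack's inequality between two points of the real axis. -/
theorem Cara.har2 {C : ℂ → ℂ} (h : Cara C) {x y : ℝ} (hx : |x| < 1) (hy : |y| < 1) :
    (1 - |(y - x) / (1 - x * y)|) / (1 + |(y - x) / (1 - x * y)|) * (C x).re ≤ (C y).re := by
  have hxy : 0 < 1 - x * y := by
    have : |x * y| < 1 := by
      rw [abs_mul]; nlinarith [abs_nonneg x, abs_nonneg y]
    linarith [(abs_lt.mp this).2]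
  set ρ : ℝ := (y - x) / (1 - x * y) with hρ
  have hρ1 : |ρ| < 1 := by
    rw [hρ, abs_div, div_lt_one (abs_pos.mpr hxy.ne'), abs_of_pos hxy, abs_lt]
    have hx' := abs_lt.mp hx
    have hy' := abs_lt.mp hy
    constructor <;> nlinarith
  have hc : Cara (fun w : ℂ => C ((w + x) / (1 + x * w))) := by
    refine ⟨?_, fun z hz => h.re _ (mob_lt hx hz).2⟩
    apply h.d.comp (mob_diff hx)
    intro w hw
    rw [mem_ball_zero_iff]
    exact (mob_lt hx (by simpa using hw)).2
  have h1 := hc.har (a := (ρ : ℂ)) (by rw [Complex.norm_real, Real.norm_eq_abs]; exact hρ1)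
  simp only [Complex.norm_real, Real.norm_eq_abs, zero_add, mul_zero, add_zero, div_one] at h1
  have h2 : ((ρ : ℂ) + x) / (1 + x * ρ) = y := by
    have h4 : x ^ 2 < 1 := by rw [← sq_abs]; exact (sq_lt_one_iff₀ (abs_nonneg x)).mpr hx
    have h5 : (ρ + x) / (1 + x * ρ) = y := alg1 rfl hxy.ne' h4
    exact_mod_cast congrArg (fun t : ℝ => (t : ℂ)) h5
  rw [h2] at h1
  exact h1

/-- The form used below: `0 ≤ x ≤ y < 1`, upper bound at `y`. -/
theorem Cara.up {C : ℂ → ℂ} (h : Cara C) {x y : ℝ} (hx : 0 ≤ x) (hxy : x ≤ y) (hy : y < 1) :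
    (C y).re * ((1 + x) * (1 - y)) ≤ (C x).re * ((1 - x) * (1 + y)) := by
  have h1 := h.har2 (x := y) (y := x) (by rw [abs_of_nonneg (by linarith)]; exact hy)
    (by rw [abs_of_nonneg hx]; linarith)
  have hp : 0 < 1 - y * x := by nlinarith
  have h2 : |(x - y) / (1 - y * x)| = (y - x) / (1 - y * x) := by
    rw [abs_div, abs_of_pos hp, abs_of_nonpos (by linarith)]; ring
  rw [h2] at h1
  have h3 : (1 - (y - x) / (1 - y * x)) / (1 + (y - x) / (1 - y * x)) =
      ((1 + x) * (1 - y)) / ((1 - x) * (1 + y)) := by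
    have h6 : (1 - x) * (1 + y) ≠ 0 := by
      have : 0 < (1 - x) * (1 + y) := mul_pos (by linarith) (by linarith)
      exact this.ne'
    exact alg2 (by ring) hp.ne' h6
  rw [h3, div_mul_eq_mul_div, div_le_iff₀ (mul_pos (by linarith) (by linarith))] at h1
  linarith

/-- The lower bound at `y`. -/
theorem Cara.lo {C : ℂ → ℂ} (h : Cara C) {x y : ℝ} (hx : 0 ≤ x) (hxy : x ≤ y) (hy : y < 1) :
    (C x).re * ((1 + x) * (1 - y)) ≤ (C y).re * ((1 - x) * (1 + y)) := by
  have h1 := h.har2 (x := x) (y := y) (by rw [abs_of_nonneg hx]; linarith)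
    (by rw [abs_of_nonneg (by linarith)]; exact hy)
  have hp : 0 < 1 - x * y := by nlinarith
  have h2 : |(y - x) / (1 - x * y)| = (y - x) / (1 - x * y) := by
    rw [abs_div, abs_of_pos hp, abs_of_nonneg (by linarith)]
  rw [h2] at h1
  have h3 : (1 - (y - x) / (1 - x * y)) / (1 + (y - x) / (1 - x * y)) =
      ((1 + x) * (1 - y)) / ((1 - x) * (1 + y)) := by
    have h6 : (1 - x) * (1 + y) ≠ 0 := by
      have : 0 < (1 - x) * (1 + y) := mul_pos (by linarith) (by linarith)
      exact this.ne'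
    exact alg2 rfl hp.ne' h6
  rw [h3, div_mul_eq_mul_div, div_le_iff₀ (mul_pos (by linarith) (by linarith))] at h1
  linarith

/-- **Schwarz-Pick** between two points of the real axis, for real values. -/
theorem sp2 {s : ℂ → ℂ} (hd : DifferentiableOn ℂ s (ball 0 1))
    (hs : ∀ z : ℂ, ‖z‖ < 1 → ‖s z‖ ≤ 1) {x y u v : ℝ} (hx : |x| < 1) (hy : |y| < 1)
    (hu : s x = u) (hv : s y = v) :
    |v - u| ≤ |(y - x) / (1 - x * y)| * (1 - u * v) := by
  have hxy : 0 < 1 - x * y := by
    have : |x * y| < 1 := by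
      rw [abs_mul]; nlinarith [abs_nonneg x, abs_nonneg y]
    linarith [(abs_lt.mp this).2]
  set ρ : ℝ := (y - x) / (1 - x * y) with hρ
  have hρ1 : |ρ| < 1 := by
    rw [hρ, abs_div, div_lt_one (abs_pos.mpr hxy.ne'), abs_of_pos hxy, abs_lt]
    have hx' := abs_lt.mp hx
    have hy' := abs_lt.mp hy
    constructor <;> nlinarith
  have h2 : ((ρ : ℂ) + x) / (1 + x * ρ) = y := by
    have h4 : x ^ 2 < 1 := by rw [← sq_abs]; exact (sq_lt_one_iff₀ (abs_nonneg x)).mpr hx
    have h5 : (ρ + x) / (1 + x * ρ) = y := alg1 rfl hxy.ne' h4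
    exact_mod_cast congrArg (fun t : ℝ => (t : ℂ)) h5
  have hu1 : |u| ≤ 1 := by
    have := hs x (by rw [Complex.norm_real, Real.norm_eq_abs]; exact hx)
    rwa [hu, Complex.norm_real, Real.norm_eq_abs] at this
  have hv1 : |v| ≤ 1 := by
    have := hs y (by rw [Complex.norm_real, Real.norm_eq_abs]; exact hy)
    rwa [hv, Complex.norm_real, Real.norm_eq_abs] at this
  have key : ∀ t ∈ Set.Ico (0 : ℝ) 1, |t * v - t * u| ≤ |ρ| * (1 - t * u * (t * v)) := by
    intro t ht
    -- the function `k`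
    have hb : ∀ w : ℂ, ‖w‖ < 1 → ‖(t : ℂ) * s ((w + x) / (1 + x * w))‖ ≤ t := by
      intro w hw
      rw [norm_mul, Complex.norm_real, Real.norm_eq_abs, abs_of_nonneg ht.1]
      calc t * ‖s ((w + x) / (1 + x * w))‖ ≤ t * 1 :=
            mul_le_mul_of_nonneg_left (hs _ (mob_lt hx hw).2) ht.1
        _ = t := mul_one t
    have htu : |t * u| < 1 := by
      rw [abs_mul, abs_of_nonneg ht.1]
      calc t * |u| ≤ t * 1 := mul_le_mul_of_nonneg_left hu1 ht.1
        _ < 1 := by rw [mul_one]; exact ht.2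
    set g : ℂ → ℂ := fun w => (t : ℂ) * s ((w + x) / (1 + x * w)) with hg
    have hgd : DifferentiableOn ℂ g (ball 0 1) := by
      apply DifferentiableOn.const_mul
      apply hd.comp (mob_diff hx)
      intro w hw
      rw [mem_ball_zero_iff]
      exact (mob_lt hx (by simpa using hw)).2
    have hneg : |-(t * u)| < 1 := by rw [abs_neg]; exact htu
    set k : ℂ → ℂ := fun w => (g w + ((-(t * u) : ℝ) : ℂ)) / (1 + ((-(t * u) : ℝ) : ℂ) * g w) with hk
    have hg1 : ∀ w : ℂ, ‖w‖ < 1 → ‖g w‖ < 1 := fun w hw => (hb w hw).trans_lt ht.2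
    have hkd : DifferentiableOn ℂ k (ball 0 1) := by
      apply DifferentiableOn.div
      · exact hgd.add_const _
      · exact (hgd.const_mul _).const_add _
      · intro w hw
        exact (mob_lt hneg (hg1 w (by simpa using hw))).1
    have hmaps : Set.MapsTo k (ball 0 1) (closedBall 0 1) := by
      intro w hw
      rw [mem_closedBall_zero_iff]
      exact (mob_lt hneg (hg1 w (by simpa using hw))).2.le
    have hg0 : g 0 = ((t * u : ℝ) : ℂ) := by
      rw [hg]
      simp only [zero_add, mul_zero, add_zero, div_one]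
      rw [hu]; push_cast; ring
    have hgr : g ρ = ((t * v : ℝ) : ℂ) := by
      rw [hg]
      simp only
      rw [h2, hv]; push_cast; ring
    have hk0 : k 0 = 0 := by
      rw [hk]
      simp only
      rw [hg0]; push_cast; ring
    have hS := Complex.norm_le_norm_of_mapsTo_ball hkd hmaps hk0
      (z := (ρ : ℂ)) (by rw [Complex.norm_real, Real.norm_eq_abs]; exact hρ1)
    have hkr : k ρ = (((t * v - t * u) / (1 - t * u * (t * v)) : ℝ) : ℂ) := by
      rw [hk]
      simp only
      rw [hgr]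
      push_cast
      congr 1 <;> ring
    have hpos : 0 < 1 - t * u * (t * v) := by
      have h3 : |t * v| < 1 := by
        rw [abs_mul, abs_of_nonneg ht.1]
        calc t * |v| ≤ t * 1 := mul_le_mul_of_nonneg_left hv1 ht.1
          _ < 1 := by rw [mul_one]; exact ht.2
      have : |t * u * (t * v)| < 1 := by
        rw [abs_mul]; nlinarith [abs_nonneg (t * u), abs_nonneg (t * v)]
      linarith [(abs_lt.mp this).2]
    rw [hkr, Complex.norm_real, Complex.norm_real, Real.norm_eq_abs, Real.norm_eq_abs, abs_div,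
      abs_of_pos hpos, div_le_iff₀ hpos] at hS
    exact hS
  have hcl : (1 : ℝ) ∈ closure (Set.Ico (0 : ℝ) 1) := by
    rw [closure_Ico zero_ne_one]; exact ⟨zero_le_one, le_rfl⟩
  have hc1 : Continuous fun t : ℝ => |t * v - t * u| := by fun_prop
  have hc2 : Continuous fun t : ℝ => |ρ| * (1 - t * u * (t * v)) := by fun_prop
  have h5 : (1 : ℝ) ∈ {t : ℝ | |t * v - t * u| ≤ |ρ| * (1 - t * u * (t * v))} :=
    closure_minimal (fun t ht => key t ht) (isClosed_le hc1 hc2) hcl
  simpa using h5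

/-- **The three point inequality**, `h = (1 + x) / (1 - x)`, denominators removed. -/
theorem Cara.three {C : ℂ → ℂ} (h : Cara C) {x y c0 al be : ℝ} (hx : 0 < x) (hxy : x < y)
    (hy : y < 1) (h0 : C 0 = c0) (hc0 : 0 < c0) (hal : C x = al) (hbe : C y = be) :
    be * ((1 - y ^ 2) * x) ≤ al * ((1 - x ^ 2) * y) - c0 * ((y - x) * (1 - x * y)) := by
  have hx1 : x < 1 := by linarith
  have hre : ∀ z : ℂ, ‖z‖ < 1 → C z + c0 ≠ 0 := by
    intro z hz h1
    have h2 := congrArg Complex.re h1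
    simp only [Complex.add_re, Complex.ofReal_re, Complex.zero_re] at h2
    linarith [h.re z hz]
  set k : ℂ → ℂ := fun z => (C z - c0) / (C z + c0) with hk
  have hkd : DifferentiableOn ℂ k (ball 0 1) := by
    apply DifferentiableOn.div (h.d.sub_const _) (h.d.add_const _)
    intro z hz
    exact hre z (by simpa using hz)
  have hk0 : k 0 = 0 := by rw [hk]; simp only; rw [h0]; simp
  have hmaps : Set.MapsTo k (ball 0 1) (closedBall (k 0) 1) := by
    intro z hz
    have hz' : ‖z‖ < 1 := by simpa using hz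
    have h1 := hre z hz'
    have h2 : 0 < ‖C z + c0‖ := norm_pos_iff.mpr h1
    rw [hk0, mem_closedBall_zero_iff, hk]
    simp only
    rw [norm_div, div_le_one h2]
    apply le_of_sq_le_sq _ h2.le
    rw [Complex.sq_norm, Complex.sq_norm, Complex.normSq_apply, Complex.normSq_apply]
    simp only [Complex.sub_re, Complex.sub_im, Complex.add_re, Complex.add_im, Complex.ofReal_re,
      Complex.ofReal_im]
    nlinarith [mul_nonneg (h.re z hz') hc0.le]
  set s : ℂ → ℂ := dslope k 0 with hs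
  have hsd : DifferentiableOn ℂ s (ball 0 1) :=
    (Complex.differentiableOn_dslope (isOpen_ball.mem_nhds (mem_ball_self one_pos))).mpr hkd
  have hsn : ∀ z : ℂ, ‖z‖ < 1 → ‖s z‖ ≤ 1 := by
    intro z hz
    have := Complex.norm_dslope_le_div_of_mapsTo_ball hkd hmaps (z := z) (by simpa using hz)
    simpa using this
  have hal0 : 0 ≤ al := by
    have := h.re x (by rw [Complex.norm_real, Real.norm_eq_abs, abs_of_pos hx]; exact hx1)
    rwa [hal, Complex.ofReal_re] at this
  have hbe0 : 0 ≤ be := by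
    have := h.re y (by
      rw [Complex.norm_real, Real.norm_eq_abs, abs_of_pos (by linarith)]; exact hy)
    rwa [hbe, Complex.ofReal_re] at this
  have hval : ∀ (t w : ℝ), 0 < t → C t = w → s t = (((w - c0) / (t * (w + c0)) : ℝ) : ℂ) := by
    intro t w ht hw
    have ht0 : (t : ℂ) ≠ 0 := by exact_mod_cast ht.ne'
    rw [hs, dslope_of_ne _ ht0, slope_def_module, hk0, sub_zero, sub_zero, hk]
    simp only
    rw [hw]
    push_cast
    rw [smul_eq_mul]
    rw [mul_comm (t : ℂ), ← div_div, inv_mul_eq_div]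
  have h1 := sp2 hsd hsn (x := x) (y := y) (by rw [abs_of_pos hx]; exact hx1)
    (by rw [abs_of_pos (by linarith)]; exact hy) (hval x al hx hal) (hval y be (by linarith) hbe)
  have hxy1 : 0 < 1 - x * y := by nlinarith
  have h2 := (abs_le.mp h1).2
  rw [abs_of_pos (div_pos (by linarith) hxy1)] at h2
  have hA : 0 < x * (al + c0) := mul_pos hx (by linarith)
  have hB : 0 < y * (be + c0) := mul_pos (by linarith) (by linarith)
  -- clear the denominators
  have h3 : ((be - c0) * (x * (al + c0)) - (al - c0) * (y * (be + c0))) * (1 - x * y) ≤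
      (y - x) * ((x * (al + c0)) * (y * (be + c0)) - (al - c0) * (be - c0)) := by
    have e1 : (be - c0) / (y * (be + c0)) - (al - c0) / (x * (al + c0)) =
        ((be - c0) * (x * (al + c0)) - (al - c0) * (y * (be + c0))) /
          ((x * (al + c0)) * (y * (be + c0))) := alg3 hA.ne' hB.ne'
    have e2 : (y - x) / (1 - x * y) * (1 - (al - c0) / (x * (al + c0)) *
        ((be - c0) / (y * (be + c0)))) =
        ((y - x) * ((x * (al + c0)) * (y * (be + c0)) - (al - c0) * (be - c0))) /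
          ((1 - x * y) * ((x * (al + c0)) * (y * (be + c0)))) := alg4 hA.ne' hB.ne' hxy1.ne'
    rw [e1, e2, div_le_div_iff₀ (mul_pos hA hB) (mul_pos hxy1 (mul_pos hA hB))] at h2
    have h4 : ((be - c0) * (x * (al + c0)) - (al - c0) * (y * (be + c0))) * (1 - x * y) *
        ((x * (al + c0)) * (y * (be + c0))) ≤
        (y - x) * ((x * (al + c0)) * (y * (be + c0)) - (al - c0) * (be - c0)) *
        ((x * (al + c0)) * (y * (be + c0))) := by
      calc _ = ((be - c0) * (x * (al + c0)) - (al - c0) * (y * (be + c0))) *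
            ((1 - x * y) * ((x * (al + c0)) * (y * (be + c0)))) := by ring
        _ ≤ _ := h2
    exact le_of_mul_le_mul_right h4 (mul_pos hA hB)
  have h4 : (y - x) * ((x * (al + c0)) * (y * (be + c0)) - (al - c0) * (be - c0)) -
      ((be - c0) * (x * (al + c0)) - (al - c0) * (y * (be + c0))) * (1 - x * y) =
      2 * c0 * (al * ((1 - x ^ 2) * y) - c0 * ((y - x) * (1 - x * y)) - be * ((1 - y ^ 2) * x)) := by
    ring
  have h5 : 0 ≤ 2 * c0 * (al * ((1 - x ^ 2) * y) - c0 * ((y - x) * (1 - x * y)) -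
      be * ((1 - y ^ 2) * x)) := by rw [← h4]; linarith
  have h6 : 0 ≤ al * ((1 - x ^ 2) * y) - c0 * ((y - x) * (1 - x * y)) - be * ((1 - y ^ 2) * x) :=
    nonneg_of_mul_nonneg_right h5 (by linarith)
  linarith

end Pool.Agent.B5.Nr.Car
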