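import Pool.Agent.Lib.MP_b5021c_nt.W.H80.Win
import Pool.Agent.Lib.MP_b5021c_nt.W.H1.Car

/-!
# MP_b5021c_nt, all `θ`: the function `C_A` (PaperO1, (3))
-/

namespace Pool.Agent.B5.Nr.Sch

open Polynomial Metric
open Pool.Agent.B5.Nr.Car (Cara)

/-- The A-load: `q - f = - n z c`, `c` zero-free in the open disc. -/
structure LocA (q f c : ℤ[X]) (a : ℝ) (n : ℕ) : Prop where
  loc : Loc q f a
  f0 : f.coeff 0 = 1
  c0 : c.coeff 0 = 1
  cz : ∀ z : ℂ, ‖z‖ < 1 → aeval z c ≠ 0
  eq : q = f - C (n : ℤ) * X * c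
  n1 : 1 ≤ n

/-- The numerator of `C_A`. -/
noncomputable def numA (f c : ℤ[X]) (n : ℕ) : ℤ[X] :=
  C (n : ℤ) * c + C 2 * divX (c - f) - C 2 * X * c

/-- `C_A`. -/
noncomputable def CA (f c : ℤ[X]) (n : ℕ) (z : ℂ) : ℂ := aeval z (numA f c n) / aeval z c

theorem LocA.q_eval {q f c : ℤ[X]} {a : ℝ} {n : ℕ} (h : LocA q f c a n) (z : ℂ) :
    aeval z q = aeval z f - n * z * aeval z c := by
  rw [h.eq]
  simp

theorem LocA.num {q f c : ℤ[X]} {a : ℝ} {n : ℕ} (h : LocA q f c a n) (z : ℂ) :
    z * aeval z (numA f c n) =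
      n * z * aeval z c + 2 * (aeval z c - aeval z f) - 2 * z ^ 2 * aeval z c := by
  have h1 : X * divX (c - f) = c - f := by
    have h2 := X_mul_divX_add (c - f)
    rw [coeff_sub, h.c0, h.f0, sub_self, C_0, add_zero] at h2
    exact h2
  have h3 : z * aeval z (divX (c - f)) = aeval z c - aeval z f := by
    have := congrArg (fun p => aeval z p) h1
    simpa using this
  have h4 : aeval z (numA f c n) =
      n * aeval z c + 2 * aeval z (divX (c - f)) - 2 * z * aeval z c := by
    have e2 : aeval z (C (2 : ℤ)) = (2 : ℂ) := by rw [aeval_C]; simp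
    have en : aeval z (C (n : ℤ)) = (n : ℂ) := by rw [aeval_C]; simp
    rw [numA, map_sub, map_add, map_mul, map_mul, map_mul, map_mul, aeval_X, e2, en]
  rw [h4]
  linear_combination 2 * h3

theorem LocA.val {q f c : ℤ[X]} {a : ℝ} {n : ℕ} (h : LocA q f c a n) {z : ℂ} (hz : ‖z‖ < 1)
    (hz0 : z ≠ 0) : CA f c n z = n + 2 * (1 - aeval z f / aeval z c) / z - 2 * z := by
  have hc := h.cz z hz
  have h1 := h.num z
  rw [CA, div_eq_iff hc]
  have h2 : (n + 2 * (1 - aeval z f / aeval z c) / z - 2 * z) * aeval z c =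
      (n * z * aeval z c + 2 * (aeval z c - aeval z f) - 2 * z ^ 2 * aeval z c) / z := by
    field_simp
  rw [h2, ← h1]
  field_simp

theorem LocA.val0 {q f c : ℤ[X]} {a : ℝ} {n : ℕ} (h : LocA q f c a n) :
    CA f c n 0 = ((n - 2 * (f.coeff 1 - c.coeff 1) : ℤ) : ℂ) := by
  have e : ∀ p : ℤ[X], aeval (0 : ℂ) p = (p.coeff 0 : ℂ) := by
    intro p
    rw [← coeff_zero_eq_aeval_zero']
    rfl
  rw [CA, e, e, h.c0, numA]
  simp only [coeff_sub, coeff_add, coeff_C_mul, coeff_divX, zero_add, h.c0, mul_one]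
  have h1 : (C (2 : ℤ) * X * c).coeff 0 = 0 := by
    rw [mul_assoc, coeff_C_mul, coeff_X_mul_zero, mul_zero]
  rw [h1]
  push_cast
  ring

theorem LocA.diff {q f c : ℤ[X]} {a : ℝ} {n : ℕ} (h : LocA q f c a n) :
    DifferentiableOn ℂ (CA f c n) (ball 0 1) := by
  apply DifferentiableOn.div
  · exact (Polynomial.differentiable_aeval _).differentiableOn
  · exact (Polynomial.differentiable_aeval _).differentiableOn
  · intro z hz
    exact h.cz z (by simpa using hz)

theorem ca_alg {A u S n z c : ℂ} (hu : u ≠ 0) (hz : z ≠ 0) (hc : c ≠ 0) (hn : n ≠ 0) :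
    A * u * (S / -(n * u * c)) = A * (z * S) / -(n * z * c) := by
  field_simp

/-- The function `κ` and the formula `(1 - a²) C_A / n = (1 + a² - a (z + 1/z)) κ + a κ(0) (1/z - z)`
multiplied by `z`. -/
theorem LocA.kap {q f c : ℤ[X]} {a : ℝ} {n : ℕ} (h : LocA q f c a n) :
    ∃ (kap : ℂ → ℂ) (k0 : ℝ), Cara kap ∧ kap 0 = k0 ∧
      ∀ z : ℂ, ‖z‖ < 1 → z ≠ 0 → (z - a) * (1 - a * z) * kap z + a * k0 * (1 - z ^ 2) =
        (1 - a ^ 2) / n * (z * CA f c n z) := by
  obtain ⟨s, hs, hsp, s0, s1, s2, hneg⟩ := h.loc.sp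
  have ha := h.loc.a0
  have ha1 := h.loc.a1
  have ha0 : a ≠ 0 := ha.ne'
  have hn0 : (n : ℂ) ≠ 0 := by
    have := h.n1
    exact_mod_cast (by omega : n ≠ 0)
  set F : ℝ[X] := f.map (Int.castRingHom ℝ) with hF
  set R : ℝ[X] := s * (1 - C a * X) with hR
  have f0 : F.coeff 0 = 1 := by rw [hF, coeff_map, h.f0]; simp
  have hRX : R = s - C a * (X * s) := by rw [hR]; ring
  have r0 : R.coeff 0 = -a⁻¹ := by
    rw [hRX, coeff_sub, coeff_C_mul, coeff_X_mul_zero, mul_zero, sub_zero, s0]
  have hg0 : F.coeff 0 = -a * R.coeff 0 := by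
    rw [f0, r0]; field_simp
  obtain ⟨F1, hF1⟩ := exists_quot F R hg0
  have hsp1 := hsp.step (g := -a) (by rw [abs_neg, abs_of_pos ha]; exact ha1) hF1
  set R1 : ℝ[X] := R - C (-a) * F with hR1
  -- `q = (X - a) s`, complex values
  have eF : ∀ z : ℂ, aeval z F = aeval z f := fun z => by rw [hF, aeval_map_real]
  have eq : ∀ z : ℂ, aeval z q = (z - a) * aeval z s := by
    intro z
    rw [← aeval_map_real, hs]; simp
  have eR : ∀ z : ℂ, aeval z R = aeval z s * (1 - a * z) := by intro z; rw [hR]; simp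
  have eF1 : ∀ z : ℂ, z * aeval z F1 = aeval z f + a * aeval z R := by
    intro z
    have := congrArg (fun p => aeval z p) hF1
    simp only [map_mul, aeval_X, map_sub, aeval_C] at this
    rw [this, eF]
    simp
  have eR1 : ∀ z : ℂ, aeval z R1 = aeval z R + a * aeval z f := by
    intro z
    rw [hR1]; simp [eF]
  -- `R1 - F1 = - n (1 - a z) c`
  have key : ∀ z : ℂ, z ≠ 0 → aeval z R1 - aeval z F1 = -(n * (1 - a * z) * aeval z c) := by
    intro z hz
    have h1 : z * (aeval z R1 - aeval z F1) = z * (-(n * (1 - a * z) * aeval z c)) := by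
      rw [mul_sub, eF1, eR1, eR]
      have h2 := h.q_eval z
      rw [eq z] at h2
      linear_combination (1 - a * z) * h2
    exact mul_left_cancel₀ hz h1
  have key' : R1 - F1 = -(C (n : ℝ) * (1 - C a * X) * c.map (Int.castRingHom ℝ)) := by
    have h1 : X * (R1 - F1) = X * (-(C (n : ℝ) * (1 - C a * X) * c.map (Int.castRingHom ℝ))) := by
      rw [mul_sub, hF1, hR1, hR, hF]
      have h2 : q.map (Int.castRingHom ℝ) = f.map (Int.castRingHom ℝ) -
          C (n : ℝ) * X * c.map (Int.castRingHom ℝ) := by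
        rw [h.eq]; simp
      rw [hs] at h2
      simp only [map_neg]
      linear_combination (1 - C a * X) * h2
    exact mul_left_cancel₀ X_ne_zero h1
  have key2 : ∀ z : ℂ, aeval z R1 - aeval z F1 = -(n * (1 - a * z) * aeval z c) := by
    intro z
    have := congrArg (fun p => aeval z p) key'
    simpa [aeval_map_real] using this
  have hne : ∀ z : ℂ, ‖z‖ < 1 → aeval z R1 - aeval z F1 ≠ 0 := by
    intro z hz
    rw [key2]
    refine neg_ne_zero.mpr (mul_ne_zero (mul_ne_zero hn0 ?_) (h.cz z hz))
    intro h1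
    have h3 : ‖(a : ℂ) * z‖ = 1 := by
      rw [sub_eq_zero] at h1
      rw [← h1, norm_one]
    rw [norm_mul, Complex.norm_real, Real.norm_eq_abs, abs_of_pos ha] at h3
    nlinarith [norm_nonneg z]
  set kap : ℂ → ℂ := fun z => (aeval z R1 + aeval z F1) / (aeval z R1 - aeval z F1) with hkap
  have hcar : Cara kap := by
    refine ⟨?_, fun z hz => ?_⟩
    · apply DifferentiableOn.div
      · exact ((Polynomial.differentiable_aeval _).add
          (Polynomial.differentiable_aeval _)).differentiableOn
      · exact ((Polynomial.differentiable_aeval _).sub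
          (Polynomial.differentiable_aeval _)).differentiableOn
      · intro z hz
        exact hne z (by simpa using hz)
    · have h1 := hsp1.le z hz.le
      have h2 := hne z hz
      rw [hkap]
      simp only
      rw [Complex.div_re, ← add_div]
      apply div_nonneg _ (Complex.normSq_nonneg _)
      have h3 : ‖aeval z F1‖ ^ 2 ≤ ‖aeval z R1‖ ^ 2 := pow_le_pow_left₀ (norm_nonneg _) h1 2
      rw [Complex.sq_norm, Complex.sq_norm, Complex.normSq_apply, Complex.normSq_apply] at h3
      simp only [Complex.add_re, Complex.add_im, Complex.sub_re, Complex.sub_im]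
      nlinarith
  have hk0 : ∃ k0 : ℝ, kap 0 = k0 ∧ a * k0 = 2 * (1 - a ^ 2) / n - a := by
    have e0 : ∀ p : ℝ[X], aeval (0 : ℂ) p = (p.coeff 0 : ℂ) := by
      intro p
      rw [← coeff_zero_eq_aeval_zero']
      rfl
    have h1 : R1.coeff 0 = -a⁻¹ + a := by
      rw [hR1, coeff_sub, coeff_C_mul, r0, f0]; ring
    have h2 : R1.coeff 0 - F1.coeff 0 = -n := by
      have h3 := congrArg (fun p => p.coeff 0) key'
      simp only [coeff_sub, coeff_neg, mul_assoc, coeff_C_mul] at h3
      rw [h3]
      have h4 : ((1 - C a * X) * c.map (Int.castRingHom ℝ)).coeff 0 = 1 := by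
        rw [mul_coeff_zero, coeff_map, h.c0]
        simp
      rw [h4]; ring
    refine ⟨(2 * R1.coeff 0 + n) / (-n), ?_, ?_⟩
    · rw [hkap]
      simp only
      rw [e0, e0]
      have h3 : F1.coeff 0 = R1.coeff 0 + n := by linarith
      rw [h3]
      push_cast
      congr 1 <;> ring
    · have hn0' : (n : ℝ) ≠ 0 := by exact_mod_cast hn0
      rw [h1]
      field_simp
      ring
  obtain ⟨k0, hk0, hk0'⟩ := hk0
  refine ⟨kap, k0, hcar, hk0, fun z hz hz0 => ?_⟩
  have h1 := h.num z
  have hc := h.cz z hz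
  have h2 : z * CA f c n z = (n * z * aeval z c + 2 * (aeval z c - aeval z f) -
      2 * z ^ 2 * aeval z c) / aeval z c := by
    rw [← h1, CA, mul_div_assoc]
  rw [h2]
  have h3 : ((a : ℂ) * k0) = 2 * (1 - a ^ 2) / n - a := by
    have := congrArg (fun t : ℝ => (t : ℂ)) hk0'
    push_cast at this
    exact this
  rw [h3, hkap]
  simp only
  rw [key2]
  have h4 : 1 - (a : ℂ) * z ≠ 0 := by
    intro h1
    have h3 : ‖(a : ℂ) * z‖ = 1 := by
      rw [sub_eq_zero] at h1
      rw [← h1, norm_one]
    rw [norm_mul, Complex.norm_real, Real.norm_eq_abs, abs_of_pos ha] at h3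
    nlinarith [norm_nonneg z]
  -- `z (R1 + F1) = (z + a) R + (1 + a z) f`
  have h5 : z * (aeval z R1 + aeval z F1) = (z + a) * aeval z R + (1 + a * z) * aeval z f := by
    rw [mul_add, eF1, eR1]; ring
  have h6 : (z - a) * aeval z R = (1 - a * z) * aeval z q := by
    rw [eR, eq]; ring
  have h7 := h.q_eval z
  have h8 : (z - a) * (1 - a * z) * ((aeval z R1 + aeval z F1) /
      -(n * (1 - a * z) * aeval z c)) =
      (z - a) * (z * (aeval z R1 + aeval z F1)) / -(n * z * aeval z c) :=
    ca_alg h4 hz0 hc hn0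
  rw [h8, h5]
  have h9 : (z - a) * ((z + a) * aeval z R + (1 + a * z) * aeval z f) =
      (z + a) * ((1 - a * z) * aeval z q) + (z - a) * (1 + a * z) * aeval z f := by
    rw [← h6]; ring
  rw [h9, h7]
  field_simp
  ring

/-- **`C_A` has nonnegative real part.** -/
theorem LocA.cara {q f c : ℤ[X]} {a : ℝ} {n : ℕ} (h : LocA q f c a n) : Cara (CA f c n) := by
  have ha := h.loc.a0
  have ha1 := h.loc.a1
  have hn0 : (0 : ℝ) < n := by
    have := h.n1
    exact_mod_cast (by omega : 0 < n)
  obtain ⟨kap, k0, hk, hk0, hid⟩ := h.kap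
  -- the case `z ≠ 0`
  have main : ∀ z : ℂ, ‖z‖ < 1 → z ≠ 0 → 0 ≤ (CA f c n z).re := by
    intro z hz hz0
    -- for every `0 < r < 1`
    have hr : ∀ r ∈ Set.Ioo (0 : ℝ) 1,
        0 ≤ (((z - a) * (1 - a * z) * kap (r * z) + a * k0 * (1 - z ^ 2)) / z).re := by
      intro r hr
      set N : ℂ → ℂ := fun w => (w - a) * (1 - a * w) * kap (r * w) + a * k0 * (1 - w ^ 2) with hN
      have hNd : DifferentiableOn ℂ N (ball 0 (1 / r)) := by
        apply DifferentiableOn.add
        · apply DifferentiableOn.mul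
          · fun_prop
          · apply hk.d.comp
            · fun_prop
            · intro w hw
              rw [mem_ball_zero_iff] at hw ⊢
              rw [norm_mul, Complex.norm_real, Real.norm_eq_abs, abs_of_pos hr.1]
              have := mul_lt_mul_of_pos_left hw hr.1
              have h2 : r * (1 / r) = 1 := by field_simp [hr.1.ne']
              rwa [h2] at this
        · fun_prop
      have h1r : 1 < 1 / r := by
        rw [lt_div_iff₀ hr.1, one_mul]; exact hr.2
      have hN0 : N 0 = 0 := by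
        rw [hN]
        simp only [mul_zero, zero_sub, sub_zero, mul_one]
        rw [hk0]; ring
      set g : ℂ → ℂ := dslope N 0 with hg
      have hgd : DifferentiableOn ℂ g (ball 0 (1 / r)) :=
        (Complex.differentiableOn_dslope (isOpen_ball.mem_nhds
          (mem_ball_self (by linarith)))).mpr hNd
      have hgv : ∀ w : ℂ, w ≠ 0 → g w = N w / w := by
        intro w hw
        rw [hg, dslope_of_ne _ hw, slope_def_module, hN0, sub_zero, sub_zero, smul_eq_mul,
          inv_mul_eq_div]
      have hcb : closedBall (0 : ℂ) 1 ⊆ ball 0 (1 / r) := closedBall_subset_ball h1r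
      -- the maximum principle for `exp (- g)`
      have hmax := Complex.norm_le_of_forall_mem_frontier_norm_le (U := ball (0 : ℂ) 1)
        (f := fun w => Complex.exp (-(g w))) (C := 1) isBounded_ball ?_ ?_ (z := z) ?_
      · rw [Complex.norm_exp, Complex.neg_re] at hmax
        have h3 : -(g z).re ≤ 0 := by
          rw [← Real.exp_le_one_iff]; exact hmax
        rw [hgv z hz0] at h3
        linarith
      · refine ⟨?_, ?_⟩
        · exact ((hgd.mono (ball_subset_closedBall.trans hcb)).neg).cexp
        · rw [closure_ball (0 : ℂ) one_ne_zero]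
          exact ((hgd.mono hcb).neg).cexp.continuousOn
      · intro w hw
        rw [frontier_ball (0 : ℂ) one_ne_zero] at hw
        have hw1 : ‖w‖ = 1 := by simpa using hw
        have hw0 : w ≠ 0 := by
          intro h0
          rw [h0, norm_zero] at hw1
          exact zero_ne_one hw1
        rw [Complex.norm_exp, Complex.neg_re, Real.exp_le_one_iff, hgv w hw0, neg_nonpos]
        have hww : (starRingEnd ℂ) w * w = 1 := by
          rw [← Complex.normSq_eq_conj_mul_self, Complex.normSq_eq_norm_sq, hw1]; simp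
        have hinv : w⁻¹ = (starRingEnd ℂ) w := by
          field_simp
          rw [mul_comm]; exact hww.symm
        have h4 : N w / w = ((Complex.normSq (w - a) : ℝ) : ℂ) * kap (r * w) +
            a * k0 * ((starRingEnd ℂ) w - w) := by
          rw [hN]
          simp only
          rw [div_eq_mul_inv, hinv, Complex.normSq_eq_conj_mul_self]
          simp only [map_sub, Complex.conj_ofReal]
          have h5 : (1 - (a : ℂ) * w) * (starRingEnd ℂ) w = (starRingEnd ℂ) w - a := by
            linear_combination (-(a : ℂ)) * hww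
          have h6 : (1 - w ^ 2) * (starRingEnd ℂ) w = (starRingEnd ℂ) w - w := by
            linear_combination (-w) * hww
          linear_combination ((w - a) * kap (r * w)) * h5 + (a * k0 : ℂ) * h6
        rw [h4, Complex.add_re, Complex.re_ofReal_mul]
        have h5 : ((a : ℂ) * k0 * ((starRingEnd ℂ) w - w)).re = 0 := by
          have : (a : ℂ) * k0 = ((a * k0 : ℝ) : ℂ) := by push_cast; ring
          rw [this, Complex.re_ofReal_mul]
          simp
        rw [h5, add_zero]
        apply mul_nonneg (Complex.normSq_nonneg _)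
        apply hk.re
        rw [norm_mul, Complex.norm_real, Real.norm_eq_abs, abs_of_pos hr.1, hw1, mul_one]
        exact hr.2
      · rw [closure_ball (0 : ℂ) one_ne_zero]
        simpa using hz.le
    -- `r → 1`
    have hlim : Filter.Tendsto (fun r : ℝ =>
        (((z - a) * (1 - a * z) * kap (r * z) + a * k0 * (1 - z ^ 2)) / z).re)
        (nhdsWithin 1 (Set.Iio 1))
        (nhds (((z - a) * (1 - a * z) * kap z + a * k0 * (1 - z ^ 2)) / z).re) := by
      have hcont : ContinuousAt (fun r : ℝ =>
          (((z - a) * (1 - a * z) * kap (r * z) + a * k0 * (1 - z ^ 2)) / z).re) 1 := by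
        apply Complex.continuous_re.continuousAt.comp
        apply ContinuousAt.div_const
        apply ContinuousAt.add_const
        apply ContinuousAt.mul continuousAt_const
        have h1 : ContinuousAt kap ((1 : ℝ) * z) := by
          have : ((1 : ℝ) : ℂ) * z = z := by simp
          rw [this]
          exact (hk.d.differentiableAt (isOpen_ball.mem_nhds (by simpa using hz))).continuousAt
        exact ContinuousAt.comp (f := fun r : ℝ => (r : ℂ) * z) h1 (by fun_prop)
      have h2 := hcont.tendsto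
      simp only [Complex.ofReal_one, one_mul] at h2
      exact h2.mono_left nhdsWithin_le_nhds
    have h3 : 0 ≤ (((z - a) * (1 - a * z) * kap z + a * k0 * (1 - z ^ 2)) / z).re := by
      apply ge_of_tendsto hlim
      have : Set.Ioo (0 : ℝ) 1 ∈ nhdsWithin (1 : ℝ) (Set.Iio 1) :=
        Ioo_mem_nhdsLT zero_lt_one
      filter_upwards [this] with r hr'
      exact hr r hr'
    rw [hid z hz hz0] at h3
    have h4 : (1 - (a : ℂ) ^ 2) / n * (z * CA f c n z) / z =
        (((1 - a ^ 2) / n : ℝ) : ℂ) * CA f c n z := by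
      push_cast
      field_simp
    rw [h4, Complex.re_ofReal_mul] at h3
    have h5 : 0 < (1 - a ^ 2) / n := div_pos (by nlinarith) hn0
    exact nonneg_of_mul_nonneg_right h3 h5
  refine ⟨h.diff, fun z hz => ?_⟩
  rcases eq_or_ne z 0 with hz0 | hz0
  · subst hz0
    have hc : ContinuousAt (fun t : ℝ => (CA f c n (t : ℂ)).re) 0 := by
      apply Complex.continuous_re.continuousAt.comp
      have h1 : ContinuousAt (CA f c n) ((0 : ℝ) : ℂ) := by
        rw [Complex.ofReal_zero]
        exact (h.diff.differentiableAt (isOpen_ball.mem_nhds (by simp))).continuousAt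
      exact ContinuousAt.comp (f := fun t : ℝ => (t : ℂ)) h1 (by fun_prop)
    have h2 := hc.tendsto
    simp only [Complex.ofReal_zero] at h2
    apply ge_of_tendsto (h2.mono_left (nhdsWithin_le_nhds (s := Set.Ioi 0)))
    have : Set.Ioo (0 : ℝ) 1 ∈ nhdsWithin (0 : ℝ) (Set.Ioi 0) := Ioo_mem_nhdsGT zero_lt_one
    filter_upwards [this] with t ht
    apply main
    · rw [Complex.norm_real, Real.norm_eq_abs, abs_of_pos ht.1]; exact ht.2
    · exact_mod_cast ht.1.ne'
  · exact main z hz hz0

end Pool.Agent.B5.Nr.Sch
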