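import Pool.Agent.Lib.MP_b5021c_nt.W.H80.Win

/-!
# MP_b5021c_nt, all `θ`: row C-e (a good load of delay two, `K` even)

`θ < μ_j`, the zero of `q + z² f` at `b ≤ 1 / j`: then `u = 1` and `n ≤ j`, for every `j ≥ 2`.
-/

namespace Pool.Agent.B5.Nr.Sch

open Polynomial

/-- `Loc.steps` with a general bound `Q(p) + κ f(p) ≤ 0`. -/
theorem Loc.stepsK {Q f : ℤ[X]} {a : ℝ} (h : Loc Q f a) (hu : f.coeff 0 = 1) {p κ : ℝ}
    (hκ : 0 < κ) (hp0 : 0 < p) (hp1 : p < 1) (hB : (aeval p Q : ℝ) + κ * aeval p f ≤ 0)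
    {n g2 : ℤ} (hn : n = f.coeff 1 - Q.coeff 1) (hg2 : g2 = f.coeff 2 - Q.coeff 2 - n * Q.coeff 1)
    {Xi g1 : ℝ} (hXi : Xi = a⁻¹ - a) (hg1 : g1 = 1 - n / Xi) :
    ∃ r r1 : ℝ, |r| ≤ 1 ∧ -(p - a) / (κ * (1 - a * p)) ≤ r ∧ r1 = (r + a) / (p * (1 + a * r)) ∧
      |r1| ≤ 1 ∧ |g1| ≤ 1 ∧ |r1 - g1| ≤ p * (1 - g1 * r1) ∧
      (|g1| < 1 → ∃ r2 g : ℝ, r2 = (r1 - g1) / (p * (1 - g1 * r1)) ∧ |r2| ≤ 1 ∧ |g| ≤ 1 ∧
        (g2 : ℝ) = Xi * (n - (1 - g1 ^ 2) * (g - a)) ∧ |r2 - g| ≤ p * (1 - g * r2)) := by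
  obtain ⟨s, hs, hsp, s0, s1, s2, hneg⟩ := h.sp
  have ha := h.a0
  have ha1 := h.a1
  have ha0 : a ≠ 0 := ha.ne'
  set F : ℝ[X] := f.map (Int.castRingHom ℝ) with hF
  set R : ℝ[X] := s * (1 - C a * X) with hR
  have hXi0 : 0 < Xi := by
    rw [hXi]
    have : 1 < a⁻¹ := (one_lt_inv₀ ha).mpr ha1
    linarith
  have f0 : F.coeff 0 = 1 := by rw [hF, coeff_map, hu]; simp
  have f1 : F.coeff 1 = f.coeff 1 := by rw [hF, coeff_map]; rfl
  have f2 : F.coeff 2 = f.coeff 2 := by rw [hF, coeff_map]; rfl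
  have hRX : R = s - C a * (X * s) := by rw [hR]; ring
  have r0 : R.coeff 0 = -a⁻¹ := by
    rw [hRX, coeff_sub, coeff_C_mul, coeff_X_mul_zero, mul_zero, sub_zero, s0]
  have r1c : R.coeff 1 = s.coeff 1 - a * s.coeff 0 := by
    rw [hRX, coeff_sub, coeff_C_mul, coeff_X_mul]
  have r2c : R.coeff 2 = s.coeff 2 - a * s.coeff 1 := by
    rw [hRX, coeff_sub, coeff_C_mul, coeff_X_mul]
  -- step 0
  have hg0 : F.coeff 0 = -a * R.coeff 0 := by
    rw [f0, r0]; field_simp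
  obtain ⟨F1, hF1⟩ := exists_quot F R hg0
  have hsp1 := hsp.step (g := -a) (by rw [abs_neg, abs_of_pos ha]; exact ha1) hF1
  set R1 : ℝ[X] := R - C (-a) * F with hR1
  have F10 : F1.coeff 0 = n - Xi := by
    have := congrArg (fun q => q.coeff 1) hF1
    simp only [coeff_X_mul, coeff_sub, coeff_C_mul] at this
    rw [this, f1, r1c, s1, s0, hn, hXi]
    push_cast
    field_simp
    ring
  have F11 : F1.coeff 1 = g2 + (n - Xi) * Q.coeff 1 - a⁻¹ ^ 2 + 1 := by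
    have := congrArg (fun q => q.coeff 2) hF1
    simp only [coeff_X_mul, coeff_sub, coeff_C_mul] at this
    rw [this, f2, r2c, s1, s2, hg2, hXi]
    push_cast
    field_simp
    ring
  have R10 : R1.coeff 0 = -Xi := by
    rw [hR1, coeff_sub, coeff_C_mul, r0, f0, hXi]; ring
  have R11 : R1.coeff 1 = -a⁻¹ ^ 2 - Xi * Q.coeff 1 + 1 + a * n := by
    rw [hR1, coeff_sub, coeff_C_mul, r1c, s1, s0, f1, hXi, hn]
    push_cast
    field_simp
    ring
  have hx : |p| ≤ 1 := by rw [abs_of_pos hp0]; exact hp1.le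
  have hRp := (hsp.ev hx).1
  set r := F.eval p / R.eval p with hr
  have hr1 := hsp.ratio hx
  have hrb : -(p - a) / (κ * (1 - a * p)) ≤ r := by
    have e1 : R.eval p = s.eval p * (1 - a * p) := by rw [hR, eval_mul]; simp
    have e2 : (aeval p Q : ℝ) = (p - a) * s.eval p := by
      have h1 : (aeval p Q : ℝ) = (Q.map (Int.castRingHom ℝ)).eval p := by
        rw [eval_map]; rfl
      rw [h1, hs, eval_mul]; simp
    have e3 : (aeval p f : ℝ) = F.eval p := by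
      rw [hF, eval_map]; rfl
    have hsn := hneg p hp0.le hp1.le
    have h1ap : 0 < 1 - a * p := by nlinarith
    have hRn : R.eval p < 0 := by rw [e1]; exact mul_neg_of_neg_of_pos hsn h1ap
    rw [e2, e3] at hB
    rw [hr, div_le_iff₀ (mul_pos hκ h1ap)]
    have h2 : F.eval p / R.eval p * (κ * (1 - a * p)) * R.eval p =
        F.eval p * κ * (1 - a * p) := by
      field_simp
    by_contra hcon
    push Not at hcon
    have h3 := mul_lt_mul_of_neg_right hcon hRn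
    rw [h2, e1] at h3
    nlinarith [mul_nonneg_of_nonpos_of_nonpos hB (by linarith : -(1 - a * p) ≤ 0)]
  have h1ar : 0 < 1 + a * r := by
    have := abs_le.mp hr1
    nlinarith
  have hR1p := (hsp1.ev hx).1
  have hval1 := SP.step_val hF1 hRp hp0.ne' (by rw [← hr]; intro h; nlinarith)
  have hratio1 := hsp1.ratio hx
  have hr1e : F1.eval p / R1.eval p = (r + a) / (p * (1 + a * r)) := by
    rw [hR1, hval1, ← hr]
    congr 1 <;> ring
  have hg1e : F1.coeff 0 = g1 * R1.coeff 0 := by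
    rw [F10, R10, hg1]
    field_simp
    ring
  have hg1le : |g1| ≤ 1 := by
    obtain ⟨h1, h2⟩ := hsp1.coeff_le
    rw [hg1e, abs_mul] at h2
    have := abs_pos.mpr h1
    by_contra hcon
    push Not at hcon
    nlinarith
  have hpick1 := hsp1.pick hg1e hp0.le hp1.le
  rw [hr1e] at hratio1 hpick1
  refine ⟨r, (r + a) / (p * (1 + a * r)), hr1, hrb, rfl, hratio1, hg1le, hpick1, fun hg1lt => ?_⟩
  obtain ⟨F2, hF2⟩ := exists_quot F1 R1 hg1e
  have hsp2 := hsp1.step hg1lt hF2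
  set R2 : ℝ[X] := R1 - C g1 * F1 with hR2
  have F20 : F2.coeff 0 = g2 - a⁻¹ * n + a * n * (n / Xi - 1) := by
    have := congrArg (fun q => q.coeff 1) hF2
    simp only [coeff_X_mul, coeff_sub, coeff_C_mul] at this
    rw [this, F11, R11, hg1]
    have h1 : a⁻¹ ^ 2 - 1 = a⁻¹ * Xi := by rw [hXi]; field_simp
    have h2 : a⁻¹ ^ 2 = a⁻¹ * Xi + 1 := by linarith
    rw [h2]
    field_simp
    ring
  have R20 : R2.coeff 0 = -Xi * (1 - g1 ^ 2) := by
    rw [hR2, coeff_sub, coeff_C_mul, R10, hg1e, R10]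
    ring
  have hpos : 0 < 1 - g1 ^ 2 := by
    have := abs_lt.mp hg1lt
    nlinarith
  have hR20 : R2.coeff 0 ≠ 0 := by
    rw [R20]
    exact mul_ne_zero (neg_ne_zero.mpr hXi0.ne') hpos.ne'
  set g := F2.coeff 0 / R2.coeff 0 with hg
  have hge : F2.coeff 0 = g * R2.coeff 0 := by rw [hg, div_mul_cancel₀ _ hR20]
  have hgle : |g| ≤ 1 := by
    obtain ⟨h1, h2⟩ := hsp2.coeff_le
    rw [hg, abs_div, div_le_one (abs_pos.mpr h1)]
    exact h2
  have hval2 := SP.step_val hF2 hR1p hp0.ne' (by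
    rw [hr1e]
    have h1 : |g1 * ((r + a) / (p * (1 + a * r)))| < 1 := by
      rw [abs_mul]
      calc |g1| * |(r + a) / (p * (1 + a * r))| ≤ |g1| * 1 :=
            mul_le_mul_of_nonneg_left hratio1 (abs_nonneg g1)
        _ < 1 := by rw [mul_one]; exact hg1lt
    have := (abs_lt.mp h1).2
    intro h2
    linarith)
  rw [hr1e] at hval2
  have hratio2 := hsp2.ratio hx
  have hpick2 := hsp2.pick hge hp0.le hp1.le
  rw [hval2] at hratio2 hpick2
  refine ⟨_, g, rfl, hratio2, hgle, ?_, hpick2⟩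
  rw [F20, R20] at hge
  have h3 : g * (-Xi * (1 - g1 ^ 2)) = -(Xi * ((1 - g1 ^ 2) * g)) := by ring
  rw [h3] at hge
  have h4 : (g2 : ℝ) = a⁻¹ * n - a * n * (n / Xi - 1) - Xi * ((1 - g1 ^ 2) * g) := by linarith
  rw [h4]
  have h5 : Xi * (1 - g1 ^ 2) = 2 * n - n ^ 2 / Xi := by
    rw [hg1]; field_simp; ring
  have h6 : Xi * (n - (1 - g1 ^ 2) * (g - a)) =
      Xi * n + a * (Xi * (1 - g1 ^ 2)) - Xi * ((1 - g1 ^ 2) * g) := by ring
  rw [h6, h5]
  have h7 : Xi * n = a⁻¹ * n - a * n := by rw [hXi]; ring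
  rw [h7]
  ring

/-! ## The numbers -/

/-- The first Schur number is almost nonnegative. -/
theorem ce_r1 {J x r r1 : ℝ} (hJ : 2 ≤ J) (hxJ : J ≤ x)
    (hr : -(J ^ 2 * (x - J)) ≤ r * (J * x - 1)) (hxr : 0 < x + r)
    (hr1 : r1 * (x + r) = J * (x * r + 1)) :
    J * (J * x - 1 - J ^ 2 + J ^ 2 * (1 + J * x - x ^ 2)) ≤
      r1 * (J ^ 3 + J - x - J * (1 + J * x - x ^ 2)) := by
  have h1 : J * (x * r + 1) * (J ^ 3 + J - x - J * (1 + J * x - x ^ 2)) -
      J * (J * x - 1 - J ^ 2 + J ^ 2 * (1 + J * x - x ^ 2)) * (x + r) =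
      J * (x ^ 2 - 1) * (r * (J * x - 1) + J ^ 2 * (x - J)) := by ring
  have h2 : 0 ≤ J * (x ^ 2 - 1) * (r * (J * x - 1) + J ^ 2 * (x - J)) := by
    apply mul_nonneg (mul_nonneg (by linarith) (by nlinarith)) (by linarith)
  rw [← hr1] at h1
  have h3 : 0 ≤ (x + r) * (r1 * (J ^ 3 + J - x - J * (1 + J * x - x ^ 2)) -
      J * (J * x - 1 - J ^ 2 + J ^ 2 * (1 + J * x - x ^ 2))) := by
    have : (x + r) * (r1 * (J ^ 3 + J - x - J * (1 + J * x - x ^ 2)) -
      J * (J * x - 1 - J ^ 2 + J ^ 2 * (1 + J * x - x ^ 2))) =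
      r1 * (x + r) * (J ^ 3 + J - x - J * (1 + J * x - x ^ 2)) -
      J * (J * x - 1 - J ^ 2 + J ^ 2 * (1 + J * x - x ^ 2)) * (x + r) := by ring
    rw [this, h1]
    exact h2
  have h5 : 0 ≤ r1 * (J ^ 3 + J - x - J * (1 + J * x - x ^ 2)) -
      J * (J * x - 1 - J ^ 2 + J ^ 2 * (1 + J * x - x ^ 2)) :=
    nonneg_of_mul_nonneg_right h3 hxr
  linarith

/-- Basic bounds. -/
theorem ce_basic {J x w : ℝ} (hJ : 2 ≤ J) (hxJ : J ≤ x) (hw : w = 1 + J * x - x ^ 2)
    (hw0 : 0 < w) : w ≤ 1 ∧ J * (x - J) < 1 ∧ 0 < J * x - 1 ∧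
      5 / 2 * (J - 2) + 11 / 2 ≤ J ^ 3 + J - x - J * w := by
  have h1 : w ≤ 1 := by rw [hw]; nlinarith
  have h2 : J * (x - J) < 1 := by nlinarith
  have h3 : 0 < J * x - 1 := by nlinarith
  refine ⟨h1, h2, h3, ?_⟩
  have h4 : J * w ≤ J := by nlinarith
  have h5 : x - J ≤ 1 / 2 := by nlinarith
  nlinarith [mul_nonneg (by linarith : (0:ℝ) ≤ J - 2) (by linarith : (0 : ℝ) ≤ J - 2),
    mul_nonneg (mul_nonneg (by linarith : (0:ℝ) ≤ J - 2) (by linarith : (0 : ℝ) ≤ J - 2))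
      (by linarith : (0 : ℝ) ≤ J - 2)]


/-- `n ≥ j + 1`: the first Schur number is `≤ 0` and `w` is tiny. -/
theorem ce_w {J x w D r1 : ℝ} (hJ : 2 ≤ J) (hxJ : J ≤ x) (hw : w = 1 + J * x - x ^ 2)
    (hw0 : 0 < w) (hD : D = J ^ 3 + J - x - J * w)
    (h1 : J * (J * x - 1 - J ^ 2 + J ^ 2 * w) ≤ r1 * D) (h2 : r1 * ((J - 1) * x - w) ≤ -w) :
    r1 < 0 ∧ (J ^ 2 * x - J) * w ≤ x - J ∧ x * (D * (-r1)) ≤ J * (x - J) := by
  obtain ⟨b1, b2, b3, b4⟩ := ce_basic hJ hxJ hw hw0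
  have hx0 : 0 < x := by linarith
  have h3 : 0 < (J - 1) * x - w := by nlinarith
  have h4 : r1 < 0 := by
    by_contra hcon
    push Not at hcon
    have := mul_nonneg hcon h3.le
    linarith
  have hD0 : 0 < D := by rw [hD]; linarith
  have h5 : x * (J * (J * x - 1 - J ^ 2 + J ^ 2 * w)) = J * ((J ^ 2 * x - J) * w - (x - J)) := by
    rw [hw]; ring
  have h6 : x * (J * (J * x - 1 - J ^ 2 + J ^ 2 * w)) ≤ x * (r1 * D) :=
    mul_le_mul_of_nonneg_left h1 hx0.le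
  have h7 : r1 * D < 0 := mul_neg_of_neg_of_pos h4 hD0
  have h8 : x * (r1 * D) < 0 := mul_neg_of_pos_of_neg hx0 h7
  rw [h5] at h6
  have h9 : (J ^ 2 * x - J) * w - (x - J) < 0 := by
    by_contra hcon
    push Not at hcon
    have : 0 ≤ J * ((J ^ 2 * x - J) * w - (x - J)) := mul_nonneg (by linarith) hcon
    linarith
  refine ⟨h4, by linarith, ?_⟩
  have h10 : 0 ≤ J * ((J ^ 2 * x - J) * w) := by
    refine mul_nonneg (by linarith) (mul_nonneg ?_ hw0.le)
    have : J ^ 2 * x - J = J * (J * x - 1) := by ring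
    rw [this]
    exact mul_nonneg (by linarith) b3.le
  have h11 : x * (D * (-r1)) = -(x * (r1 * D)) := by ring
  have h12 : J * ((J ^ 2 * x - J) * w - (x - J)) = J * ((J ^ 2 * x - J) * w) - J * (x - J) := by
    ring
  rw [h11]
  linarith

/-- The number `E`. -/
theorem ce_E {J x w : ℝ} (hJ : 2 ≤ J) (hxJ : J ≤ x) (hw : w = 1 + J * x - x ^ 2)
    (hw0 : 0 < w) (h : (J ^ 2 * x - J) * w ≤ x - J) :
    0 < (J - 1) - w * ((J + 1) * x - 2) ∧ 2 * w < (J - 1) * x := by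
  obtain ⟨b1, b2, b3, b4⟩ := ce_basic hJ hxJ hw hw0
  have hx0 : 0 < x := by linarith
  have h1 : w * (J * (J * x - 1)) ≤ x - J := by
    calc w * (J * (J * x - 1)) = (J ^ 2 * x - J) * w := by ring
      _ ≤ _ := h
  have h2 : w * (J * (J * (J * x - 1))) < 1 := by
    have : w * (J * (J * (J * x - 1))) = J * (w * (J * (J * x - 1))) := by ring
    rw [this]
    calc J * (w * (J * (J * x - 1))) ≤ J * (x - J) := mul_le_mul_of_nonneg_left h1 (by linarith)
      _ < 1 := b2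
  have h3 : (J + 1) * x - 2 ≤ J * (J * (J * x - 1)) := by nlinarith [mul_pos (by linarith : 0 < J) hx0]
  have h4 : w * ((J + 1) * x - 2) ≤ w * (J * (J * (J * x - 1))) :=
    mul_le_mul_of_nonneg_left h3 hw0.le
  constructor
  · linarith
  · nlinarith


/-- The window for the second coefficient. -/
theorem ce_g2 {J x w D T Xi a r1 r2 g g2 : ℝ} (hJ : 2 ≤ J) (hxJ : J ≤ x)
    (hw : w = 1 + J * x - x ^ 2) (hw0 : 0 < w) (hD : D = J ^ 3 + J - x - J * w)
    (ha : a = x⁻¹) (hXi : Xi = x - a) (hT : T = (J + 1) / Xi - 1)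
    (hE : 0 < (J - 1) - w * ((J + 1) * x - 2)) (hw2 : 2 * w < (J - 1) * x)
    (hr1 : r1 < 0) (hr1D : x * (D * (-r1)) ≤ J * (x - J))
    (hr2 : r2 = (r1 + T) / (1 / J * (1 + T * r1))) (hr2l : |r2| ≤ 1) (hg : |g| ≤ 1)
    (hg2 : g2 = Xi * ((J + 1) - (1 - T ^ 2) * (g - a))) (hpick : r2 - g ≤ 1 / J * (1 - g * r2)) :
    J ^ 2 + 1 < g2 ∧ g2 < J ^ 2 + 2 := by
  have h22 : 22 ≤ J * (5 * J + 1) := by nlinarith
  have h3x : J * (J + 1) ≤ x * (x + 1) := by nlinarith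
  have h2x : 0 ≤ (J + 1) * x - 2 := by nlinarith
  have hx1 : 0 < x ^ 2 - 1 := by nlinarith
  obtain ⟨b1, b2, b3, b4⟩ := ce_basic hJ hxJ hw hw0
  rw [← hD] at b4
  have hx0 : 0 < x := by linarith
  have hJ0 : 0 < J := by linarith
  have hgl := abs_le.mp hg
  have hr2l' := abs_le.mp hr2l
  have hXi2 : Xi = (x ^ 2 - 1) / x := by rw [hXi, ha]; field_simp
  have hXi0 : 0 < Xi := by rw [hXi2]; exact div_pos hx1 hx0
  have hTx : T * (x ^ 2 - 1) = w + x := by
    rw [hT, hXi2, hw]; field_simp; ring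
  have hT1 : T < 1 := by
    by_contra hcon
    have h1 : 1 * (x ^ 2 - 1) ≤ T * (x ^ 2 - 1) :=
      mul_le_mul_of_nonneg_right (by linarith) hx1.le
    have h2 : x ^ 2 - 1 = J * x - w := by rw [hw]; ring
    linarith
  have hT0 : 0 < T := by
    by_contra hcon
    have h1 : T * (x ^ 2 - 1) ≤ 0 := mul_nonpos_of_nonpos_of_nonneg (by linarith) hx1.le
    linarith
  have hJT : 1 ≤ J * T := by
    by_contra hcon
    push Not at hcon
    have h1 : J * T * (x ^ 2 - 1) = J * (w + x) := by rw [mul_assoc, hTx]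
    have h2 : J * T * (x ^ 2 - 1) < 1 * (x ^ 2 - 1) := mul_lt_mul_of_pos_right hcon hx1
    have h3 : x ^ 2 - 1 = J * x - w := by rw [hw]; ring
    have h4 : 0 < J * w := mul_pos hJ0 hw0
    linarith
  -- `B`
  obtain ⟨B, hB⟩ : ∃ B : ℝ, B = Xi * (1 - T ^ 2) := ⟨_, rfl⟩
  have hB0 : 0 < B := by
    have h1 : 1 - T ^ 2 = (1 - T) * (1 + T) := by ring
    rw [hB, h1]; exact mul_pos hXi0 (mul_pos (by linarith) (by linarith))
  have hXiJ : Xi ≤ J := by
    rw [hXi2, div_le_iff₀ hx0]; linarith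
  have hXT : Xi * (1 + T) = J + 1 := by rw [hT]; field_simp; ring
  have hBT : B = (J + 1) * (1 - T) := by rw [hB, ← hXT]; ring
  have hBle : B * J ≤ (J + 1) * (J - 1) := by
    have h1 : B = (J + 1) * (2 - (J + 1) / Xi) := by
      rw [hBT, hT]; ring
    have h2 : (J + 1) / J ≤ (J + 1) / Xi :=
      div_le_div_of_nonneg_left (by linarith) hXi0 hXiJ
    have h3 : B ≤ (J + 1) * (2 - (J + 1) / J) := by
      rw [h1]; exact mul_le_mul_of_nonneg_left (by linarith) (by linarith)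
    calc B * J ≤ (J + 1) * (2 - (J + 1) / J) * J := mul_le_mul_of_nonneg_right h3 hJ0.le
      _ = (J + 1) * (J - 1) := by field_simp; ring
  -- `L`
  have hfor : g2 = J ^ 2 + 1 + ((J - 1) - w * ((J + 1) * x - 2)) / (x * (x + 1)) + B * (1 - g) := by
    have h1 : g2 = Xi * (J + 1) - B * (1 - a) + B * (1 - g) := by rw [hg2, hB]; ring
    have h2 : Xi * (J + 1) - B * (1 - a) =
        J ^ 2 + 1 + ((J - 1) - w * ((J + 1) * x - 2)) / (x * (x + 1)) := by
      have h3 : B = (J + 1) * (2 * (x ^ 2 - 1) - (J + 1) * x) / (x ^ 2 - 1) := by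
        rw [hBT, hT, hXi2]; field_simp; ring
      have h4 : x ^ 2 - 1 = (x - 1) * (x + 1) := by ring
      have h5 : 0 < x - 1 := by linarith
      have h6 : 0 < x + 1 := by linarith
      rw [h3, ha, hXi2, hw, h4]
      field_simp
      ring
    rw [h1, h2]
  have hxx : 0 < x * (x + 1) := by positivity
  constructor
  · have h1 : 0 < ((J - 1) - w * ((J + 1) * x - 2)) / (x * (x + 1)) := div_pos hE hxx
    have h2 : 0 ≤ B * (1 - g) := mul_nonneg hB0.le (by linarith)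
    linarith
  · -- upper bound
    have h1 : ((J - 1) - w * ((J + 1) * x - 2)) / (x * (x + 1)) ≤ (J - 1) / (J * (J + 1)) := by
      have h2 : 0 ≤ w * ((J + 1) * x - 2) := mul_nonneg hw0.le h2x
      exact div_le_div₀ (by linarith) (by linarith) (by positivity) h3x
    -- `σ`
    obtain ⟨σ, hσ⟩ : ∃ σ : ℝ, σ = -r1 := ⟨_, rfl⟩
    have hσ0 : 0 < σ := by rw [hσ]; linarith
    have hD0 : 0 < D := by linarith
    have hσJ : J * (D * σ) < 1 := by
      have h2 : x * (D * σ) ≤ J * (x - J) := by rw [hσ]; exact hr1D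
      have h3 : J * (D * σ) ≤ x * (D * σ) :=
        mul_le_mul_of_nonneg_right hxJ (mul_pos hD0 hσ0).le
      linarith
    have hσD : σ * (J * (5 * J + 1)) < 2 := by
      have h2 : (5 * J + 1) / 2 ≤ D := by linarith
      have h3 : J * σ * ((5 * J + 1) / 2) ≤ J * σ * D :=
        mul_le_mul_of_nonneg_left h2 (by positivity)
      linarith
    have hσ1 : 0 < 1 - σ := by
      by_contra hcon
      have h2 : 1 * (J * (5 * J + 1)) ≤ σ * (J * (5 * J + 1)) :=
        mul_le_mul_of_nonneg_right (by linarith) (by linarith)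
      linarith
    have hTσle : T * σ ≤ σ := mul_le_of_le_one_left hσ0.le hT1.le
    have hTσ : 0 < 1 - T * σ := by linarith
    -- `r2`
    have hr2e : r2 * (1 - T * σ) = J * (T - σ) := by
      rw [hr2]
      have h2 : (1 : ℝ) + T * r1 = 1 - T * σ := by rw [hσ]; ring
      have h3 : r1 + T = T - σ := by rw [hσ]; ring
      rw [h2, h3]
      field_simp
    have h2 : (1 - r2) * (1 - T * σ) ≤ (J - 1 / J) * σ := by
      have h3 : (1 - r2) * (1 - T * σ) = (1 - J * T) + (J - T) * σ := by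
        have : (1 - r2) * (1 - T * σ) = (1 - T * σ) - r2 * (1 - T * σ) := by ring
        rw [this, hr2e]; ring
      have h4 : 1 / J ≤ T := by
        rw [div_le_iff₀ hJ0]; linarith
      have h5 : (J - T) * σ ≤ (J - 1 / J) * σ := mul_le_mul_of_nonneg_right (by linarith) hσ0.le
      linarith
    have h3 : (1 - r2) * (1 - σ) ≤ (J - 1 / J) * σ := by
      have h4 : 1 - σ ≤ 1 - T * σ := by linarith
      exact (mul_le_mul_of_nonneg_left h4 (by linarith)).trans h2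
    have h4 : (1 - g) * (J - 1) ≤ (J + 1) * (1 - r2) := by
      have h5 : J * (r2 - g) ≤ 1 - g * r2 := by
        have := mul_le_mul_of_nonneg_left hpick hJ0.le
        have h6 : J * (1 / J * (1 - g * r2)) = 1 - g * r2 := by field_simp
        rwa [h6] at this
      have h6 : (1 - g) * (J - r2) ≤ (J + 1) * (1 - r2) := by linarith
      have h7 : (1 - g) * (J - 1) ≤ (1 - g) * (J - r2) :=
        mul_le_mul_of_nonneg_left (by linarith) (by linarith)
      linarith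
    -- `B (1 - g) (1 - σ) J ^ 2 ≤ (J + 1) ^ 2 (J ^ 2 - 1) σ`
    have h5 : B * (1 - g) * (1 - σ) * J ^ 2 ≤ (J + 1) ^ 2 * (J ^ 2 - 1) * σ := by
      have h6 : (1 - g) * (J - 1) * (1 - σ) ≤ (J + 1) * ((J - 1 / J) * σ) := by
        calc (1 - g) * (J - 1) * (1 - σ) ≤ (J + 1) * (1 - r2) * (1 - σ) :=
              mul_le_mul_of_nonneg_right h4 hσ1.le
          _ = (J + 1) * ((1 - r2) * (1 - σ)) := by ring
          _ ≤ _ := mul_le_mul_of_nonneg_left h3 (by linarith)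
      have h7 : B * (1 - g) * (1 - σ) * J ^ 2 = (B * J) * ((1 - g) * (1 - σ)) * J := by ring
      have h8 : (B * J) * ((1 - g) * (1 - σ)) * J ≤
          ((J + 1) * (J - 1)) * ((1 - g) * (1 - σ)) * J :=
        mul_le_mul_of_nonneg_right (mul_le_mul_of_nonneg_right hBle
          (mul_nonneg (by linarith) hσ1.le)) hJ0.le
      have h9 : ((J + 1) * (J - 1)) * ((1 - g) * (1 - σ)) * J =
          (J + 1) * J * ((1 - g) * (J - 1) * (1 - σ)) := by ring
      have h10 : (J + 1) * J * ((1 - g) * (J - 1) * (1 - σ)) ≤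
          (J + 1) * J * ((J + 1) * ((J - 1 / J) * σ)) :=
        mul_le_mul_of_nonneg_left h6 (by positivity)
      have h11 : (J + 1) * J * ((J + 1) * ((J - 1 / J) * σ)) = (J + 1) ^ 2 * (J ^ 2 - 1) * σ := by
        field_simp
      linarith
    have h6 : B * (1 - g) < (J ^ 2 + 1) / (J * (J + 1)) := by
      rw [lt_div_iff₀ (by positivity)]
      by_contra hcon
      push Not at hcon
      have h7 : (J ^ 2 + 1) * ((1 - σ) * J) ≤ B * (1 - g) * (J * (J + 1)) * ((1 - σ) * J) :=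
        mul_le_mul_of_nonneg_right hcon (by positivity)
      have h8 : B * (1 - g) * (J * (J + 1)) * ((1 - σ) * J) =
          B * (1 - g) * (1 - σ) * J ^ 2 * (J + 1) := by ring
      have h9 : B * (1 - g) * (1 - σ) * J ^ 2 * (J + 1) ≤
          (J + 1) ^ 2 * (J ^ 2 - 1) * σ * (J + 1) := mul_le_mul_of_nonneg_right h5 (by linarith)
      have h10 : (J ^ 2 + 1) * J ≤ σ * ((J + 1) ^ 3 * (J ^ 2 - 1) + (J ^ 2 + 1) * J) := by
        rw [h8] at h7
        linarith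
      have h11 : 0 ≤ (J + 1) ^ 3 * (J ^ 2 - 1) + (J ^ 2 + 1) * J := by
        have : 0 ≤ J ^ 2 - 1 := by nlinarith
        positivity
      have h12 : (J ^ 2 + 1) * J * (J * (5 * J + 1)) ≤
          2 * ((J + 1) ^ 3 * (J ^ 2 - 1) + (J ^ 2 + 1) * J) := by
        calc (J ^ 2 + 1) * J * (J * (5 * J + 1)) ≤
            σ * ((J + 1) ^ 3 * (J ^ 2 - 1) + (J ^ 2 + 1) * J) * (J * (5 * J + 1)) :=
              mul_le_mul_of_nonneg_right h10 (by positivity)
          _ = (σ * (J * (5 * J + 1))) * ((J + 1) ^ 3 * (J ^ 2 - 1) + (J ^ 2 + 1) * J) := by ring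
          _ ≤ 2 * _ := mul_le_mul_of_nonneg_right hσD.le h11
      obtain ⟨y, hy⟩ : ∃ y : ℝ, y = J - 2 := ⟨_, rfl⟩
      have hy0 : 0 ≤ y := by rw [hy]; linarith
      have hJy : J = y + 2 := by rw [hy]; ring
      have h14 : (J ^ 2 + 1) * J * (J * (5 * J + 1)) -
          2 * ((J + 1) ^ 3 * (J ^ 2 - 1) + (J ^ 2 + 1) * J) =
          3 * y ^ 5 + 25 * y ^ 4 + 79 * y ^ 3 + 119 * y ^ 2 + 92 * y + 38 := by
        rw [hJy]; ring
      have h13 : 0 < 3 * y ^ 5 + 25 * y ^ 4 + 79 * y ^ 3 + 119 * y ^ 2 + 92 * y + 38 := by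
        positivity
      linarith
    have h7 : (J - 1) / (J * (J + 1)) + (J ^ 2 + 1) / (J * (J + 1)) = 1 := by
      field_simp; ring
    rw [hfor]
    linarith


/-- The lower bound for the value of the Schur function. -/
theorem ce_r {J x a r : ℝ} (hJ : 2 ≤ J) (hxJ : J ≤ x) (ha : a = x⁻¹)
    (hr : -(1 / J - a) / ((1 / J) ^ 2 * (1 - a * (1 / J))) ≤ r) :
    -(J ^ 2 * (x - J)) ≤ r * (J * x - 1) := by
  have hJ0 : 0 < J := by linarith
  have hx0 : 0 < x := by linarith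
  have h1 : 0 < J * x - 1 := by nlinarith
  have h2 : -(1 / J - a) / ((1 / J) ^ 2 * (1 - a * (1 / J))) = -(J ^ 2 * (x - J)) / (J * x - 1) := by
    have h3 : (1 / J) ^ 2 * (1 - a * (1 / J)) = (J * x - 1) / (J ^ 3 * x) := by
      rw [ha]; field_simp
    have h4 : 1 / J - a = (x - J) / (J * x) := by
      rw [ha]; field_simp
    rw [h3, h4]
    field_simp
  rw [h2, div_le_iff₀ h1] at hr
  exact hr

/-- `u ≤ 1`. -/
theorem Loc.ce_u {Q f : ℤ[X]} {a : ℝ} {j : ℕ} (h : Loc Q f a) (hj : 2 ≤ j)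
    (hth : a⁻¹ - a < j) (haj : a * j ≤ 1)
    (hC : (aeval (1 / (j : ℝ)) Q : ℝ) + (1 / (j : ℝ)) ^ 2 * aeval (1 / (j : ℝ)) f ≤ 0) :
    f.coeff 0 ≤ 1 := by
  by_contra hcon
  push Not at hcon
  obtain ⟨s, hs, hsp, s0, s1, s2, hneg⟩ := h.sp
  have ha := h.a0
  have ha1 := h.a1
  have ha0 : a ≠ 0 := ha.ne'
  obtain ⟨J, hJdef⟩ : ∃ J : ℝ, J = j := ⟨_, rfl⟩
  rw [← hJdef] at hth haj hC
  have hJ : 2 ≤ J := by rw [hJdef]; exact_mod_cast hj
  have hJ0 : 0 < J := by linarith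
  set F : ℝ[X] := f.map (Int.castRingHom ℝ) with hF
  set R : ℝ[X] := s * (1 - C a * X) with hR
  obtain ⟨u, hu⟩ : ∃ u : ℝ, u = f.coeff 0 := ⟨_, rfl⟩
  have hu2 : 2 ≤ u := by
    rw [hu]
    have : (2 : ℤ) ≤ f.coeff 0 := by omega
    exact_mod_cast this
  have f0 : F.coeff 0 = u := by rw [hF, coeff_map, hu]; rfl
  have hRX : R = s - C a * (X * s) := by rw [hR]; ring
  have r0 : R.coeff 0 = -a⁻¹ := by
    rw [hRX, coeff_sub, coeff_C_mul, coeff_X_mul_zero, mul_zero, sub_zero, s0]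
  have hg0 : F.coeff 0 = -(a * u) * R.coeff 0 := by
    rw [f0, r0]; field_simp
  have hp0 : (0 : ℝ) < 1 / J := by positivity
  have hp1 : 1 / J < 1 := by rw [div_lt_one hJ0]; linarith
  have hpk := hsp.pick hg0 hp0.le hp1.le
  have hx : |1 / J| ≤ 1 := by rw [abs_of_pos hp0]; exact hp1.le
  have hr1 := hsp.ratio hx
  set r := F.eval (1 / J) / R.eval (1 / J) with hr
  have hrl := abs_le.mp hr1
  have hrb : -(1 / J - a) / ((1 / J) ^ 2 * (1 - a * (1 / J))) ≤ r := by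
    have e1 : R.eval (1 / J) = s.eval (1 / J) * (1 - a * (1 / J)) := by rw [hR, eval_mul]; simp
    have e2 : (aeval (1 / J) Q : ℝ) = (1 / J - a) * s.eval (1 / J) := by
      have h1 : (aeval (1 / J) Q : ℝ) = (Q.map (Int.castRingHom ℝ)).eval (1 / J) := by
        rw [eval_map]; rfl
      rw [h1, hs, eval_mul]; simp
    have e3 : (aeval (1 / J) f : ℝ) = F.eval (1 / J) := by
      rw [hF, eval_map]; rfl
    have hsn := hneg (1 / J) hp0.le hp1.le
    have h1ap : 0 < 1 - a * (1 / J) := by nlinarith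
    have hRn : R.eval (1 / J) < 0 := by rw [e1]; exact mul_neg_of_neg_of_pos hsn h1ap
    rw [e2, e3] at hC
    rw [hr, div_le_iff₀ (mul_pos (by positivity) h1ap)]
    have h2 : F.eval (1 / J) / R.eval (1 / J) * ((1 / J) ^ 2 * (1 - a * (1 / J))) *
        R.eval (1 / J) = F.eval (1 / J) * (1 / J) ^ 2 * (1 - a * (1 / J)) := by
      have := hRn.ne
      field_simp
    by_contra hcon
    push Not at hcon
    have h3 := mul_lt_mul_of_neg_right hcon hRn
    rw [h2, e1] at h3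
    nlinarith [mul_nonneg_of_nonpos_of_nonpos hC (by linarith : -(1 - a * (1 / J)) ≤ 0)]
  obtain ⟨x, hxd⟩ : ∃ x : ℝ, x = a⁻¹ := ⟨_, rfl⟩
  have hax : a = x⁻¹ := by rw [hxd, inv_inv]
  have hx0 : 0 < x := by rw [hxd]; positivity
  have hxJ : J ≤ x := by
    rw [hxd, le_inv_comm₀ hJ0 ha]
    rw [← one_div, le_div_iff₀ hJ0]
    exact haj
  have hw : 0 < 1 + J * x - x ^ 2 := by
    rw [hax, inv_inv] at hth
    have h1 : (x - x⁻¹) * x < J * x := mul_lt_mul_of_pos_right hth hx0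
    have h2 : (x - x⁻¹) * x = x ^ 2 - 1 := by field_simp
    linarith
  have hrr := ce_r hJ hxJ hax hrb
  obtain ⟨-, b2, b3, -⟩ := ce_basic hJ hxJ rfl hw
  -- Schwarz-Pick
  have hpk2 := (abs_le.mp hpk).2
  have h1 : r + a * u ≤ 1 / J * (1 + a * u * r) := by
    have e : r - -(a * u) = r + a * u := by ring
    have e' : 1 - -(a * u) * r = 1 + a * u * r := by ring
    rwa [e, e'] at hpk2
  have h2 : J * r + J * (a * u) ≤ 1 + a * u * r := by
    have h3 := mul_le_mul_of_nonneg_left h1 hJ0.le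
    have h4 : J * (1 / J * (1 + a * u * r)) = 1 + a * u * r := by field_simp
    rw [h4] at h3
    linarith
  have h3 : a * u * (J - r) ≤ 1 - J * r := by linarith
  have h4 : 2 * a * (J - r) ≤ 1 - J * r := by
    have h5 : 2 * a * (J - r) ≤ a * u * (J - r) := by
      apply mul_le_mul_of_nonneg_right _ (by linarith)
      nlinarith
    linarith
  have h5 : 2 * (J - r) ≤ x * (1 - J * r) := by
    have h6 := mul_le_mul_of_nonneg_left h4 hx0.le
    have h7 : x * (2 * a * (J - r)) = 2 * (J - r) := by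
      rw [hax]; field_simp
    linarith
  -- `r (J x - 2) ≤ x - 2 J`
  have h6 : r * (J * x - 2) ≤ x - 2 * J := by linarith
  have h7 : 0 < J * x - 2 := by nlinarith
  have h8 : -(J ^ 2 * (x - J)) * (J * x - 2) ≤ (x - 2 * J) * (J * x - 1) := by
    calc -(J ^ 2 * (x - J)) * (J * x - 2) ≤ r * (J * x - 1) * (J * x - 2) :=
          mul_le_mul_of_nonneg_right hrr h7.le
      _ = r * (J * x - 2) * (J * x - 1) := by ring
      _ ≤ (x - 2 * J) * (J * x - 1) := mul_le_mul_of_nonneg_right h6 b3.le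
  have h9 : (x - 2 * J) * (J * x - 1) + J ^ 2 * (x - J) * (J * x - 2) =
      -((1 - J * (x - J)) * (J ^ 3 - J + (1 + J ^ 2) * (x - J))) := by ring
  have h10 : 0 < J ^ 3 - J + (1 + J ^ 2) * (x - J) := by
    have : 0 < J ^ 3 - J := by
      have : J ^ 3 - J = J * (J ^ 2 - 1) := by ring
      rw [this]
      exact mul_pos hJ0 (by nlinarith)
    have h11 : 0 ≤ (1 + J ^ 2) * (x - J) := mul_nonneg (by positivity) (by linarith)
    linarith
  have h11 := mul_pos (by linarith : 0 < 1 - J * (x - J)) h10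
  linarith

/-- **Row C-e.** `θ = 1 / a < μ_j` and the zero of `q + z² f` is at most `1 / j`: then `u = 1` and
`n ≤ j`. -/
theorem Loc.ce {Q f : ℤ[X]} {a : ℝ} {j : ℕ} (h : Loc Q f a) (hj : 2 ≤ j)
    (hth : a⁻¹ - a < j) (haj : a * j ≤ 1)
    (hC : (aeval (1 / (j : ℝ)) Q : ℝ) + (1 / (j : ℝ)) ^ 2 * aeval (1 / (j : ℝ)) f ≤ 0)
    (hu1 : 1 ≤ f.coeff 0) :
    f.coeff 0 = 1 ∧ f.coeff 1 - Q.coeff 1 ≤ j := by
  have hu : f.coeff 0 = 1 := le_antisymm (h.ce_u hj hth haj hC) hu1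
  refine ⟨hu, ?_⟩
  by_contra hcon
  push Not at hcon
  have ha := h.a0
  have ha1 := h.a1
  obtain ⟨J, hJdef⟩ : ∃ J : ℝ, J = j := ⟨_, rfl⟩
  rw [← hJdef] at hth haj hC
  have hJ : 2 ≤ J := by rw [hJdef]; exact_mod_cast hj
  have hJ0 : 0 < J := by linarith
  have hp0 : (0 : ℝ) < 1 / J := by positivity
  have hp1 : 1 / J < 1 := by rw [div_lt_one hJ0]; linarith
  obtain ⟨x, hxd⟩ : ∃ x : ℝ, x = a⁻¹ := ⟨_, rfl⟩
  have hax : a = x⁻¹ := by rw [hxd, inv_inv]
  have hx0 : 0 < x := by rw [hxd]; positivity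
  have hxJ : J ≤ x := by
    rw [hxd, le_inv_comm₀ hJ0 ha]
    rw [← one_div, le_div_iff₀ hJ0]
    exact haj
  obtain ⟨w, hw⟩ : ∃ w : ℝ, w = 1 + J * x - x ^ 2 := ⟨_, rfl⟩
  have hw0 : 0 < w := by
    rw [hax, inv_inv] at hth
    have h1 : (x - x⁻¹) * x < J * x := mul_lt_mul_of_pos_right hth hx0
    have h2 : (x - x⁻¹) * x = x ^ 2 - 1 := by field_simp
    rw [hw]
    linarith
  obtain ⟨r, r1, hr, hrb, hr1, hr1le, hg1le, hpick, hnext⟩ := h.stepsK hu (κ := (1 / J) ^ 2)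
    (by positivity) hp0 hp1 hC
    (n := f.coeff 1 - Q.coeff 1)
    (g2 := f.coeff 2 - Q.coeff 2 - (f.coeff 1 - Q.coeff 1) * Q.coeff 1) rfl rfl
    (Xi := a⁻¹ - a) (g1 := 1 - ((f.coeff 1 - Q.coeff 1 : ℤ) : ℝ) / (a⁻¹ - a)) rfl rfl
  set n : ℤ := f.coeff 1 - Q.coeff 1 with hn
  set g2 : ℤ := f.coeff 2 - Q.coeff 2 - n * Q.coeff 1 with hg2
  obtain ⟨Xi, hXi⟩ : ∃ Xi : ℝ, Xi = x - a := ⟨_, rfl⟩
  have hXi' : a⁻¹ - a = Xi := by rw [hXi, hxd]
  rw [hXi'] at hg1le hpick hnext hth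
  have hx1 : 0 < x ^ 2 - 1 := by nlinarith
  have hXi2 : Xi = (x ^ 2 - 1) / x := by rw [hXi, hax]; field_simp
  have hXi0 : 0 < Xi := by rw [hXi2]; exact div_pos hx1 hx0
  obtain ⟨T, hT⟩ : ∃ T : ℝ, T = n / Xi - 1 := ⟨_, rfl⟩
  have hg1 : 1 - (n : ℝ) / Xi = -T := by rw [hT]; ring
  rw [hg1] at hg1le hpick hnext
  have hTle : T ≤ 1 := by
    have := (abs_le.mp hg1le).1
    linarith
  obtain ⟨b1, b2, b3, b4⟩ := ce_basic hJ hxJ hw hw0
  obtain ⟨D, hD⟩ : ∃ D : ℝ, D = J ^ 3 + J - x - J * w := ⟨_, rfl⟩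
  rw [← hD] at b4
  have hrl := abs_le.mp hr
  have hxr : 0 < x + r := by linarith
  have hrr := ce_r hJ hxJ hax hrb
  have hr1e : r1 * (x + r) = J * (x * r + 1) := by
    have h1 : 1 / J * (1 + a * r) = (x + r) / (J * x) := by rw [hax]; field_simp
    have h2 : r + a = (x * r + 1) / x := by rw [hax]; field_simp
    rw [hr1, h1, h2]
    field_simp
  have hB := ce_r1 hJ hxJ hrr hxr hr1e
  rw [← hw, ← hD] at hB
  have hpk : r1 * (J - T) ≤ 1 - J * T := by
    have h1 := (abs_le.mp hpick).2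
    have h2 := mul_le_mul_of_nonneg_left h1 hJ0.le
    have h3 : J * (1 / J * (1 - -T * r1)) = 1 + T * r1 := by field_simp; ring
    rw [h3] at h2
    linarith
  have hD0 : 0 < D := by linarith
  have hXiJ : Xi ≤ J := hth.le
  rcases lt_or_eq_of_le (Int.add_one_le_iff.mpr hcon) with hlt | heq
  · -- `n ≥ j + 2`
    have hn2 : J + 2 ≤ n := by
      have h1 : (j : ℤ) + 2 ≤ n := by omega
      rw [hJdef]
      exact_mod_cast h1
    have hTJ : 2 ≤ J * T := by
      have h1 : (T + 1) * Xi = n := by rw [hT]; field_simp; ring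
      have h2 : (T + 1) * Xi ≤ (T + 1) * J := by
        refine mul_le_mul_of_nonneg_left hXiJ ?_
        have h3 : 0 < (T + 1) * Xi := by rw [h1]; linarith
        exact ((pos_iff_pos_of_mul_pos h3).mpr hXi0).le
      nlinarith
    have hT0 : 0 < T := by
      by_contra hcon2
      have : J * T ≤ 0 := mul_nonpos_of_nonneg_of_nonpos hJ0.le (by linarith)
      linarith
    have h1 : r1 * (J - T) ≤ -1 := by linarith
    have h2 : J * r1 ≤ -1 := by
      have h3 : 0 < J - T := by linarith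
      have h4 : r1 < 0 := by
        by_contra hcon2
        push Not at hcon2
        have := mul_nonneg hcon2 h3.le
        linarith
      have h5 : r1 * T < 0 := mul_neg_of_neg_of_pos h4 hT0
      linarith
    -- `x r1 D ≥ - J (x - J)`
    have h5 : x * (J * (J * x - 1 - J ^ 2 + J ^ 2 * w)) = J * ((J ^ 2 * x - J) * w - (x - J)) := by
      rw [hw]; ring
    have h6 : x * (J * (J * x - 1 - J ^ 2 + J ^ 2 * w)) ≤ x * (r1 * D) :=
      mul_le_mul_of_nonneg_left hB hx0.le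
    rw [h5] at h6
    have h7 : 0 ≤ J * ((J ^ 2 * x - J) * w) := by
      refine mul_nonneg hJ0.le (mul_nonneg ?_ hw0.le)
      have : J ^ 2 * x - J = J * (J * x - 1) := by ring
      rw [this]
      exact mul_nonneg hJ0.le b3.le
    have h8 : -(J * (x - J)) ≤ x * (r1 * D) := by
      have : J * ((J ^ 2 * x - J) * w - (x - J)) = J * ((J ^ 2 * x - J) * w) - J * (x - J) := by
        ring
      linarith
    have h9 : -J ≤ J * (x * (r1 * D)) := by
      have h10 := mul_le_mul_of_nonneg_left h8 hJ0.le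
      have h11 : J * (J * (x - J)) ≤ J * 1 := mul_le_mul_of_nonneg_left b2.le hJ0.le
      linarith
    have h10 : J * (x * (r1 * D)) = x * D * (J * r1) := by ring
    have h11 : x * D * (J * r1) ≤ x * D * (-1) := mul_le_mul_of_nonneg_left h2 (by positivity)
    have h12 : J * 1 < x * D := mul_lt_mul_of_le_of_lt_of_pos_of_nonneg hxJ (by linarith)
      (by linarith) (by linarith)
    linarith
  · -- `n = j + 1`
    have hnJ : (n : ℝ) = J + 1 := by
      rw [hJdef, ← heq]; push_cast; ring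
    rw [hnJ] at hT
    have hTx : T * (x ^ 2 - 1) = w + x := by
      rw [hT, hXi2, hw]; field_simp; ring
    have h2 : r1 * ((J - 1) * x - w) ≤ -w := by
      have h3 : r1 * (J - T) * (x ^ 2 - 1) ≤ (1 - J * T) * (x ^ 2 - 1) :=
        mul_le_mul_of_nonneg_right hpk hx1.le
      have h4 : r1 * (J - T) * (x ^ 2 - 1) = (J + 1) * (r1 * ((J - 1) * x - w)) := by
        have h5 : r1 * (J - T) * (x ^ 2 - 1) = r1 * (J * (x ^ 2 - 1) - T * (x ^ 2 - 1)) := by ring
        rw [h5, hTx, hw]; ring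
      have h6 : (1 - J * T) * (x ^ 2 - 1) = (J + 1) * (-w) := by
        have h5 : (1 - J * T) * (x ^ 2 - 1) = (x ^ 2 - 1) - J * (T * (x ^ 2 - 1)) := by ring
        rw [h5, hTx, hw]; ring
      rw [h4, h6] at h3
      exact le_of_mul_le_mul_left h3 (by linarith)
    obtain ⟨c1, c2, c3⟩ := ce_w hJ hxJ hw hw0 hD hB h2
    obtain ⟨d1, d2⟩ := ce_E hJ hxJ hw hw0 c2
    have hTlt : T < 1 := by
      by_contra hcon2
      have h3 : 1 * (x ^ 2 - 1) ≤ T * (x ^ 2 - 1) :=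
        mul_le_mul_of_nonneg_right (by linarith) hx1.le
      have h4 : x ^ 2 - 1 = J * x - w := by rw [hw]; ring
      linarith
    have hT0 : 0 < T := by
      by_contra hcon2
      have h3 : T * (x ^ 2 - 1) ≤ 0 := mul_nonpos_of_nonpos_of_nonneg (by linarith) hx1.le
      linarith
    obtain ⟨r2, g, hr2, hr2l, hgl, hg2e, hpick2⟩ := hnext (by
      rw [abs_neg, abs_of_pos hT0]; exact hTlt)
    have hfin := ce_g2 (J := J) (x := x) (w := w) (D := D) (T := T) (Xi := Xi) (a := a) (r1 := r1)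
      (r2 := r2) (g := g) (g2 := (g2 : ℝ)) hJ hxJ hw hw0 hD hax hXi hT d1 d2 c1 c3
      (by rw [hr2]; congr 1 <;> ring) hr2l hgl (by rw [hg2e, hnJ]; ring) (abs_le.mp hpick2).2
    have e1 : ((j ^ 2 + 1 : ℤ) : ℝ) < (g2 : ℝ) := by
      push_cast
      rw [← hJdef]
      exact hfin.1
    have e2 : (g2 : ℝ) < ((j ^ 2 + 2 : ℤ) : ℝ) := by
      push_cast
      rw [← hJdef]
      exact hfin.2
    have e1' : (j ^ 2 + 1 : ℤ) < g2 := by exact_mod_cast e1
    have e2' : g2 < (j ^ 2 + 2 : ℤ) := by exact_mod_cast e2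
    omega

end Pool.Agent.B5.Nr.Sch
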