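import Pool.Agent.Lib.MP_b5021c_nt.IfaceKE
import Pool.Agent.Lib.MP_b5021c_nt.W.H1.Ce

/-!
# Row KE_CE
-/

namespace Pool.Agent.B5.Nr.Sch

open Pool.Agent.B5

/-- **Row KE_CE.** -/
theorem ceS : CeS := by
  intro q f a j h hu hj haj hth hC
  refine h.ce hj hth ?_ hC hu
  have hj0 : (0 : ℝ) < j := by
    have : (2 : ℝ) ≤ j := by exact_mod_cast hj
    linarith
  rwa [le_div_iff₀ hj0] at haj

end Pool.Agent.B5.Nr.Sch
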