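import Pool.Agent.Lib.MP_b5021c_nt.W.H1.Oi2

/-!
# MP_b5021c_nt, all `θ`, K odd: (O1-i), the case `T_0 = j + 2` with atoms (PaperO1, section 2 (b))
-/

namespace Pool.Agent.B5.Nr.Sch

open Polynomial Metric
open Pool.Agent.B5.Nr.Car (Cara)

theorem Ser.ps {f c : ℤ[X]} {g : ℕ → ℤ} (h : Ser f c g) :
    (f : PowerSeries ℤ) = (c : PowerSeries ℤ) * PowerSeries.mk g := by
  ext k
  rw [Polynomial.coeff_coe, h k, PowerSeries.coeff_mul]
  apply Finset.sum_congr rfl
  intro p _
  rw [Polynomial.coeff_coe, PowerSeries.coeff_mk]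

/-- The pattern: one `κ` and one sign. -/
theorem pattern {g : ℕ → ℤ} {j : ℕ} (hj : 1 ≤ j)
    (hb : ∀ m : ℕ, 2 ≤ m → ∃ (k : ℕ) (ep : ℤ), 1 ≤ k ∧ (ep = 1 ∨ ep = -1) ∧ m ∣ k ∧
      ∀ i : ℕ, 1 ≤ i → m ∣ i → g (i + 1) = if k ∣ i then -(j * ep ^ (i / k)) else 0) :
    ∃ (ka : ℕ) (et : ℤ), 1 ≤ ka ∧ (et = 1 ∨ et = -1) ∧
      ∀ i : ℕ, 2 ≤ i → g (i + 1) = if ka ∣ i then -(j * et ^ (i / ka)) else 0 := by
  classical
  have hj0 : (j : ℤ) ≠ 0 := by exact_mod_cast (by omega : j ≠ 0)
  have hne : ∀ (ep : ℤ) (l : ℕ), (ep = 1 ∨ ep = -1) → -((j : ℤ) * ep ^ l) ≠ 0 := by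
    intro ep l hep
    refine neg_ne_zero.mpr (mul_ne_zero hj0 (pow_ne_zero _ ?_))
    rcases hep with h | h <;> rw [h] <;> norm_num
  choose! k ep hk hep hmk hg using hb
  -- (i)
  have hi : ∀ i : ℕ, 2 ≤ i → g (i + 1) ≠ 0 → k i = i := by
    intro i hi2 h0
    have h1 := hg i hi2 i (by omega) dvd_rfl
    rw [h1] at h0
    have h2 : k i ∣ i := by
      by_contra hcon
      rw [if_neg hcon] at h0
      exact h0 rfl
    exact Nat.dvd_antisymm h2 (hmk i hi2)
  -- (ii)
  have hii : ∀ i : ℕ, 2 ≤ i → g (i + 1) ≠ 0 → ∀ l : ℕ, 1 ≤ l →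
      g (i * l + 1) = -(j * ep i ^ l) := by
    intro i hi2 h0 l hl
    have h1 := hg i hi2 (i * l) (Nat.mul_pos (by omega) (by omega)) (dvd_mul_right _ _)
    rw [hi i hi2 h0] at h1
    rw [h1, if_pos (dvd_mul_right _ _), Nat.mul_div_cancel_left _ (by omega)]
  -- a divisor criterion
  have hdv : ∀ m i : ℕ, 2 ≤ m → 1 ≤ i → m ∣ i → g (i + 1) ≠ 0 → k m ∣ i := by
    intro m i hm hi1 hmi h0
    rw [hg m hm i hi1 hmi] at h0
    by_contra hcon
    rw [if_neg hcon] at h0
    exact h0 rfl
  have hkm : ∀ m : ℕ, 2 ≤ m → k m = m → g (m + 1) ≠ 0 := by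
    intro m hm hkk
    rw [hg m hm m (by omega) dvd_rfl, hkk, if_pos dvd_rfl]
    exact hne _ _ (hep m hm)
  -- (iii)
  have hex : ∃ i : ℕ, 2 ≤ i ∧ g (i + 1) ≠ 0 := by
    have h2k : 2 ≤ k 2 := Nat.le_of_dvd (hk 2 le_rfl) (hmk 2 le_rfl)
    refine ⟨k 2, h2k, ?_⟩
    rw [hg 2 le_rfl (k 2) (by omega) (hmk 2 le_rfl), if_pos dvd_rfl]
    exact hne _ _ (hep 2 le_rfl)
  obtain ⟨ka, ⟨hka2, hka0⟩, hmin⟩ : ∃ ka, (2 ≤ ka ∧ g (ka + 1) ≠ 0) ∧
      ∀ i, 2 ≤ i → g (i + 1) ≠ 0 → ka ≤ i :=
    ⟨Nat.find hex, Nat.find_spec hex, fun i h1 h2 => Nat.find_min' hex ⟨h1, h2⟩⟩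
  by_cases hA : ∀ i : ℕ, 2 ≤ i → g (i + 1) ≠ 0 → ka ∣ i
  · refine ⟨ka, ep ka, by omega, hep ka hka2, fun i hi2 => ?_⟩
    by_cases hd : ka ∣ i
    · obtain ⟨l, rfl⟩ := hd
      have hl : 1 ≤ l := by
        rcases Nat.eq_zero_or_pos l with h | h
        · rw [h] at hi2; omega
        · exact h
      rw [if_pos (dvd_mul_right _ _), Nat.mul_div_cancel_left _ (by omega)]
      exact hii ka hka2 hka0 l hl
    · rw [if_neg hd]
      by_contra hcon
      exact hd (hA i hi2 hcon)
  · push Not at hA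
    obtain ⟨i, hi2, hi0, hnd⟩ := hA
    have hall : ∀ m : ℕ, 2 ≤ m → g (m + 1) ≠ 0 := by
      by_cases hd : 2 ≤ Nat.gcd i ka
      · exfalso
        have h1 := hdv _ i hd (by omega) (Nat.gcd_dvd_left _ _) hi0
        have h2 := hdv _ ka hd (by omega) (Nat.gcd_dvd_right _ _) hka0
        have h3 := Nat.dvd_gcd h1 h2
        have h4 := Nat.dvd_antisymm h3 (hmk _ hd)
        have h5 := hmin _ hd (hkm _ hd h4)
        have h6 : Nat.gcd i ka = ka :=
          le_antisymm (Nat.le_of_dvd (by omega) (Nat.gcd_dvd_right _ _)) h5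
        exact hnd (h6 ▸ Nat.gcd_dvd_left i ka)
      · have hd1 : Nat.gcd i ka = 1 := by
          have : 0 < Nat.gcd i ka := Nat.gcd_pos_of_pos_left _ (by omega)
          omega
        intro m hm
        apply hkm m hm
        have h1 : k m ∣ i * m := by
          apply hdv m (i * m) hm (Nat.mul_pos (by omega) (by omega)) (dvd_mul_left _ _)
          rw [hii i hi2 hi0 m (by omega)]
          exact hne _ _ (hep i hi2)
        have h2 : k m ∣ ka * m := by
          apply hdv m (ka * m) hm (Nat.mul_pos (by omega) (by omega)) (dvd_mul_left _ _)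
          rw [hii ka hka2 hka0 m (by omega)]
          exact hne _ _ (hep ka hka2)
        have h3 := Nat.dvd_gcd h1 h2
        rw [Nat.gcd_mul_right, hd1, one_mul] at h3
        exact Nat.dvd_antisymm h3 (hmk m hm)
    have hll : ∀ m l : ℕ, 2 ≤ m → 1 ≤ l → g (m * l + 1) = -(j * ep m ^ l) :=
      fun m l hm hl => hii m hm (hall m hm) l hl
    have hsq : ∀ m : ℕ, 2 ≤ m → ep m ^ 2 = 1 := by
      intro m hm
      rcases hep m hm with h | h <;> rw [h] <;> norm_num
    have hcancel : ∀ u v : ℤ, -((j : ℤ) * u) = -(j * v) → u = v := by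
      intro u v huv
      exact mul_left_cancel₀ hj0 (neg_injective huv)
    have he2 : ep 2 = 1 := by
      have h1 := hll 2 3 le_rfl (by norm_num)
      have h2 := hll 3 2 (by norm_num) (by norm_num)
      rw [show 2 * 3 = 3 * 2 from rfl, h2] at h1
      have h3 := hcancel _ _ h1
      rw [hsq 3 (by norm_num)] at h3
      rcases hep 2 le_rfl with h | h
      · exact h
      · rw [h] at h3; norm_num at h3
    refine ⟨1, ep 3, le_rfl, hep 3 (by norm_num), fun i hi2 => ?_⟩
    rw [if_pos (one_dvd _), Nat.div_one]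
    rcases Nat.even_or_odd i with he | ho
    · obtain ⟨l, hl⟩ := he
      have hl1 : 1 ≤ l := by omega
      have h1 := hll 2 l le_rfl hl1
      rw [he2, one_pow] at h1
      have h2 : i = 2 * l := by omega
      have h3 : ep 3 ^ i = 1 := by rw [h2, pow_mul, hsq 3 (by norm_num), one_pow]
      rw [h3, h2, h1]
    · have h1 := hll i 3 hi2 (by norm_num)
      have h2 := hll 3 i (by norm_num) (by omega)
      rw [mul_comm i 3, h2] at h1
      have h3 := hcancel _ _ h1
      have h4 : ep i ^ 3 = ep i := by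
        rw [pow_succ, hsq i hi2, one_mul]
      have h5 : g (i * 1 + 1) = -(j * ep i ^ 1) := hll i 1 hi2 le_rfl
      rw [mul_one, pow_one] at h5
      rw [h5, h3, h4]

/-- The closed form. -/
theorem Ser.closed {f c : ℤ[X]} {g : ℕ → ℤ} (h : Ser f c g) (g0 : g 0 = 1) (g1 : g 1 = -1)
    {j ka : ℕ} {et : ℤ} (hka : 1 ≤ ka)
    (hg : ∀ i : ℕ, 2 ≤ i → g (i + 1) = if ka ∣ i then -(j * et ^ (i / ka)) else 0) :
    f * (1 - C et * X ^ ka) = c * ((1 - X + C (g 2) * X ^ 2) * (1 - C et * X ^ ka) -
      (if ka = 1 then C ((j : ℤ) * et ^ 2) * X ^ 3 else C ((j : ℤ) * et) * X ^ (ka + 1))) := by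
  have key : PowerSeries.mk g * ((1 - C et * X ^ ka : ℤ[X]) : PowerSeries ℤ) =
      (((1 - X + C (g 2) * X ^ 2) * (1 - C et * X ^ ka) -
        (if ka = 1 then C ((j : ℤ) * et ^ 2) * X ^ 3 else C ((j : ℤ) * et) * X ^ (ka + 1)) :
          ℤ[X]) : PowerSeries ℤ) := by
    -- split off the first three terms
    set G' : PowerSeries ℤ := PowerSeries.mk (fun k => if k < 3 then 0 else g k) with hG'
    have h1 : PowerSeries.mk g =
        ((1 - X + C (g 2) * X ^ 2 : ℤ[X]) : PowerSeries ℤ) + G' := by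
      ext k
      rw [map_add, PowerSeries.coeff_mk, hG', PowerSeries.coeff_mk, Polynomial.coeff_coe]
      simp only [coeff_add, coeff_sub, coeff_one, coeff_X, coeff_C_mul, coeff_X_pow]
      rcases (by omega : k = 0 ∨ k = 1 ∨ k = 2 ∨ 3 ≤ k) with hk | hk | hk | hk
      · subst hk; simp [g0]
      · subst hk; simp [g1]
      · subst hk; simp
      · rw [if_neg (by omega), if_neg (by omega), if_neg (by omega), if_neg (by omega)]
        simp
    have h2 : G' * ((1 - C et * X ^ ka : ℤ[X]) : PowerSeries ℤ) =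
        -((if ka = 1 then C ((j : ℤ) * et ^ 2) * X ^ 3 else C ((j : ℤ) * et) * X ^ (ka + 1) :
          ℤ[X]) : PowerSeries ℤ) := by
      have e1 : ((1 - C et * X ^ ka : ℤ[X]) : PowerSeries ℤ) =
          1 - PowerSeries.C et * PowerSeries.X ^ ka := by
        rw [Polynomial.coe_sub, Polynomial.coe_one, Polynomial.coe_mul, Polynomial.coe_C,
          Polynomial.coe_pow, Polynomial.coe_X]
      rw [e1, mul_sub, mul_one]
      have e2 : G' * (PowerSeries.C et * PowerSeries.X ^ ka) =
          PowerSeries.C et * (G' * PowerSeries.X ^ ka) := by ring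
      rw [e2]
      ext n
      rw [map_sub, PowerSeries.coeff_C_mul, PowerSeries.coeff_mul_X_pow', map_neg,
        Polynomial.coeff_coe]
      -- the coefficients of `G'`
      have hG : ∀ i : ℕ, PowerSeries.coeff i G' =
          if 3 ≤ i ∧ ka ∣ (i - 1) then -(j * et ^ ((i - 1) / ka)) else 0 := by
        intro i
        rw [hG', PowerSeries.coeff_mk]
        by_cases h3 : i < 3
        · rw [if_pos h3, if_neg (by omega)]
        · rw [if_neg h3]
          have h4 := hg (i - 1) (by omega)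
          rw [show i - 1 + 1 = i by omega] at h4
          rw [h4]
          by_cases h5 : ka ∣ (i - 1)
          · rw [if_pos h5, if_pos ⟨by omega, h5⟩]
          · rw [if_neg h5, if_neg (fun h6 => h5 h6.2)]
      rw [hG n]
      by_cases hk1 : ka = 1
      · subst hk1
        rw [if_pos rfl]
        simp only [isUnit_one, IsUnit.dvd, and_true, Nat.div_one, coeff_C_mul,
          coeff_X_pow]
        by_cases hn3 : 3 ≤ n
        · rw [if_pos hn3, if_pos (by omega : 1 ≤ n), hG (n - 1)]
          simp only [isUnit_one, IsUnit.dvd, and_true, Nat.div_one]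
          by_cases hn4 : 3 ≤ n - 1
          · rw [if_pos hn4, if_neg (by omega)]
            have : n - 1 = (n - 1 - 1) + 1 := by omega
            rw [show et ^ (n - 1) = et ^ (n - 1 - 1) * et by rw [← pow_succ, ← this]]
            ring
          · have hn : n = 3 := by omega
            subst hn
            rw [if_neg (by omega), if_pos rfl]
            ring
        · rw [if_neg hn3, if_neg (by omega : n ≠ 3)]
          by_cases hn1 : 1 ≤ n
          · rw [if_pos hn1, hG (n - 1), if_neg (by omega)]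
            ring
          · rw [if_neg hn1]
            ring
      · rw [if_neg hk1]
        rw [coeff_C_mul, coeff_X_pow]
        by_cases hkn : ka ≤ n
        · rw [if_pos hkn, hG (n - ka)]
          by_cases hd : ka ∣ (n - 1)
          · obtain ⟨l, hl⟩ := hd
            have hn1 : 1 ≤ n := by omega
            rcases (by omega : l = 0 ∨ l = 1 ∨ 2 ≤ l) with h0 | h0 | h0
            · subst h0
              rw [mul_zero] at hl
              exfalso
              omega
            · subst h0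
              rw [mul_one] at hl
              rw [if_pos ⟨by omega, ⟨1, by omega⟩⟩, if_neg (by omega), if_pos (by omega), hl,
                Nat.div_self (by omega)]
              ring
            · have hl2 : ka * 2 ≤ ka * l := Nat.mul_le_mul_left _ h0
              have hl3 : n - ka - 1 = ka * (l - 1) := by
                rw [Nat.mul_sub, mul_one]; omega
              rw [if_pos ⟨by omega, ⟨l, hl⟩⟩, if_pos ⟨by omega, ⟨l - 1, hl3⟩⟩, if_neg (by omega),
                hl, hl3, Nat.mul_div_cancel_left _ (by omega), Nat.mul_div_cancel_left _ (by omega)]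
              have : l = (l - 1) + 1 := by omega
              rw [show et ^ l = et ^ (l - 1) * et by rw [← pow_succ, ← this]]
              ring
          · rw [if_neg (fun h6 => hd h6.2)]
            rw [if_neg (by
              rintro ⟨h6, h7⟩
              apply hd
              obtain ⟨l, hl⟩ := h7
              exact ⟨l + 1, by rw [mul_add, mul_one, ← hl]; omega⟩)]
            rw [if_neg (by
              intro h6
              exact hd ⟨1, by omega⟩)]
            ring
        · rw [if_neg hkn, if_neg (by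
            rintro ⟨h6, h7⟩
            have := Nat.le_of_dvd (by omega) h7
            omega), if_neg (by omega)]
          ring
    rw [h1, add_mul, h2]
    push_cast
    ring
  have h3 : ((f * (1 - C et * X ^ ka) : ℤ[X]) : PowerSeries ℤ) =
      ((c * ((1 - X + C (g 2) * X ^ 2) * (1 - C et * X ^ ka) -
      (if ka = 1 then C ((j : ℤ) * et ^ 2) * X ^ 3 else C ((j : ℤ) * et) * X ^ (ka + 1))) :
        ℤ[X]) : PowerSeries ℤ) := by
    rw [Polynomial.coe_mul, Polynomial.coe_mul, h.ps, mul_assoc, key]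
  exact Polynomial.coe_injective _ h3

theorem alg5 {K : Type*} [Field K] {P R D c : K} (hD : D ≠ 0) :
    (P - R / D) * c = c * (P * D - R) / D := by
  field_simp

theorem aevalC (t : ℝ) (k : ℤ) : (aeval t (C k : ℤ[X]) : ℝ) = k := by
  rw [aeval_C]; rfl

/-- The point `s (1 + i)` with `2 s² = u`. -/
theorem pt {s u : ℝ} (hu : u = 2 * s ^ 2) :
    ((⟨s, s⟩ : ℂ) ^ 2 / (1 - (⟨s, s⟩ : ℂ) ^ 2)).re = -(u ^ 2) / (1 + u ^ 2) := by
  have h1 : (⟨s, s⟩ : ℂ) ^ 2 = ⟨0, u⟩ := by
    apply Complex.ext
    · rw [pow_two, Complex.mul_re]; ring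
    · rw [pow_two, Complex.mul_im, hu]; ring
  rw [h1, Complex.div_re, Complex.normSq_apply]
  simp only [Complex.sub_re, Complex.sub_im, Complex.one_re, Complex.one_im]
  have h2 : (1 : ℝ) + u ^ 2 ≠ 0 := by positivity
  have h3 : (1 - 0) * (1 - 0) + (0 - u) * (0 - u) = 1 + u ^ 2 := by ring
  rw [h3]
  field_simp
  ring

/-- **OI_UFB**: `T_0 = j + 2`, the case with atoms, is impossible. -/
theorem LocA.ufb {q f c : ℤ[X]} {a p : ℝ} {j : ℕ} (h : LocA q f c a j) (hj : 2 ≤ j)
    (hp0 : 0 < p) (hp : p ^ 2 + j * p = 1) (hth : 1 < ((j : ℝ) + 1) * a)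
    (hB : (aeval p q : ℝ) + p * aeval p f ≤ 0) {g : ℕ → ℤ} (hs : Ser f c g)
    (g1 : g 1 = -1)
    (hb : ∀ m : ℕ, 2 ≤ m → ∃ (k : ℕ) (ep : ℤ), 1 ≤ k ∧ (ep = 1 ∨ ep = -1) ∧ m ∣ k ∧
      ∀ i : ℕ, 1 ≤ i → m ∣ i → g (i + 1) = if k ∣ i then -(j * ep ^ (i / k)) else 0) :
    False := by
  have g0 : g 0 = 1 := by
    have h1 := hs 0
    rw [h.f0] at h1
    simpa [h.c0] using h1.symm
  obtain ⟨ka, et, hka, het, hg⟩ := pattern (by omega : 1 ≤ j) hb
  have hcl := hs.closed g0 g1 hka hg
  obtain ⟨J, hJ⟩ : ∃ J : ℝ, J = j := ⟨_, rfl⟩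
  have hJ1 : 2 ≤ J := by rw [hJ]; exact_mod_cast hj
  rw [← hJ] at hp hth
  obtain ⟨hxp, hp1⟩ := x12 (by linarith : 0 < J) hp0 hp
  have hx0 : 0 < 1 / (J + 1) := by positivity
  have hxa : 1 / (J + 1) < a := by
    rw [div_lt_iff₀ (by linarith)]; linarith
  obtain ⟨x, hx⟩ : ∃ x : ℝ, x = 1 / (J + 1) := ⟨_, rfl⟩
  have w2 := h.e2 hp0 hp1 hB
  have w1 := h.e1 hx0 hxa
  rw [← hJ] at w2 w1
  rw [← hx] at hxp hx0 hxa w1
  have hJx : J * x = 1 - x := by rw [hx]; field_simp; ring
  have het2 : (et : ℝ) ^ 2 = 1 := by rcases het with h | h <;> rw [h] <;> norm_num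
  obtain ⟨e, he⟩ : ∃ e : ℝ, e = et := ⟨_, rfl⟩
  have he1 : e = 1 ∨ e = -1 := by
    rcases het with h | h
    · left; rw [he, h]; norm_num
    · right; rw [he, h]; norm_num
  have hden : ∀ t : ℝ, 0 < t → t < 1 → 0 < 1 - e * t ^ ka := by
    intro t ht0 ht1
    have h1 : t ^ ka < 1 := pow_lt_one₀ ht0.le ht1 (by omega)
    have h2 : 0 < t ^ ka := by positivity
    rcases he1 with h | h <;> rw [h] <;> linarith
  obtain ⟨G2, hG2⟩ : ∃ G2 : ℝ, G2 = g 2 := ⟨_, rfl⟩
  by_cases hk1 : ka = 1
  · -- `κ = 1`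
    subst hk1
    rw [if_pos rfl] at hcl
    have hval : ∀ t : ℝ, 0 < t → t < 1 → aeval t f / aeval t c =
        1 - t + G2 * t ^ 2 - J * t ^ 3 / (1 - e * t) := by
      intro t ht0 ht1
      have hc := h.cpos ht0.le ht1
      have hd := hden t ht0 ht1
      rw [pow_one] at hd
      have h1 := congrArg (fun P : ℤ[X] => (aeval t P : ℝ)) hcl
      rw [map_mul, map_mul, map_sub, map_sub, map_mul, map_mul, map_mul, map_add, map_sub,
        map_sub, map_mul, map_mul, map_pow, map_pow, map_pow, map_one, aevalC, aevalC, aevalC,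
        aeval_X, pow_one] at h1
      push_cast at h1
      rw [← he, ← hG2, ← hJ] at h1
      rw [he, het2, ← he] at h1
      rw [div_eq_iff hc.ne', alg5 hd.ne', eq_div_iff hd.ne', h1]
      ring
    rw [hval p hp0 hp1] at w2
    rw [hval x hx0 (hxp.trans hp1)] at w1
    have hdp := hden p hp0 hp1
    have hdx := hden x hx0 (hxp.trans hp1)
    rw [pow_one] at hdp hdx
    -- `G2 > J x / (1 - e x)`
    have k1 : J * x / (1 - e * x) < G2 := by
      have h1 : J * x ^ 3 / (1 - e * x) < G2 * x ^ 2 := by linarith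
      have h2 : J * x ^ 3 / (1 - e * x) = (J * x / (1 - e * x)) * x ^ 2 := by ring
      rw [h2] at h1
      exact lt_of_mul_lt_mul_right h1 (by positivity)
    have k2 : G2 ≤ J * p / (1 - e * p) := by
      have h1 : (1 + p) * (1 - p + (G2 * p ^ 2 - J * p ^ 3 / (1 - e * p))) ≤
          (1 + p) * (1 - p) := by linarith
      have h3 := le_of_mul_le_mul_left h1 (by linarith)
      have h2 : J * p ^ 3 / (1 - e * p) = (J * p / (1 - e * p)) * p ^ 2 := by ring
      rw [h2] at h3
      have h4 : G2 * p ^ 2 ≤ (J * p / (1 - e * p)) * p ^ 2 := by linarith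
      exact le_of_mul_le_mul_right h4 (by positivity)
    rcases he1 with h1 | h1
    · rw [h1, one_mul] at k1 k2
      rw [h1, one_mul] at hdx hdp
      have l1 : J * x / (1 - x) = 1 := by rw [hJx]; field_simp
      have l2 : J * p / (1 - p) = 1 + p := by
        have : J * p = (1 + p) * (1 - p) := by linarith
        rw [this]; field_simp
      rw [l1, hG2] at k1
      rw [l2, hG2] at k2
      have m1 : (1 : ℤ) < g 2 := by exact_mod_cast k1
      have m2 : (g 2 : ℝ) < ((2 : ℤ) : ℝ) := by push_cast; linarith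
      have m3 : g 2 < 2 := by exact_mod_cast m2
      omega
    · rw [h1] at k1 k2
      have l1 : 0 < J * x / (1 - -1 * x) := by
        have : 0 < 1 - -1 * x := by linarith
        positivity
      have l2 : J * p / (1 - -1 * p) = 1 - p := by
        have : J * p = (1 - -1 * p) * (1 - p) := by linarith
        rw [this, mul_div_cancel_left₀]
        linarith
      rw [l2, hG2] at k2
      rw [hG2] at k1
      have m1 : (0 : ℝ) < g 2 := by linarith
      have m1' : (0 : ℤ) < g 2 := by exact_mod_cast m1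
      have m2 : (g 2 : ℝ) < ((1 : ℤ) : ℝ) := by push_cast; linarith
      have m3 : g 2 < 1 := by exact_mod_cast m2
      omega
  · -- `κ ≥ 2`
    rw [if_neg hk1] at hcl
    have hka2 : 2 ≤ ka := by omega
    have hval : ∀ t : ℝ, 0 < t → t < 1 → aeval t f / aeval t c =
        1 - t + G2 * t ^ 2 - J * e * t ^ (ka + 1) / (1 - e * t ^ ka) := by
      intro t ht0 ht1
      have hc := h.cpos ht0.le ht1
      have hd := hden t ht0 ht1
      have h1 := congrArg (fun P : ℤ[X] => (aeval t P : ℝ)) hcl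
      rw [map_mul, map_mul, map_sub, map_sub, map_mul, map_mul, map_mul, map_add, map_sub,
        map_sub, map_mul, map_mul, map_pow, map_pow, map_pow, map_one, aevalC, aevalC, aevalC,
        aeval_X] at h1
      push_cast at h1
      rw [← he, ← hG2, ← hJ] at h1
      rw [div_eq_iff hc.ne', alg5 hd.ne', eq_div_iff hd.ne', h1]
    rw [hval p hp0 hp1] at w2
    rw [hval x hx0 (hxp.trans hp1)] at w1
    have hdp := hden p hp0 hp1
    have hdx := hden x hx0 (hxp.trans hp1)
    obtain ⟨l, hl⟩ : ∃ l, ka = l + 2 := ⟨ka - 2, by omega⟩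
    have hpw : ∀ t : ℝ, J * e * t ^ (ka + 1) / (1 - e * t ^ ka) =
        (J * e * t ^ (l + 1) / (1 - e * t ^ ka)) * t ^ 2 := by
      intro t
      rw [show ka + 1 = l + 1 + 2 by omega, pow_add t (l + 1) 2]
      ring
    have k1 : J * e * x ^ (l + 1) / (1 - e * x ^ ka) < G2 := by
      have h1 : J * e * x ^ (ka + 1) / (1 - e * x ^ ka) < G2 * x ^ 2 := by linarith
      rw [hpw] at h1
      exact lt_of_mul_lt_mul_right h1 (by positivity)
    have k2 : G2 ≤ J * e * p ^ (l + 1) / (1 - e * p ^ ka) := by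
      have h1 : (1 + p) * (1 - p + (G2 * p ^ 2 - J * e * p ^ (ka + 1) / (1 - e * p ^ ka))) ≤
          (1 + p) * (1 - p) := by linarith
      have h3 := le_of_mul_le_mul_left h1 (by linarith)
      rw [hpw] at h3
      have h4 : G2 * p ^ 2 ≤ (J * e * p ^ (l + 1) / (1 - e * p ^ ka)) * p ^ 2 := by linarith
      exact le_of_mul_le_mul_right h4 (by positivity)
    rcases he1 with h1 | h1
    · -- `η = 1`
      rw [h1] at k1 k2 hdp hdx
      rw [mul_one, one_mul] at k1 k2
      rw [one_mul] at hdp hdx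
      have l1 : 0 < J * x ^ (l + 1) / (1 - x ^ ka) := by positivity
      have m1 : (0 : ℝ) < g 2 := by rw [← hG2]; linarith
      have m1' : (0 : ℤ) < g 2 := by exact_mod_cast m1
      -- `J p^(l+1) ≤ 1 - p^ka`, strict for `l ≥ 1`
      rcases Nat.eq_zero_or_pos l with hl0 | hl0
      · -- `κ = 2`, `g 2 = 1`
        subst hl0
        have hk2 : ka = 2 := by omega
        subst hk2
        have l2 : J * p ^ (0 + 1) / (1 - p ^ 2) = 1 := by
          rw [zero_add, pow_one, div_eq_one_iff_eq hdp.ne']; linarith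
        rw [l2, hG2] at k2
        have m2 : g 2 ≤ 1 := by exact_mod_cast k2
        have m3 : g 2 = 1 := by omega
        have het1 : et = 1 := by
          rcases het with h' | h'
          · exact h'
          · rw [h'] at he; rw [h1] at he; norm_num at he
        rw [m3, het1] at hcl
        -- the point
        obtain ⟨u, hu⟩ : ∃ u : ℝ, u = 1 - 1 / (8 * J) := ⟨_, rfl⟩
        have hJ8 : 1 / (8 * J) ≤ 1 / 16 := by
          apply one_div_le_one_div_of_le (by norm_num) (by linarith)
        have hJ8' : 0 < 1 / (8 * J) := by positivity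
        have hu0 : 15 / 16 ≤ u := by rw [hu]; linarith
        have hu1 : u < 1 := by rw [hu]; linarith
        obtain ⟨s, hs0⟩ : ∃ s : ℝ, s = Real.sqrt (u / 2) := ⟨_, rfl⟩
        have hs2 : u = 2 * s ^ 2 := by
          rw [hs0, Real.sq_sqrt (by linarith)]; ring
        have hspos : 0 ≤ s := by rw [hs0]; exact Real.sqrt_nonneg _
        have hs68 : 68 / 100 < s := by
          by_contra hcon
          push Not at hcon
          nlinarith
        obtain ⟨z, hz⟩ : ∃ z : ℂ, z = ⟨s, s⟩ := ⟨_, rfl⟩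
        have hzn : ‖z‖ < 1 := by
          have h2 : ‖z‖ ^ 2 < 1 := by
            rw [Complex.sq_norm, Complex.normSq_apply, hz]
            simp only
            nlinarith
          have := norm_nonneg z
          nlinarith
        have hz0 : z ≠ 0 := by
          intro h2
          rw [hz] at h2
          have := congrArg Complex.re h2
          simp at this
          linarith
        have hzc := h.cz z hzn
        have hz2 : (1 : ℂ) - z ^ 2 ≠ 0 := by
          intro h2
          have h3 : z ^ 2 = 1 := by linear_combination -h2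
          have h4 : ‖z‖ ^ 2 = 1 := by rw [← norm_pow, h3, norm_one]
          nlinarith [norm_nonneg z]
        have hvz : aeval z f / aeval z c = 1 - z + z ^ 2 - j * z ^ 3 / (1 - z ^ 2) := by
          have h2 := congrArg (fun P : ℤ[X] => (aeval z P : ℂ)) hcl
          simp only [map_mul, map_sub, map_add, map_one, aeval_X, map_pow, mul_one, C_1,
            one_mul] at h2
          rw [aeval_C] at h2
          simp only [algebraMap_int_eq, eq_intCast, Int.cast_natCast] at h2
          rw [div_eq_iff hzc, alg5 hz2, eq_div_iff hz2, h2]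
        have hre := h.cara.re z hzn
        rw [h.val hzn hz0, hvz] at hre
        have h5 : (j : ℂ) + 2 * (1 - (1 - z + z ^ 2 - j * z ^ 3 / (1 - z ^ 2))) / z - 2 * z =
            ((J + 2 : ℝ) : ℂ) - ((4 : ℝ) : ℂ) * z + ((2 * J : ℝ) : ℂ) * (z ^ 2 / (1 - z ^ 2)) := by
          rw [hJ]
          push_cast
          field_simp
          ring
        rw [h5, Complex.add_re, Complex.sub_re, Complex.ofReal_re, Complex.re_ofReal_mul,
          Complex.re_ofReal_mul, hz, pt hs2] at hre
        simp only at hre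
        -- `J (1 - u²)/(1 + u²) ≤ 1/4`
        have h6 : J + 2 * J * (-(u ^ 2) / (1 + u ^ 2)) ≤ 1 / 4 := by
          have h7 : J + 2 * J * (-(u ^ 2) / (1 + u ^ 2)) = J * (1 - u ^ 2) / (1 + u ^ 2) := by
            field_simp; ring
          rw [h7, div_le_iff₀ (by positivity)]
          have h8 : J * (1 - u) = 1 / 8 := by rw [hu]; field_simp; ring
          have h9 : J * (1 - u ^ 2) = 1 / 8 * (1 + u) := by
            rw [← h8]; ring
          rw [h9]
          nlinarith
        linarith
      · have l2 : J * p ^ (l + 1) / (1 - p ^ ka) < 1 := by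
          rw [div_lt_one hdp]
          have h2 : J * p ^ (l + 1) = (1 - p ^ 2) * p ^ l := by
            rw [pow_succ]; linear_combination (p ^ l) * hp
          rw [h2, hl, pow_add]
          have h3 : p ^ l < 1 := pow_lt_one₀ hp0.le hp1 (by omega)
          nlinarith [sq_nonneg p]
        have m2 : (g 2 : ℝ) < ((1 : ℤ) : ℝ) := by rw [← hG2]; push_cast; linarith
        have m3 : g 2 < 1 := by exact_mod_cast m2
        omega
    · -- `η = -1`
      rw [h1] at k1 k2 hdp hdx
      have l2 : J * -1 * p ^ (l + 1) / (1 - -1 * p ^ ka) < 0 := by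
        apply div_neg_of_neg_of_pos _ hdp
        have : 0 < J * p ^ (l + 1) := by positivity
        linarith
      have l1 : -1 < J * -1 * x ^ (l + 1) / (1 - -1 * x ^ ka) := by
        rw [lt_div_iff₀ hdx]
        have h2 : 0 < x ^ ka := by positivity
        have h3 : x ^ (l + 1) ≤ x := by
          have : x ^ (l + 1) ≤ x ^ 1 := pow_le_pow_of_le_one hx0.le (by linarith) (by omega)
          simpa using this
        have h4 : J * x ^ (l + 1) ≤ J * x := mul_le_mul_of_nonneg_left h3 (by linarith)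
        linarith
      have m1 : ((-1 : ℤ) : ℝ) < g 2 := by rw [← hG2]; push_cast; linarith
      have m2 : (g 2 : ℝ) < ((0 : ℤ) : ℝ) := by rw [← hG2]; push_cast; linarith
      have m1' : -1 < g 2 := by exact_mod_cast m1
      have m2' : g 2 < 0 := by exact_mod_cast m2
      omega

end Pool.Agent.B5.Nr.Sch
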