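import Pool.Agent.Lib.MP_b5021c_nt.IfaceO1
import Pool.Agent.Lib.MP_b5021c_nt.W.H1.Oi3

/-!
# Rows O1_EXT, O1_T0J, O1_UFV
-/

namespace Pool.Agent.B5.Nr.Sch

open Polynomial
open Pool.Agent.B5

theorem LocA.of {q f C1 : ℤ[X]} {a p : ℝ} {j n : ℕ} (h : O1d q f a p j) (hc0 : C1.coeff 0 = 1)
    (hcz : ∀ z : ℂ, ‖z‖ < 1 → aeval z C1 ≠ 0) (hn : 1 ≤ n)
    (he : f - q = C (n : ℤ) * X * C1) : LocA q f C1 a n where
  loc := h.loc
  f0 := h.f0
  c0 := hc0
  cz := hcz
  eq := by rw [← he]; ring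
  n1 := hn

theorem O1d.p2 {q f : ℤ[X]} {a p : ℝ} {j : ℕ} (h : O1d q f a p j) : p ^ 2 + j * p = 1 := by
  have h1 := h.pj
  have h2 := h.p0
  rw [← h1]
  field_simp
  ring

theorem Ser.of {f c : ℤ[X]} {g : ℕ → ℤ}
    (h : (c : PowerSeries ℤ) * PowerSeries.mk g = (f : PowerSeries ℤ)) : Ser f c g := by
  intro k
  have h1 := congrArg (PowerSeries.coeff k) h
  rw [PowerSeries.coeff_mul, Polynomial.coeff_coe] at h1
  rw [← h1]
  apply Finset.sum_congr rfl
  intro p _
  rw [Polynomial.coeff_coe, PowerSeries.coeff_mk]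

/-- **Row O1_EXT.** -/
theorem o1ex : O1exS := by
  intro q f C1 a p j h hc0 hcz he
  have h1 := LocA.of h hc0 hcz (by have := h.j2; omega) he
  exact h1.ext (by have := h.j2; omega) h.p0 (O1d.p2 h) h.lt h.B

/-- **Row O1_T0J.** -/
theorem o1tj : O1tjS := by
  intro q f C1 a p j g h hc0 hcz he hg g1 hm
  have h1 := LocA.of h hc0 hcz (by have := h.j2; omega) he
  have hs := Ser.of hg
  have g0 : g 0 = 1 := by
    have h2 := hs 0
    rw [h.f0] at h2
    simpa [hc0] using h2.symm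
  have h3 : ∀ k, 3 ≤ k → g k = 0 := by
    intro k hk
    have := hm (k - 1) (by omega) 1 le_rfl
    rwa [mul_one, show k - 1 + 1 = k by omega] at this
  refine h1.t0j (by have := h.j2; omega) h.p0 (O1d.p2 h) h.lt h.B (g 2) ?_
  apply Polynomial.coe_injective
  rw [← hg, Polynomial.coe_mul]
  congr 1
  ext k
  rw [PowerSeries.coeff_mk, Polynomial.coeff_coe, coeff_add, coeff_one, coeff_C_mul, coeff_X_pow]
  rcases (by omega : k = 0 ∨ k = 1 ∨ k = 2 ∨ 3 ≤ k) with hk | hk | hk | hk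
  · subst hk; simp [g0]
  · subst hk; simp [g1]
  · subst hk; simp
  · rw [h3 k hk, if_neg (by omega), if_neg (by omega)]; simp

/-- **Row O1_UFV.** -/
theorem o1uf : O1ufS := by
  intro q f C1 a p j g h hc0 hcz he hg g1 hm
  have h1 := LocA.of h hc0 hcz (by have := h.j2; omega) he
  have hs := Ser.of hg
  have hj := h.j2
  by_cases hA : ∀ m : ℕ, 2 ≤ m → ∀ k, 1 ≤ k → |g (m * k + 1)| ≤ 1
  · refine h1.ufa hj h.p0 (O1d.p2 h) h.lt h.B hs g1 ?_
    intro k hk
    have := hA (k - 1) (by omega) 1 le_rfl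
    rwa [mul_one, show k - 1 + 1 = k by omega] at this
  · push Not at hA
    obtain ⟨m0, hm0, k0, hk0, hgt⟩ := hA
    have hb0 : ∃ (k : ℕ) (ep : ℤ), 1 ≤ k ∧ (ep = 1 ∨ ep = -1) ∧
        (∀ l, 1 ≤ l → g (m0 * (k * l) + 1) = -j * ep ^ l) ∧
        ∀ i, 1 ≤ i → ¬ k ∣ i → g (m0 * i + 1) = 0 := by
      rcases hm m0 hm0 with h2 | h2
      · exact absurd (h2 k0 hk0) (not_le.mpr hgt)
      · exact h2
    obtain ⟨k1, e1, hk1, he1, hl1, -⟩ := hb0
    refine h1.ufb hj h.p0 (O1d.p2 h) h.lt h.B hs g1 ?_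
    intro m hm2
    rcases hm m hm2 with h2 | ⟨k, ep, hk, hep, hl, hi⟩
    · exfalso
      have h3 := h2 (m0 * k1) (Nat.mul_pos (by omega) (by omega))
      have h4 := hl1 m (by omega)
      rw [show m0 * (k1 * m) + 1 = m * (m0 * k1) + 1 by ring] at h4
      rw [h4] at h3
      have h5 : |(-(j : ℤ)) * e1 ^ m| = j := by
        rw [abs_mul, abs_neg, abs_pow]
        have : |e1| = 1 := by rcases he1 with h | h <;> rw [h] <;> simp
        rw [this, one_pow, mul_one, Nat.abs_cast]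
      rw [h5] at h3
      have : (2 : ℤ) ≤ j := by exact_mod_cast hj
      omega
    · refine ⟨m * k, ep, Nat.mul_pos (by omega) (by omega), hep, ⟨k, rfl⟩, ?_⟩
      rintro i hi1 ⟨t, ht⟩
      have ht1 : 1 ≤ t := by
        rcases Nat.eq_zero_or_pos t with h6 | h6
        · rw [h6, mul_zero] at ht; omega
        · exact h6
      by_cases hkt : k ∣ t
      · obtain ⟨l, hl'⟩ := hkt
        have hl0 : 1 ≤ l := by
          rcases Nat.eq_zero_or_pos l with h6 | h6
          · rw [h6, mul_zero] at hl'; omega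
          · exact h6
        rw [if_pos ⟨l, by rw [ht, hl', mul_assoc]⟩, ht, hl', hl l hl0]
        rw [show m * (k * l) = m * k * l by ring, Nat.mul_div_cancel_left _
          (Nat.mul_pos (by omega) (by omega))]
        ring
      · rw [if_neg, ht]
        · exact hi t ht1 hkt
        · rintro ⟨l, hl'⟩
          apply hkt
          refine ⟨l, ?_⟩
          have : m * t = m * (k * l) := by rw [← ht, hl', mul_assoc]
          exact Nat.eq_of_mul_eq_mul_left (by omega) this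

end Pool.Agent.B5.Nr.Sch
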