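import Pool.Agent.Lib.MP_b5021c_nt.IfaceO1
import Pool.Agent.Lib.MP_b5021c_nt.W.H1.Oi
import Pool.Agent.Lib.MP_b5021c_nt.E.H12.B2
import Pool.Agent.Lib.MP_b5021c_nt.SF.H45.Tpw

/-!
# MP_b5021c_nt, all `θ`, K odd: masses at the A-load (PaperO1, section 3)
-/

namespace Pool.Agent.B5.Nr.Sch

open scoped LaurentPolynomial
open Polynomial Metric
open Pool.Agent.B5
open Pool.Agent.B5.Nr.Car (Cara)

/-- A mass can be subtracted: `C_A - n r` has nonnegative real part. -/
theorem LocA.mass (hH : HpgS) {q f c : ℤ[X]} {a : ℝ} {n : ℕ} (h : LocA q f c a n) (r : ℂ[X])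
    (hr : ∀ z : ℂ, ‖z‖ = 1 → (r.eval z).re * ‖aeval z (q - f)‖ ^ 2 ≤
      ‖aeval z q‖ ^ 2 - ‖aeval z f‖ ^ 2) : Cara (fun z => CA f c n z - n * r.eval z) := by
  have hn0 : (0 : ℝ) < n := by
    have := h.n1
    exact_mod_cast (by omega : 0 < n)
  obtain ⟨v, hv⟩ : ∃ v : ℂ[X], v = c.map (Int.castRingHom ℂ) := ⟨_, rfl⟩
  obtain ⟨W, hW⟩ : ∃ W : ℂ[X], W = (numA f c n).map (Int.castRingHom ℂ) - C (n : ℂ) * r * v :=
    ⟨_, rfl⟩
  have ev : ∀ z : ℂ, v.eval z = aeval z c := by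
    intro z
    rw [hv, eval_map]; rfl
  have eW : ∀ z : ℂ, W.eval z = aeval z (numA f c n) - n * r.eval z * aeval z c := by
    intro z
    rw [hW, eval_sub, eval_mul, eval_mul, eval_C, ev, eval_map]; rfl
  have hZF : ZF v := by
    intro z hz
    rw [ev]
    exact h.cz z hz
  have hsq : ∀ z : ℂ, z * (starRingEnd ℂ) z = ((‖z‖ ^ 2 : ℝ) : ℂ) := by
    intro z
    rw [Complex.mul_conj, Complex.normSq_eq_norm_sq]
  have hWre : ∀ z : ℂ, (W.eval z * (starRingEnd ℂ) (v.eval z)).re =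
      (aeval z (numA f c n) * (starRingEnd ℂ) (aeval z c)).re -
        n * (r.eval z).re * ‖aeval z c‖ ^ 2 := by
    intro z
    rw [eW, ev]
    have h1 : (aeval z (numA f c n) - n * r.eval z * aeval z c) * (starRingEnd ℂ) (aeval z c) =
        aeval z (numA f c n) * (starRingEnd ℂ) (aeval z c) -
        ((n : ℝ) : ℂ) * (r.eval z * ((‖aeval z c‖ ^ 2 : ℝ) : ℂ)) := by
      rw [← hsq]
      push_cast
      ring
    rw [h1, Complex.sub_re, Complex.re_ofReal_mul, Complex.re_mul_ofReal]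
    ring
  obtain ⟨K, hK⟩ : ∃ K : ℝ, ∀ z : ℂ, ‖z‖ ≤ 1 → ‖r.eval z‖ ≤ K := by
    have hc : ContinuousOn (fun z : ℂ => r.eval z) (Metric.closedBall 0 1) :=
      r.continuous.continuousOn
    obtain ⟨K, hK⟩ := (isCompact_closedBall (0 : ℂ) 1).exists_bound_of_continuousOn hc
    exact ⟨K, fun z hz => hK z (by simpa using hz)⟩
  have hCA : ∀ z : ℂ, ‖z‖ < 1 → aeval z (numA f c n) * (starRingEnd ℂ) (aeval z c) =
      ((‖aeval z c‖ ^ 2 : ℝ) : ℂ) * CA f c n z := by
    intro z hz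
    have hc := h.cz z hz
    rw [CA, ← hsq]
    field_simp
  have key := hH v W (n * K) hZF ?_ ?_
  · refine ⟨?_, fun z hz => ?_⟩
    · apply h.diff.sub
      exact (((differentiable_const _).mul r.differentiable).differentiableOn)
    · have h1 := key z hz
      rw [hWre, hCA z hz, Complex.re_ofReal_mul] at h1
      have hc : 0 < ‖aeval z c‖ ^ 2 := by
        have := h.cz z hz
        positivity
      have h2 : (CA f c n z - n * r.eval z).re = (CA f c n z).re - n * (r.eval z).re := by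
        rw [Complex.sub_re]
        have : (n : ℂ) = ((n : ℝ) : ℂ) := by push_cast; rfl
        rw [this, Complex.re_ofReal_mul]
      change 0 ≤ (CA f c n z - n * r.eval z).re
      rw [h2]
      have h3 : 0 ≤ ‖aeval z c‖ ^ 2 * ((CA f c n z).re - n * (r.eval z).re) := by linarith
      exact nonneg_of_mul_nonneg_right h3 hc
  · intro z hz
    rw [hWre, hCA z hz, Complex.re_ofReal_mul, ev]
    have h1 := h.cara.re z hz
    have h2 : (r.eval z).re ≤ K := (Complex.re_le_norm _).trans (hK z hz.le)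
    have h3 : n * (r.eval z).re * ‖aeval z c‖ ^ 2 ≤ n * K * ‖aeval z c‖ ^ 2 :=
      mul_le_mul_of_nonneg_right (mul_le_mul_of_nonneg_left h2 hn0.le) (sq_nonneg _)
    have h4 : 0 ≤ ‖aeval z c‖ ^ 2 * (CA f c n z).re := mul_nonneg (sq_nonneg _) h1
    linarith
  · intro z hz
    rw [hWre]
    have h1 := hr z hz
    have hzz : (starRingEnd ℂ) z * z = 1 := by
      rw [← Complex.normSq_eq_conj_mul_self, Complex.normSq_eq_norm_sq, hz]; simp
    have hz0 : z ≠ 0 := by
      intro h0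
      rw [h0, norm_zero] at hz
      exact zero_ne_one hz
    -- `Re (numA conj c) = (|q|² - |f|²) / n`
    obtain ⟨F, hF⟩ : ∃ F : ℂ, F = aeval z f := ⟨_, rfl⟩
    obtain ⟨D, hD⟩ : ∃ D : ℂ, D = aeval z c := ⟨_, rfl⟩
    have hq := h.q_eval z
    have hnum := h.num z
    rw [← hF, ← hD] at hq hnum
    have h2 : aeval z (numA f c n) = n * D + 2 * (D - F) * (starRingEnd ℂ) z - 2 * z * D := by
      have h3 : z * aeval z (numA f c n) = z * (n * D + 2 * (D - F) * (starRingEnd ℂ) z -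
          2 * z * D) := by
        rw [hnum]
        linear_combination (-(2 * (D - F))) * hzz
      exact mul_left_cancel₀ hz0 h3
    have h4 : ‖aeval z (q - f)‖ ^ 2 = n ^ 2 * ‖D‖ ^ 2 := by
      rw [map_sub, hq, ← hF]
      have : F - n * z * D - F = -(n * z * D) := by ring
      rw [this, norm_neg, norm_mul, norm_mul, hz, Complex.norm_natCast]
      ring
    have h5 : n * (aeval z (numA f c n) * (starRingEnd ℂ) D).re =
        ‖aeval z q‖ ^ 2 - ‖F‖ ^ 2 := by
      rw [hq, h2]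
      have e1 : ‖F - n * z * D‖ ^ 2 = Complex.normSq (F - n * z * D) :=
        (Complex.normSq_eq_norm_sq _).symm
      have e2 : ‖F‖ ^ 2 = Complex.normSq F := (Complex.normSq_eq_norm_sq _).symm
      rw [e1, e2]
      have hz2 : z.re ^ 2 + z.im ^ 2 = 1 := by
        have := Complex.normSq_apply z
        rw [Complex.normSq_eq_norm_sq, hz] at this
        nlinarith
      simp only [Complex.normSq_apply, Complex.mul_re, Complex.mul_im, Complex.sub_re,
        Complex.sub_im, Complex.add_re, Complex.add_im, Complex.conj_re, Complex.conj_im,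
        Complex.natCast_re, Complex.natCast_im, Complex.re_ofNat, Complex.im_ofNat]
      linear_combination (-(n : ℝ) ^ 2 * (D.re ^ 2 + D.im ^ 2)) * hz2
    rw [h4] at h1
    rw [← hF] at h1
    rw [← hD]
    have h6 : n * ((r.eval z).re * (n * ‖D‖ ^ 2)) ≤
        n * (aeval z (numA f c n) * (starRingEnd ℂ) D).re := by
      rw [h5]
      calc n * ((r.eval z).re * (n * ‖D‖ ^ 2)) = (r.eval z).re * (n ^ 2 * ‖D‖ ^ 2) := by ring
        _ ≤ _ := h1
    have h7 := le_of_mul_le_mul_left h6 hn0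
    have h8 : (r.eval z).re * (n * ‖D‖ ^ 2) = n * (r.eval z).re * ‖D‖ ^ 2 := by ring
    linarith

theorem nz_of (hEv : EvRS) (hZf : ZfinS) {t : RO ℤ} (h : NnR t) : H12.Nz t :=
  ⟨H45.tpw_rsh hEv hZf t h, fun z => (h z).2⟩

theorem nz_one {t : RO ℤ} (hp : H12.Nz t) (h1 : t.coeff 0 = 1) : t = 1 := by
  have hne : t ≠ 0 := by rintro rfl; simp at h1
  ext k
  rw [AddMonoidAlgebra.one_def, AddMonoidAlgebra.coeff_single, Finsupp.single_apply]
  by_cases hk : k = 0
  · subst hk; rw [if_pos rfl, h1]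
  · rw [if_neg (Ne.symm hk)]
    have h3 := hp.abs_lt hne hk
    rw [h1] at h3
    have := abs_nonneg (t.coeff k)
    have h4 : |t.coeff k| = 0 := by omega
    exact abs_eq_zero.mp h4

/-- The Poisson inequality for a mass. -/
theorem LocA.am (hH : HpgS) (hPmf : PmfS) {q f c : ℤ[X]} {a : ℝ} {n : ℕ} (h : LocA q f c a n)
    {t : RO ℤ} (ht : rsh t = t) (hm : MasA t q f) :
    n * Am a t ≤ 2 * (a⁻¹ - a) - n := by
  have ha := h.loc.a0
  have ha1 := h.loc.a1
  have hna : ‖(a : ℂ)‖ < 1 := by rw [Complex.norm_real, Real.norm_eq_abs, abs_of_pos ha]; exact ha1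
  obtain ⟨r, -, hr1, hr2, -⟩ := hPmf ℤ t a hna ht
  have hc := h.mass hH r (fun z hz => by
    obtain ⟨w, hw⟩ : ∃ w : Circle, (w : ℂ) = z := ⟨⟨z, mem_sphere_zero_iff_norm.mpr hz⟩, rfl⟩
    have h1 := hm w
    have h2 : (evR w t).re = (r.eval (w : ℂ)).re := hr1 w
    rw [h2, hw] at h1
    exact h1)
  have h1 := hc.re a hna
  have hca := h.cpos ha.le ha1
  have hqa : (aeval a q : ℝ) = 0 := by
    obtain ⟨s, hs, -⟩ := h.loc.sp
    have h1 : (aeval a q : ℝ) = (q.map (Int.castRingHom ℝ)).eval a := by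
      rw [eval_map]; rfl
    rw [h1, hs, eval_mul]; simp
  have hga : aeval a f / aeval a c = n * a := by
    rw [h.qr] at hqa
    rw [div_eq_iff hca.ne']
    linarith
  have h2 : (CA f c n a - n * r.eval (a : ℂ)).re = 2 * (a⁻¹ - a) - n - n * Am a t := by
    rw [Complex.sub_re, h.valr ha ha1, Complex.ofReal_re, hga]
    have : (n : ℂ) = ((n : ℝ) : ℂ) := by push_cast; rfl
    rw [this, Complex.re_ofReal_mul, ← hr2, H18.Am_pmn a (by rw [abs_of_pos ha]; exact ha1)]
    field_simp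
    ring
  have h3 : 0 ≤ (CA f c n a - n * r.eval (a : ℂ)).re := h1
  rw [h2] at h3
  linarith

/-- Lower bounds for the Poisson mean of a mass. -/
theorem am_two_le (hLin : E1.LinS) {t : RO ℤ} (hp : H12.Nz t) {a : ℝ} (ha : 0 ≤ a)
    (ha1 : a ≤ 1 / 2) (h2 : 2 ≤ t.coeff 0) : 2 - 2 * a ≤ Am a t := by
  rcases (by omega : t.coeff 0 = 2 ∨ 3 ≤ t.coeff 0) with h3 | h3
  · exact H12.Am_two hLin hp h3 (s := 1) (b := a) (Or.inl rfl) ha (by linarith) (by simp)
  · have h4 := H12.Am_ge hp (s := 1) (Or.inl rfl) ha (by linarith) (b := a) (by simp)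
    have h5 : (3 : ℝ) ≤ t.coeff 0 := by exact_mod_cast h3
    have h6 : 0 ≤ (1 - a) / (1 + a) := div_nonneg (by linarith) (by linarith)
    have h7 : (1 - a) / (1 + a) * 3 ≤ (1 - a) / (1 + a) * t.coeff 0 :=
      mul_le_mul_of_nonneg_left h5 h6
    have h8 : 2 - 2 * a ≤ (1 - a) / (1 + a) * 3 := by
      rw [div_mul_eq_mul_div, le_div_iff₀ (by linarith)]
      nlinarith
    linarith

end Pool.Agent.B5.Nr.Sch
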