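import Pool.Agent.Lib.MP_b5021c_nt.W.H1.O1Row
import Pool.Agent.Lib.MP_b5021c_nt.W.H1.Mas

/-!
# Rows O1_43 and O1_32A
-/

namespace Pool.Agent.B5.Nr.Sch

open scoped LaurentPolynomial
open Polynomial Metric
open Pool.Agent.B5
open Pool.Agent.B5.Nr.Car (Cara)

theorem Am_one (a : ℝ) : Am a (1 : RO ℤ) = 1 := by
  rw [AddMonoidAlgebra.one_def, H18.Am_single]
  simp

theorem LocA.ga {q f c : ℤ[X]} {a : ℝ} {n : ℕ} (h : LocA q f c a n) :
    CA f c n a = ((2 * (a⁻¹ - a) - n : ℝ) : ℂ) := by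
  have ha := h.loc.a0
  have ha1 := h.loc.a1
  have hca := h.cpos ha.le ha1
  have hqa : (aeval a q : ℝ) = 0 := by
    obtain ⟨s, hs, -⟩ := h.loc.sp
    have h1 : (aeval a q : ℝ) = (q.map (Int.castRingHom ℝ)).eval a := by
      rw [eval_map]; rfl
    rw [h1, hs, eval_mul]; simp
  have hga : aeval a f / aeval a c = n * a := by
    rw [h.qr] at hqa
    rw [div_eq_iff hca.ne']
    linarith
  rw [h.valr ha ha1, hga]
  congr 1
  field_simp
  ring

theorem LocA.am2 (hH : HpgS) (hPmf : PmfS) {q f c : ℤ[X]} {a : ℝ} {n : ℕ} (h : LocA q f c a n)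
    {t1 t2 : RO ℤ} (h1 : H12.Nz t1) (h2 : H12.Nz t2) (hm : MasA (t1 + t2) q f) :
    n * (Am a t1 + Am a t2) ≤ 2 * (a⁻¹ - a) - n := by
  rw [← H18.Am_add]
  exact h.am hH hPmf (by rw [map_add, h1.1, h2.1]) hm

/-- **Row O1_43.** -/
theorem o143 (hH : HpgS) (hPmf : PmfS) (hLin : E1.LinS) (hEv : EvRS) (hZf : ZfinS) : O43S := by
  intro q f C1 a p t1 t2 h hc0 hcz he ht1 hn1 ht2 hn2 hm
  have hA := LocA.of h hc0 hcz (n := 3) (by norm_num) he
  have hz1 := nz_of hEv hZf hn1
  have hz2 := nz_of hEv hZf hn2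
  have k := hA.am2 hH hPmf hz1 hz2 hm
  have ha := h.loc.a0
  have hp := O1d.p2 h
  push_cast at hp k
  have hlt := h.lt
  push_cast at hlt
  have hp0 := h.p0
  have hap := h.ap
  have hp1 : p < 0.2361 := by nlinarith
  have ha1 : a < 0.2361 := by linarith
  have ha2 : 0.2 < a := by linarith
  have hinv : a⁻¹ < 5 := by
    rw [inv_lt_comm₀ ha (by norm_num)]; linarith
  have b1 := hz1.pos ht1
  have b2 := hz2.pos ht2
  -- both are one
  have hcase : t1.coeff 0 = 1 ∧ t2.coeff 0 = 1 := by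
    by_contra hcon
    rcases (by omega : t1.coeff 0 = 1 ∨ 2 ≤ t1.coeff 0) with c1 | c1 <;>
      rcases (by omega : t2.coeff 0 = 1 ∨ 2 ≤ t2.coeff 0) with c2 | c2
    · exact hcon ⟨c1, c2⟩
    · have e1 := hz1.one c1 a
      have e2 := am_two_le hLin hz2 ha.le (by linarith) c2
      linarith
    · have e1 := hz2.one c2 a
      have e2 := am_two_le hLin hz1 ha.le (by linarith) c1
      linarith
    · have e1 := am_two_le hLin hz1 ha.le (by linarith) c1
      have e2 := am_two_le hLin hz2 ha.le (by linarith) c2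
      linarith
  have e1 := nz_one hz1 hcase.1
  have e2 := nz_one hz2 hcase.2
  subst e1 e2
  have hc := hA.mass hH (C 2) (fun z hz => by
    obtain ⟨w, hw⟩ : ∃ w : Circle, (w : ℂ) = z := ⟨⟨z, mem_sphere_zero_iff_norm.mpr hz⟩, rfl⟩
    have h1 := hm w
    rw [map_add, map_one, hw] at h1
    rw [eval_C]
    have h2 : ((1 : ℂ) + 1).re = (2 : ℂ).re := by norm_num
    rw [h2] at h1
    exact h1)
  -- the value at `0`
  have v0 := hA.val0
  have hlo := hc.lo (x := 0) (y := a) le_rfl ha.le (by linarith)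
  simp only [Complex.ofReal_zero, eval_C] at hlo
  have hre0 := hc.re 0 (by simp)
  simp only [eval_C] at hre0
  rw [v0] at hlo hre0
  rw [hA.ga] at hlo
  have i1 : ((((3 : ℕ) - 2 * (f.coeff 1 - C1.coeff 1) : ℤ) : ℂ) - ((3 : ℕ) : ℂ) * 2).re =
      ((-3 - 2 * (f.coeff 1 - C1.coeff 1) : ℤ) : ℝ) := by
    have : ((((3 : ℕ) - 2 * (f.coeff 1 - C1.coeff 1) : ℤ) : ℂ) - ((3 : ℕ) : ℂ) * 2) =
        (((-3 - 2 * (f.coeff 1 - C1.coeff 1) : ℤ) : ℝ) : ℂ) := by
      push_cast; ring
    rw [this, Complex.ofReal_re]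
  have i2 : (((2 * (a⁻¹ - a) - (3 : ℕ) : ℝ) : ℂ) - ((3 : ℕ) : ℂ) * 2).re =
      2 * (a⁻¹ - a) - 9 := by
    have : (((2 * (a⁻¹ - a) - (3 : ℕ) : ℝ) : ℂ) - ((3 : ℕ) : ℂ) * 2) =
        ((2 * (a⁻¹ - a) - 9 : ℝ) : ℂ) := by
      push_cast; ring
    rw [this, Complex.ofReal_re]
  rw [i1] at hlo hre0
  rw [i2] at hlo
  have j1 : (0 : ℤ) ≤ -3 - 2 * (f.coeff 1 - C1.coeff 1) := by exact_mod_cast hre0
  have j2 : (1 : ℤ) ≤ -3 - 2 * (f.coeff 1 - C1.coeff 1) := by omega
  have j3 : (1 : ℝ) ≤ ((-3 - 2 * (f.coeff 1 - C1.coeff 1) : ℤ) : ℝ) := by exact_mod_cast j2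
  nlinarith

/-- The inequality which excludes the larger masses. -/
theorem ineq3 {a : ℝ} (ha : 0 < a) (h1 : 1 / 4 < a) (h2 : a < 1 / 3) :
    (a⁻¹ - a) - 1 < 1 + 3 * ((1 - a) / (1 + a)) ∧ (a⁻¹ - a) - 1 < 3 - 2 * a ^ 2 ∧
      (a⁻¹ - a) - 1 < 4 - 4 * a := by
  have e : a⁻¹ * a = 1 := inv_mul_cancel₀ ha.ne'
  refine ⟨?_, ?_, ?_⟩
  · have h3 : (1 - a) / (1 + a) * (1 + a) = 1 - a := by field_simp
    by_contra hcon
    push Not at hcon
    have h4 : a * (1 + a) * (1 + 3 * ((1 - a) / (1 + a))) ≤ a * (1 + a) * ((a⁻¹ - a) - 1) :=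
      mul_le_mul_of_nonneg_left hcon (by positivity)
    have h5 : a * (1 + a) * (1 + 3 * ((1 - a) / (1 + a))) = a * (1 + a) + 3 * a * (1 - a) := by
      linear_combination 3 * a * h3
    have h6 : a * (1 + a) * ((a⁻¹ - a) - 1) = (1 + a) * (1 - a ^ 2 - a) := by
      linear_combination (1 + a) * e
    rw [h5, h6] at h4
    have : 0 < a ^ 3 := by positivity
    nlinarith
  · by_contra hcon
    push Not at hcon
    have h4 : a * (3 - 2 * a ^ 2) ≤ a * ((a⁻¹ - a) - 1) := mul_le_mul_of_nonneg_left hcon ha.le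
    have h6 : a * ((a⁻¹ - a) - 1) = 1 - a ^ 2 - a := by linear_combination e
    rw [h6] at h4
    have : 0 < a ^ 2 * (1 - 2 * a) := by
      have : 0 < 1 - 2 * a := by linarith
      positivity
    nlinarith
  · by_contra hcon
    push Not at hcon
    have h4 : a * (4 - 4 * a) ≤ a * ((a⁻¹ - a) - 1) := mul_le_mul_of_nonneg_left hcon ha.le
    have h6 : a * ((a⁻¹ - a) - 1) = 1 - a ^ 2 - a := by linear_combination e
    rw [h6] at h4
    nlinarith

/-- One mass is one, the other is not: impossible. -/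
theorem core32 (hH : HpgS) (hPmf : PmfS) (hLin : E1.LinS) (hEv : EvRS) (hZf : ZfinS)
    {q f C1 : ℤ[X]} {a p : ℝ} {t2 : RO ℤ} (h : O1d q f a p 3) (hc0 : C1.coeff 0 = 1)
    (hcz : ∀ z : ℂ, ‖z‖ < 1 → aeval z C1 ≠ 0) (he : f - q = C 2 * X * C1) (hn2 : NnR t2)
    (hm : MasA (1 + t2) q f) (c2 : 2 ≤ t2.coeff 0) : False := by
  have hA := LocA.of h hc0 hcz (n := 2) (by norm_num) he
  have hz2 := nz_of hEv hZf hn2
  have hz1 : H12.Nz (1 : RO ℤ) := by
    refine ⟨map_one _, fun z => ?_⟩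
    rw [map_one]; simp
  have k := hA.am2 hH hPmf hz1 hz2 hm
  have ha := h.loc.a0
  have hp := O1d.p2 h
  push_cast at hp k
  have hlt := h.lt
  push_cast at hlt
  have hp0 := h.p0
  have hap := h.ap
  have hp1 : p < 0.3028 := by nlinarith
  have ha1 : a < 0.3028 := by linarith
  have ha2 : 1 / 4 < a := by linarith
  obtain ⟨q1, q2, q3⟩ := ineq3 ha ha2 (by linarith)
  rw [Am_one] at k
  rcases (by omega : t2.coeff 0 = 2 ∨ 3 ≤ t2.coeff 0) with c3 | c3
  · rcases hz2.two hLin c3 with c4 | ⟨m, e, hm0, he1, c4⟩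
    · rw [c4, H18.Am_single] at k
      simp only [Int.natAbs_zero, pow_zero, mul_one, Int.cast_ofNat] at k
      nlinarith
    · by_cases hsp : m = 1 ∧ e = -1
      · -- `t2 = |1 - z|²`
        obtain ⟨rfl, rfl⟩ := hsp
        have hc := hA.mass hH (C 3 - C 2 * X) (fun z hz => by
          obtain ⟨w, hw⟩ : ∃ w : Circle, (w : ℂ) = z :=
            ⟨⟨z, mem_sphere_zero_iff_norm.mpr hz⟩, rfl⟩
          have h1 := hm w
          rw [map_add, map_one, c4, H12.evR_wt, hw, zpow_one] at h1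
          have h2 : ((1 : ℂ) + ((2 + ((-1 : ℤ) : ℝ) * (2 * z.re) : ℝ) : ℂ)).re =
              ((C 3 - C 2 * X : ℂ[X]).eval z).re := by
            rw [Complex.add_re, Complex.ofReal_re, eval_sub, eval_mul, eval_C, eval_C, eval_X,
              Complex.sub_re]
            have : ((2 : ℂ) * z).re = 2 * z.re := by simp
            rw [this]
            simp
            ring
          rw [h2] at h1
          exact h1)
        -- the function `Phi = C_A - 6 + 4 z`
        have v0 := hA.val0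
        have hlo := hc.lo (x := 0) (y := a) le_rfl ha.le (by linarith)
        have hup := hc.up (x := 0) (y := p) le_rfl hp0.le (by linarith)
        have hre0 := hc.re 0 (by simp)
        have hrep := hc.re p (by
          rw [Complex.norm_real, Real.norm_eq_abs, abs_of_pos hp0]; linarith)
        simp only [Complex.ofReal_zero, eval_C, eval_sub, eval_mul, eval_X, mul_zero,
          sub_zero] at hlo hup hre0 hrep
        rw [v0] at hlo hre0 hup
        rw [hA.ga] at hlo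
        rw [hA.valr hp0 (by linarith)] at hup hrep
        have i1 : ((((2 : ℕ) - 2 * (f.coeff 1 - C1.coeff 1) : ℤ) : ℂ) - ((2 : ℕ) : ℂ) * 3).re =
            ((-4 - 2 * (f.coeff 1 - C1.coeff 1) : ℤ) : ℝ) := by
          have : ((((2 : ℕ) - 2 * (f.coeff 1 - C1.coeff 1) : ℤ) : ℂ) - ((2 : ℕ) : ℂ) * 3) =
              (((-4 - 2 * (f.coeff 1 - C1.coeff 1) : ℤ) : ℝ) : ℂ) := by
            push_cast; ring
          rw [this, Complex.ofReal_re]
        have i2 : (((2 * (a⁻¹ - a) - (2 : ℕ) : ℝ) : ℂ) - ((2 : ℕ) : ℂ) * (3 - 2 * a)).re =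
            2 * (a⁻¹ - a) - 8 + 4 * a := by
          have : (((2 * (a⁻¹ - a) - (2 : ℕ) : ℝ) : ℂ) - ((2 : ℕ) : ℂ) * (3 - 2 * a)) =
              ((2 * (a⁻¹ - a) - 8 + 4 * a : ℝ) : ℂ) := by
            push_cast; ring
          rw [this, Complex.ofReal_re]
        obtain ⟨y, hy⟩ : ∃ y : ℝ, y = aeval p f / aeval p C1 := ⟨_, rfl⟩
        have w2 := hA.e2 hp0 (by linarith) h.B
        rw [← hy] at hup hrep w2
        push_cast at w2
        have i3 : ((((2 : ℕ) + 2 * (1 - y) / p - 2 * p : ℝ) : ℂ) -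
            ((2 : ℕ) : ℂ) * (3 - 2 * p)).re = 2 * (1 - y) / p - 4 + 2 * p := by
          have : ((((2 : ℕ) + 2 * (1 - y) / p - 2 * p : ℝ) : ℂ) -
            ((2 : ℕ) : ℂ) * (3 - 2 * p)) = ((2 * (1 - y) / p - 4 + 2 * p : ℝ) : ℂ) := by
            push_cast; ring
          rw [this, Complex.ofReal_re]
        rw [i1] at hlo hre0 hup
        rw [i2] at hlo
        rw [i3] at hup hrep
        have j1 : (0 : ℤ) ≤ -4 - 2 * (f.coeff 1 - C1.coeff 1) := by exact_mod_cast hre0
        have e : a⁻¹ * a = 1 := inv_mul_cancel₀ ha.ne'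
        have hinv : a⁻¹ < 4 := by
          rw [inv_lt_comm₀ ha (by norm_num)]; linarith
        have j3 : ((-4 - 2 * (f.coeff 1 - C1.coeff 1) : ℤ) : ℝ) < ((2 : ℤ) : ℝ) := by
          push_cast
          push_cast at hlo
          by_contra hcon
          push Not at hcon
          have h5 : 2 * (a⁻¹ - a) - 8 + 4 * a < 2 / 3 := by linarith
          nlinarith
        have j4 : -4 - 2 * (f.coeff 1 - C1.coeff 1) < 2 := by exact_mod_cast j3
        have j5 : -4 - 2 * (f.coeff 1 - C1.coeff 1) = 0 := by omega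
        rw [j5] at hup
        have h6 : 2 * (1 - y) / p - 4 + 2 * p ≤ 0 := by
          have h7 : (2 * (1 - y) / p - 4 + 2 * p) * (1 - p) ≤ 0 := by
            calc (2 * (1 - y) / p - 4 + 2 * p) * (1 - p) =
                (2 * (1 - y) / p - 4 + 2 * p) * ((1 + 0) * (1 - p)) := by ring
              _ ≤ _ := hup
              _ = 0 := by simp
          by_contra hcon
          push Not at hcon
          have : 0 < (2 * (1 - y) / p - 4 + 2 * p) * (1 - p) := mul_pos hcon (by linarith)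
          linarith
        have h7 : 2 * (1 - y) / p * p = 2 * (1 - y) := by field_simp
        have h8 : (1 - p) ^ 2 ≤ y := by nlinarith
        -- `(1 + p)(1 - p)² = 3 p (1 - p) ≤ 2 p`
        have h9 : (1 + p) * (1 - p) ^ 2 ≤ 2 * p := by
          calc (1 + p) * (1 - p) ^ 2 ≤ (1 + p) * y := mul_le_mul_of_nonneg_left h8 (by linarith)
            _ ≤ _ := w2
        have h10 : (1 + p) * (1 - p) ^ 2 = 3 * p * (1 - p) := by
          linear_combination (-(1 - p)) * hp
        rw [h10] at h9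
        nlinarith
      · rw [c4, H12.Am_wt] at k
        have hpow : -(a ^ 2) ≤ (e : ℝ) * a ^ m.natAbs := by
          have hpos : 0 < a ^ m.natAbs := by positivity
          rcases he1 with rfl | rfl
          · push_cast; nlinarith [sq_nonneg a]
          · have h2m : 2 ≤ m.natAbs := by
              have : m ≠ 1 := fun hh => hsp ⟨hh, rfl⟩
              omega
            have := pow_le_pow_of_le_one ha.le (by linarith) h2m
            push_cast; linarith
        nlinarith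
  · have h4 := H12.Am_ge hz2 (s := 1) (Or.inl rfl) ha.le (by linarith) (b := a) (by simp)
    have h5 : (3 : ℝ) ≤ t2.coeff 0 := by exact_mod_cast c3
    have h6 : 0 ≤ (1 - a) / (1 + a) := div_nonneg (by linarith) (by linarith)
    have h7 : (1 - a) / (1 + a) * 3 ≤ (1 - a) / (1 + a) * t2.coeff 0 :=
      mul_le_mul_of_nonneg_left h5 h6
    linarith

/-- **Row O1_32A.** -/
theorem o132a (hH : HpgS) (hPmf : PmfS) (hLin : E1.LinS) (hEv : EvRS) (hZf : ZfinS) : O32aS := by
  intro q f C1 a p t1 t2 h hc0 hcz he ht1 hn1 ht2 hn2 hm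
  have hA := LocA.of h hc0 hcz (n := 2) (by norm_num) he
  have hz1 := nz_of hEv hZf hn1
  have hz2 := nz_of hEv hZf hn2
  have b1 := hz1.pos ht1
  have b2 := hz2.pos ht2
  rcases (by omega : t1.coeff 0 = 1 ∨ 2 ≤ t1.coeff 0) with c1 | c1 <;>
    rcases (by omega : t2.coeff 0 = 1 ∨ 2 ≤ t2.coeff 0) with c2 | c2
  · exact ⟨nz_one hz1 c1, nz_one hz2 c2⟩
  · exfalso
    rw [nz_one hz1 c1] at hm
    exact core32 hH hPmf hLin hEv hZf h hc0 hcz he hn2 hm c2
  · exfalso
    rw [nz_one hz2 c2, add_comm] at hm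
    exact core32 hH hPmf hLin hEv hZf h hc0 hcz he hn1 hm c1
  · exfalso
    have k := hA.am2 hH hPmf hz1 hz2 hm
    have ha := h.loc.a0
    have hp := O1d.p2 h
    push_cast at hp k
    have hlt := h.lt
    push_cast at hlt
    have hp0 := h.p0
    have hap := h.ap
    have hp1 : p < 0.3028 := by nlinarith
    have ha1 : a < 0.3028 := by linarith
    have ha2 : 1 / 4 < a := by linarith
    obtain ⟨-, -, q3⟩ := ineq3 ha ha2 (by linarith)
    have e1 := am_two_le hLin hz1 ha.le (by linarith) c1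
    have e2 := am_two_le hLin hz2 ha.le (by linarith) c2
    linarith

end Pool.Agent.B5.Nr.Sch
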