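import Pool.Agent.Lib.MP_b5021c_nt.W.H1.Oi

/-!
# MP_b5021c_nt, all `θ`, K odd: (O1-i), the case `T_0 = j + 2` (PaperO1, section 2)
-/

namespace Pool.Agent.B5.Nr.Sch

open Polynomial Metric
open Pool.Agent.B5.Nr.Car (Cara)

/-- `f = c g` as power series. -/
def Ser (f c : ℤ[X]) (g : ℕ → ℤ) : Prop :=
  ∀ k, f.coeff k = ∑ p ∈ Finset.HasAntidiagonal.antidiagonal k, c.coeff p.1 * g p.2

theorem aeval_tsum (P : ℤ[X]) (x : ℝ) :
    (aeval x P : ℝ) = ∑' k, (P.coeff k : ℝ) * x ^ k ∧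
      Summable fun k => ‖(P.coeff k : ℝ) * x ^ k‖ := by
  have hz : ∀ k ∉ Finset.range (P.natDegree + 1), (P.coeff k : ℝ) * x ^ k = 0 := by
    intro k hk
    rw [Finset.mem_range, not_lt] at hk
    rw [coeff_eq_zero_of_natDegree_lt (by omega)]
    simp
  constructor
  · rw [tsum_eq_sum hz, aeval_eq_sum_range]
    apply Finset.sum_congr rfl
    intro k _
    rw [zsmul_eq_mul]
  · apply summable_of_ne_finset_zero (s := Finset.range (P.natDegree + 1))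
    intro k hk
    rw [hz k hk, norm_zero]

theorem ser_sum {g : ℕ → ℤ} {B : ℝ} (hg : ∀ k, |(g k : ℝ)| ≤ B) {x : ℝ} (hx : |x| < 1) :
    Summable fun k => ‖(g k : ℝ) * x ^ k‖ := by
  apply Summable.of_nonneg_of_le (f := fun k => B * |x| ^ k) (fun k => norm_nonneg _)
  · intro k
    rw [norm_mul, norm_pow, Real.norm_eq_abs, Real.norm_eq_abs]
    exact mul_le_mul_of_nonneg_right (hg k) (by positivity)
  · exact (summable_geometric_of_lt_one (abs_nonneg x) hx).mul_left B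

theorem Ser.val {f c : ℤ[X]} {g : ℕ → ℤ} (h : Ser f c g) {B : ℝ} (hg : ∀ k, |(g k : ℝ)| ≤ B)
    {x : ℝ} (hx : |x| < 1) : (aeval x f : ℝ) = aeval x c * ∑' k, (g k : ℝ) * x ^ k := by
  obtain ⟨hc, hcs⟩ := aeval_tsum c x
  rw [(aeval_tsum f x).1, hc,
    tsum_mul_tsum_eq_tsum_sum_antidiagonal_of_summable_norm hcs (ser_sum hg hx)]
  congr 1
  ext k
  rw [h k]
  push_cast
  rw [Finset.sum_mul]
  apply Finset.sum_congr rfl
  intro p hp
  rw [Finset.HasAntidiagonal.mem_antidiagonal] at hp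
  rw [← hp, pow_add]
  ring

/-- The first coefficient dominates. -/
theorem dom {b : ℕ → ℤ} {k0 : ℕ} (h0 : ∀ k < k0, b k = 0) (h1 : ∀ k, k0 < k → |b k| ≤ 1)
    {t : ℝ} (ht0 : 0 < t) (ht : t < 1 / 2) :
    |∑' k, (b k : ℝ) * t ^ k - b k0 * t ^ k0| < t ^ k0 := by
  have hB : ∀ k, |(b k : ℝ)| ≤ 1 + |(b k0 : ℝ)| := by
    intro k
    rcases lt_trichotomy k k0 with hk | hk | hk
    · rw [h0 k hk]; simp; positivity
    · rw [hk]; linarith
    · have : |(b k : ℝ)| ≤ 1 := by exact_mod_cast h1 k hk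
      linarith [abs_nonneg (b k0 : ℝ)]
  have hs := (ser_sum hB (x := t) (by rw [abs_of_pos ht0]; linarith)).of_norm
  have h2 := hs.sum_add_tsum_nat_add (k0 + 1)
  have h3 : ∑ i ∈ Finset.range (k0 + 1), (b i : ℝ) * t ^ i = b k0 * t ^ k0 := by
    rw [Finset.sum_range_succ, Finset.sum_eq_zero, zero_add]
    intro i hi
    rw [h0 i (Finset.mem_range.mp hi)]
    simp
  rw [h3] at h2
  have h4 : ∑' k, (b k : ℝ) * t ^ k - b k0 * t ^ k0 =
      ∑' i, (b (i + (k0 + 1)) : ℝ) * t ^ (i + (k0 + 1)) := by linarith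
  rw [h4]
  have hgeo : HasSum (fun i : ℕ => t ^ (k0 + 1) * t ^ i) (t ^ (k0 + 1) * (1 - t)⁻¹) :=
    (hasSum_geometric_of_lt_one ht0.le (by linarith)).mul_left _
  have h5 : ‖∑' i, (b (i + (k0 + 1)) : ℝ) * t ^ (i + (k0 + 1))‖ ≤ t ^ (k0 + 1) * (1 - t)⁻¹ := by
    apply tsum_of_norm_bounded hgeo
    intro i
    rw [norm_mul, norm_pow, Real.norm_eq_abs, Real.norm_eq_abs, abs_of_pos ht0, pow_add]
    have : |(b (i + (k0 + 1)) : ℝ)| ≤ 1 := by exact_mod_cast h1 (i + (k0 + 1)) (by omega)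
    have h6 : 0 ≤ t ^ i * t ^ (k0 + 1) := by positivity
    nlinarith
  rw [Real.norm_eq_abs] at h5
  have h6 : t ^ (k0 + 1) * (1 - t)⁻¹ < t ^ k0 := by
    rw [pow_succ, mul_assoc]
    have h7 : t * (1 - t)⁻¹ < 1 := by
      rw [← div_eq_mul_inv, div_lt_one (by linarith)]; linarith
    have h8 : 0 < t ^ k0 := by positivity
    nlinarith
  linarith

/-- The sign does not change on `(0, 1/2)`. -/
theorem sgn_const {b : ℕ → ℤ} {k1 : ℕ} (h0 : ∀ k < k1, b k = 0) (h1 : ∀ k, k1 < k → |b k| ≤ 1)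
    {x y : ℝ} (hx0 : 0 < x) (hx : x < 1 / 2) (hy0 : 0 < y) (hy : y < 1 / 2)
    (hpos : 0 < ∑' k, (b k : ℝ) * x ^ k) : 0 < ∑' k, (b k : ℝ) * y ^ k := by
  have hex : ∃ k, b k ≠ 0 := by
    by_contra hcon
    push Not at hcon
    have : ∑' k, (b k : ℝ) * x ^ k = 0 := by
      have : (fun k => (b k : ℝ) * x ^ k) = fun _ => 0 := by
        ext k; rw [hcon k]; simp
      rw [this, tsum_zero]
    linarith
  classical
  obtain ⟨k0, hk0, hmin⟩ : ∃ k0, b k0 ≠ 0 ∧ ∀ k < k0, b k = 0 := by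
    refine ⟨Nat.find hex, Nat.find_spec hex, fun k hk => ?_⟩
    have := Nat.find_min hex hk
    push Not at this
    exact this
  have hk1 : k1 ≤ k0 := by
    by_contra hcon
    push Not at hcon
    exact hk0 (h0 k0 hcon)
  have h2 : ∀ k, k0 < k → |b k| ≤ 1 := fun k hk => h1 k (by omega)
  have dx := abs_lt.mp (dom hmin h2 hx0 hx)
  have dy := abs_lt.mp (dom hmin h2 hy0 hy)
  have hpx : 0 < x ^ k0 := by positivity
  have hpy : 0 < y ^ k0 := by positivity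
  have hb1 : 1 ≤ b k0 := by
    by_contra hcon
    push Not at hcon
    have h3 : b k0 ≤ -1 := by omega
    have h3' : (b k0 : ℝ) ≤ -1 := by exact_mod_cast h3
    have h4 : b k0 * x ^ k0 ≤ -1 * x ^ k0 := mul_le_mul_of_nonneg_right h3' hpx.le
    linarith
  have hb1' : (1 : ℝ) ≤ b k0 := by exact_mod_cast hb1
  have h4 : 1 * y ^ k0 ≤ b k0 * y ^ k0 := mul_le_mul_of_nonneg_right hb1' hpy.le
  linarith

/-- The sum without the first two terms. -/
theorem tail2 {g : ℕ → ℤ} {B : ℝ} (hg : ∀ k, |(g k : ℝ)| ≤ B) (g0 : g 0 = 1) (g1 : g 1 = -1)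
    {x : ℝ} (hx : |x| < 1) :
    ∑' k, (g k : ℝ) * x ^ k = 1 - x + ∑' k, ((if k < 2 then 0 else g k : ℤ) : ℝ) * x ^ k := by
  have hs := (ser_sum hg hx).of_norm
  have hB : 0 ≤ B := (abs_nonneg _).trans (hg 0)
  have hg' : ∀ k, |((if k < 2 then 0 else g k : ℤ) : ℝ)| ≤ B := by
    intro k
    split_ifs
    · simpa using hB
    · exact hg k
  have hs' := (ser_sum hg' hx).of_norm
  rw [← hs.sum_add_tsum_nat_add 2, ← hs'.sum_add_tsum_nat_add 2]
  have h1 : ∀ i : ℕ, ((if i + 2 < 2 then 0 else g (i + 2) : ℤ) : ℝ) = g (i + 2) := by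
    intro i
    rw [if_neg (by omega)]
  simp only [h1, Finset.sum_range_succ, Finset.sum_range_zero]
  rw [g0, g1]
  simp
  ring

/-- The two inequalities for `S = g - 1 + z`. -/
theorem LocA.two {q f c : ℤ[X]} {a p : ℝ} {j : ℕ} (h : LocA q f c a j) (hj : 2 ≤ j)
    (hp0 : 0 < p) (hp : p ^ 2 + j * p = 1) (hth : 1 < ((j : ℝ) + 1) * a)
    (hB : (aeval p q : ℝ) + p * aeval p f ≤ 0) {g : ℕ → ℤ} (hs : Ser f c g) {B : ℝ}
    (hg : ∀ k, |(g k : ℝ)| ≤ B) (g1 : g 1 = -1) :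
    g 0 = 1 ∧
    0 < ∑' k, ((if k < 2 then 0 else g k : ℤ) : ℝ) * (1 / ((j : ℝ) + 1)) ^ k ∧
    ∑' k, ((if k < 2 then 0 else g k : ℤ) : ℝ) * p ^ k ≤ 0 := by
  obtain ⟨J, hJ⟩ : ∃ J : ℝ, J = j := ⟨_, rfl⟩
  have hJ1 : 2 ≤ J := by rw [hJ]; exact_mod_cast hj
  have g0 : g 0 = 1 := by
    have h1 := hs 0
    rw [h.f0] at h1
    simpa [h.c0] using h1.symm
  rw [← hJ] at hp hth ⊢
  obtain ⟨hxp, hp1⟩ := x12 (by linarith : 0 < J) hp0 hp
  have hx0 : 0 < 1 / (J + 1) := by positivity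
  have hxa : 1 / (J + 1) < a := by
    rw [div_lt_iff₀ (by linarith)]; linarith
  have hval : ∀ t : ℝ, 0 < t → t < 1 → aeval t f / aeval t c =
      1 - t + ∑' k, ((if k < 2 then 0 else g k : ℤ) : ℝ) * t ^ k := by
    intro t ht0 ht1
    have hc := h.cpos ht0.le ht1
    have ht : |t| < 1 := by rw [abs_of_pos ht0]; exact ht1
    rw [hs.val hg ht, mul_div_cancel_left₀ _ hc.ne', tail2 hg g0 g1 ht]
  have w2 := h.e2 hp0 hp1 hB
  have w1 := h.e1 hx0 hxa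
  rw [hval _ hp0 hp1, ← hJ] at w2
  rw [hval _ hx0 (hxp.trans hp1), ← hJ] at w1
  refine ⟨g0, ?_, ?_⟩
  · have h7 : J * (1 / (J + 1)) = 1 - 1 / (J + 1) := by field_simp; ring
    linarith
  · have h2 : (1 + p) * (1 - p + ∑' k, ((if k < 2 then 0 else g k : ℤ) : ℝ) * p ^ k) ≤
        (1 + p) * (1 - p) := by linarith
    have := le_of_mul_le_mul_left h2 (by linarith)
    linarith

/-- **OI_UFA**: `T_0 = j + 2` and `|T_k| ≤ 1` for `k ≥ 2` (`T_k = - g_{k+1}`) is impossible. -/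
theorem LocA.ufa {q f c : ℤ[X]} {a p : ℝ} {j : ℕ} (h : LocA q f c a j) (hj : 2 ≤ j)
    (hp0 : 0 < p) (hp : p ^ 2 + j * p = 1) (hth : 1 < ((j : ℝ) + 1) * a)
    (hB : (aeval p q : ℝ) + p * aeval p f ≤ 0) {g : ℕ → ℤ} (hs : Ser f c g)
    (g1 : g 1 = -1) (hg : ∀ k, 3 ≤ k → |g k| ≤ 1) : False := by
  have g0 : g 0 = 1 := by
    have h1 := hs 0
    rw [h.f0] at h1
    simpa [h.c0] using h1.symm
  have hbd : ∀ k, |(g k : ℝ)| ≤ 1 + |(g 2 : ℝ)| := by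
    intro k
    have h2 := abs_nonneg (g 2 : ℝ)
    rcases (by omega : k = 0 ∨ k = 1 ∨ k = 2 ∨ 3 ≤ k) with hk | hk | hk | hk
    · rw [hk, g0]; simp
    · rw [hk, g1]; simp
    · rw [hk]; linarith
    · have : |(g k : ℝ)| ≤ 1 := by exact_mod_cast hg k hk
      linarith
  obtain ⟨-, h1, h2⟩ := h.two hj hp0 hp hth hB hs hbd g1
  obtain ⟨J, hJ⟩ : ∃ J : ℝ, J = j := ⟨_, rfl⟩
  have hJ1 : 2 ≤ J := by rw [hJ]; exact_mod_cast hj
  rw [← hJ] at hp h1
  obtain ⟨hxp, hp1⟩ := x12 (by linarith : 0 < J) hp0 hp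
  have hp2 := x2h hJ1 hp0 hp
  have hx0 : 0 < 1 / (J + 1) := by positivity
  have h3 := sgn_const (b := fun k => if k < 2 then 0 else g k) (k1 := 2)
    (fun k hk => if_pos hk) (fun k hk => by
      rw [if_neg (by omega)]
      exact hg k (by omega)) hx0 (hxp.trans hp2) hp0 hp2 h1
  exact absurd h3 (not_lt.mpr h2)

end Pool.Agent.B5.Nr.Sch
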